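import Pool.Agent.Lib.MP_5591bc_ag.A.Set

/-! Equations of an algebraic arc. -/

namespace Pool.Agent.Lib.MP_5591bc_ag.A

open Matrix Filter Topology Metric G R W M

noncomputable section

section
open Polynomial

theorem alg_an {f : ℂ → ℂ} (hf : AnalyticAt ℂ f 0) (q : ℂ[X][X]) :
    AnalyticAt ℂ (fun u => q.evalEval u (f u)) 0 := by
  induction q using Polynomial.induction_on' with
  | add p q hp hq => simp only [evalEval_add]; exact hp.add hq
  | monomial n c =>
    simp only [← C_mul_X_pow_eq_monomial, evalEval_mul, evalEval_pow, evalEval_C, evalEval_X]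
    exact (c.differentiable.analyticAt 0).mul (hf.pow n)

theorem alg_bez {g : ℂ[X][X]} (hg : Irreducible g) (h0 : g.natDegree ≠ 0) :
    ∃ (r : ℂ[X]) (a b : ℂ[X][X]), r ≠ 0 ∧ g * a + derivative g * b = C r := by
  have hi := IsFractionRing.injective ℂ[X] (FractionRing ℂ[X])
  have h1 := ((hg.isPrimitive h0).irreducible_iff_irreducible_map_fraction_map
    (K := FractionRing ℂ[X])).1 hg
  have h2 : IsCoprime (g.map (algebraMap ℂ[X] (FractionRing ℂ[X])))
      ((derivative g).map (algebraMap ℂ[X] (FractionRing ℂ[X]))) := by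
    rw [← derivative_map]
    exact h1.separable
  have h3 := resultant_ne_zero _ _ h2
  rw [natDegree_map_eq_of_injective hi, natDegree_map_eq_of_injective hi, resultant_map_map] at h3
  obtain ⟨a, b, -, -, e⟩ := exists_mul_add_mul_eq_C_resultant g (derivative g) le_rfl le_rfl
    (Or.inl h0)
  exact ⟨_, a, b, fun h => h3 (by rw [h, map_zero]), e⟩

theorem alg_irr {f : ℂ → ℂ} (hf : AnalyticAt ℂ f 0) (q : ℂ[X][X]) (hq : q ≠ 0)
    (h : ∀ᶠ u in 𝓝 (0 : ℂ), q.evalEval u (f u) = 0) : ∃ g : ℂ[X][X], Irreducible g ∧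
      g.natDegree ≠ 0 ∧ ∀ᶠ u in 𝓝 (0 : ℂ), g.evalEval u (f u) = 0 := by
  induction q using WfDvdMonoid.induction_on_irreducible with
  | zero => exact absurd rfl hq
  | unit v hv =>
    obtain ⟨u, hu⟩ := h.exists
    exact absurd hu (hv.map (evalEvalRingHom u (f u))).ne_zero
  | mul a i ha hi ih =>
    rcases (alg_an hf i).eventually_eq_zero_or_eventually_ne_zero with h1 | h1
    · refine ⟨i, hi, fun h0 => hi.ne_zero ?_, h1⟩
      rw [eq_C_of_natDegree_eq_zero h0] at h1 ⊢
      simp only [evalEval_C] at h1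
      rw [eq_zero_of_infinite_isRoot _ (infinite_of_mem_nhds (0 : ℂ) h1), map_zero]
    · refine ih ha ((alg_an hf a).frequently_zero_iff_eventually_zero.1 (Eventually.frequently ?_))
      filter_upwards [h1, h.filter_mono nhdsWithin_le_nhds] with u h2 h3
      rw [evalEval_mul] at h3
      exact (mul_eq_zero.1 h3).resolve_left h2

theorem alg_poly {σ K : Type*} [Field K] [Algebra K ℂ] (T : MvPolynomial σ K) {V : Set ℂ}
    {y : ℂ → σ → ℂ} (hq : ∀ l, ∃ q : ℂ[X][X], q ≠ 0 ∧ ∀ u ∈ V, q.evalEval u (y u l) = 0) :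
    ∃ q : ℂ[X][X], q ≠ 0 ∧ ∀ u ∈ V, q.evalEval u (MvPolynomial.aeval (y u) T) = 0 := by
  let _ : Algebra ℂ[X] (V → ℂ) := (RingHom.pi fun u : V => evalRingHom u.1).toAlgebra
  have e : ∀ (f : V → ℂ) (q : ℂ[X][X]) (u : V), aeval f q u = q.evalEval u.1 (f u) := by
    intro f q u
    rw [← eval₂_evalRingHom, aeval_def]
    exact hom_eval₂ q _ (Pi.evalRingHom (fun _ : V => ℂ) u) f
  have k : IsAlgebraic ℂ[X] fun u : V => MvPolynomial.aeval (y u) T := by
    induction T using MvPolynomial.induction_on with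
    | C a =>
      have := isAlgebraic_algebraMap (R := ℂ[X]) (A := V → ℂ) (C (algebraMap K ℂ a))
      convert this using 1
      funext u
      change _ = eval u.1 (C _)
      simp
    | add p q hp hq' => simp only [map_add]; exact hp.add hq'
    | mul_X p l hp =>
      obtain ⟨q, q0, q1⟩ := hq l
      simp only [map_mul, MvPolynomial.aeval_X]
      exact hp.mul ⟨q, q0, funext fun u => (e _ q u).trans (q1 u u.2)⟩
  obtain ⟨q, q0, q1⟩ := k
  exact ⟨q, q0, fun u hu => (e _ q ⟨u, hu⟩).symm.trans (congrFun q1 ⟨u, hu⟩)⟩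

theorem alg_biv (q : MvPolynomial (Fin 2) ℂ) (u v : ℂ) :
    ((Bivariate.equivMvPolynomial ℂ).symm q).evalEval u v = MvPolynomial.eval ![u, v] q := by
  induction q using MvPolynomial.induction_on with
  | C a => simp
  | add p q hp hq => simp only [map_add, evalEval_add, hp, hq]
  | mul_X p l hp =>
    simp only [map_mul, evalEval_mul, hp]
    fin_cases l <;> simp [evalEval_C]

end

/-- in the domain of power series take equations of minimal degree, and Bezout over `ℂ(u)` -/
theorem alg_arc {σ K : Type*} [Fintype σ] [Field K] [Algebra K ℂ] (T : MvPolynomial σ K)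
    {y : ℂ → σ → ℂ} (hy : AnalyticAt ℂ y 0) (hq : ∀ l, ∃ q : MvPolynomial (Fin 2) ℂ, q ≠ 0 ∧
      ∀ᶠ u in 𝓝 (0 : ℂ), MvPolynomial.eval ![u, y u l] q = 0)
    (hT : MvPolynomial.aeval (y 0) T ≠ 0) :
    ∃ Z g p, AlgD Z g p ∧ ∀ᶠ u in 𝓝 (0 : ℂ), OnC T g p u (y u) := by
  classical
  have hl : ∀ l, AnalyticAt ℂ (fun u => y u l) 0 := analyticAt_pi_iff.1 hy
  have h1 : ∀ l, ∃ g : Polynomial (Polynomial ℂ), Irreducible g ∧ g.natDegree ≠ 0 ∧
      ∀ᶠ u in 𝓝 (0 : ℂ), g.evalEval u (y u l) = 0 := fun l => by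
    obtain ⟨q, q0, q1⟩ := hq l
    refine alg_irr (hl l) ((Polynomial.Bivariate.equivMvPolynomial ℂ).symm q)
      (by simpa using q0) ?_
    simpa only [alg_biv] using q1
  choose g gi g0 g1 using h1
  choose r a b r0 e using fun l => alg_bez (gi l) (g0 l)
  have g2 := eventually_all.2 g1
  obtain ⟨q, q0, q1⟩ := alg_poly T (V := {u | ∀ l, (g l).evalEval u (y u l) = 0}) (y := y)
    fun l => ⟨g l, (gi l).ne_zero, fun u hu => hu l⟩
  obtain ⟨p, p1, p2⟩ := q.exists_eq_pow_rootMultiplicity_mul_and_not_dvd q0 0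
  rw [Polynomial.dvd_iff_isRoot] at p2
  have c : ContinuousAt (fun u => MvPolynomial.aeval (y u) T) 0 := by
    simp only [MvPolynomial.aeval_def, ← MvPolynomial.eval_map]
    exact (MvPolynomial.continuous_eval _).continuousAt.comp hy.continuousAt
  have F0 : p.eval 0 * ∏ l, (r l * (g l).leadingCoeff) ≠ 0 :=
    mul_ne_zero p2 (Finset.prod_ne_zero_iff.2 fun l _ => mul_ne_zero (r0 l)
      (Polynomial.leadingCoeff_ne_zero.2 (gi l).ne_zero))
  have F1 : ∀ u ∉ (p.eval 0 * ∏ l, (r l * (g l).leadingCoeff)).roots.toFinset,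
      (p.eval 0).eval u ≠ 0 ∧ ∀ l, (r l).eval u ≠ 0 ∧ (g l).leadingCoeff.eval u ≠ 0 := by
    intro u hu
    rw [Multiset.mem_toFinset, Polynomial.mem_roots F0, Polynomial.IsRoot, Polynomial.eval_mul,
      Polynomial.eval_prod, ← ne_eq, mul_ne_zero_iff, Finset.prod_ne_zero_iff] at hu
    refine ⟨hu.1, fun l => ?_⟩
    simpa only [Polynomial.eval_mul, mul_ne_zero_iff] using hu.2 l (Finset.mem_univ l)
  refine ⟨_, g, p, ⟨fun l u hu => Polynomial.natDegree_map_of_leadingCoeff_ne_zero _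
    ((F1 u hu).2 l).2, fun l u hu x hx h0 => ((F1 u hu).2 l).1 ?_, fun u hu => ?_⟩, ?_⟩
  · have := congrArg (Polynomial.evalEval u x) (e l)
    simpa [hx, h0, Polynomial.evalEval_C] using this.symm
  · simpa [Polynomial.evalEval] using (F1 u hu).1
  · filter_upwards [g2, c.eventually_ne hT] with u h2 h3
    refine ⟨h2, ?_⟩
    have := q1 u h2
    rw [p1] at this
    simpa [h3] using this

end

end Pool.Agent.Lib.MP_5591bc_ag.A
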