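import Pool.Agent.Lib.MP_5591bc_ag.A.Set
import Pool.Agent.Lib.MP_5591bc_ag.E.Cont

/-! Branches along an arc. -/

namespace Pool.Agent.Lib.MP_5591bc_ag.A

open Matrix Filter Topology Metric G R W M E

noncomputable section

variable {σ K ν : Type*} [Fintype σ] [DecidableEq σ] [Field K] [Algebra K ℂ] [Fintype ν]
  [DecidableEq ν] {T : MvPolynomial σ K} {B : σ → Matrix ν ν (MvPolynomial σ K)} {a b b' : Bc σ ν}


theorem IsBr.an (h : IsBr T B b) (i j : ν) : AnalyticOnNhd ℂ (b.2.2 · i j) b.1 := by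
  intro u hu
  obtain ⟨-, V, Q, -, -, f, m, e⟩ := h.2.2.2 u hu
  exact (((f _ m).2 i j).1.comp (h.2.2.1 u hu)).congr (e.mono fun v hv => by
    simp only [Function.comp, hv])

theorem IsBr.det (h : IsBr T B b) {u : ℂ} (hu : u ∈ b.1) : (b.2.2 u).det ≠ 0 := by
  obtain ⟨-, V, Q, -, -, f, m, e⟩ := h.2.2.2 u hu
  rw [e.self_of_nhds]
  exact (f _ m).1

theorem IsBr.mul (h : IsBr T B b) {g : Matrix ν ν ℂ} (hg : g.det ≠ 0) : IsBr T B (mulB b g) := by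
  refine ⟨h.1, h.2.1, h.2.2.1, fun u hu => ?_⟩
  obtain ⟨t, V, Q, o, c, f, m, e⟩ := h.2.2.2 u hu
  exact ⟨t, V, fun z => Q z * g, o, c, fund_mul f hg, m, e.mono fun v hv => by
    simp only [mulB, hv]⟩

theorem Rch.br (h : Rch T B a b) (ha : IsBr T B a) : IsBr T B b := by
  induction h with
  | refl => exact ha
  | tail _ k _ => exact k.2.1

theorem Rch.symm (h : Rch T B a b) : Rch T B b a := by
  induction h with
  | refl => exact .refl
  | tail _ k ih =>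
    obtain ⟨k1, k2, u, u1, u2, e⟩ := k
    exact Relation.ReflTransGen.head ⟨k2, k1, u, u2, u1, e.mono fun v hv =>
      ⟨hv.1.symm, hv.2.symm⟩⟩ ih

theorem Rch.mul (h : Rch T B a b) {g : Matrix ν ν ℂ} (hg : g.det ≠ 0) :
    Rch T B (mulB a g) (mulB b g) := by
  induction h with
  | refl => exact .refl
  | tail _ k ih =>
    obtain ⟨k1, k2, u, u1, u2, e⟩ := k
    exact Relation.ReflTransGen.tail ih ⟨k1.mul hg, k2.mul hg, u, u1, u2, e.mono fun v hv =>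
      ⟨hv.1, by simp only [mulB, hv.2]⟩⟩

theorem br_uniq (h : IsBr T B b) (h' : IsBr T B b') (e : b.1 = b'.1)
    (e' : ∀ u ∈ b.1, b.2.1 u = b'.2.1 u) :
    ∃ g : Matrix ν ν ℂ, g.det ≠ 0 ∧ ∀ u ∈ b.1, b'.2.2 u = b.2.2 u * g := by
  rcases b.1.eq_empty_or_nonempty with h0 | ⟨u, hu⟩
  · exact ⟨1, by simp, fun u hu => by simp [h0] at hu⟩
  obtain ⟨t, V, Q, o, -, f, m, k⟩ := h.2.2.2 u hu
  obtain ⟨-, V', Q', o', -, f', m', k'⟩ := h'.2.2.2 u (e ▸ hu)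
  rw [← e' u hu] at m'
  have hg : ((Q (b.2.1 u))⁻¹ * Q' (b.2.1 u)).det ≠ 0 := by
    rw [det_mul, det_nonsing_inv, Ring.inverse_eq_inv]
    exact mul_ne_zero (inv_ne_zero (f _ m).1) (f' _ m').1
  refine ⟨_, hg, fun v hv => ?_⟩
  ext i j
  refine AnalyticOnNhd.eqOn_of_preconnected_of_eventuallyEq (e ▸ h'.an i j) ((h.mul hg).an i j)
    h.2.1 hu ?_ hv
  filter_upwards [k, k', h.1.mem_nhds hu,
    (h.2.2.1 u hu).continuousAt.eventually (fund_uniq o' o f' f m' m t)] with w w1 w2 w3 w4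
  simp only [mulB]
  rw [w2, ← e' w w3, w4, w1]

theorem bra_zero {F : Type*} [NormedAddCommGroup F] [NormedSpace ℝ F]
    {w : ℂ → (σ → ℂ) → Matrix ν ν ℂ → F} (ha : IsBr T B a)
    (hw : ∀ b, Rch T B a b → AnalyticOnNhd ℝ (fun u => w u (b.2.1 u) (b.2.2 u)) b.1) {u : ℂ}
    (hu : u ∈ a.1) (h0 : ∀ᶠ v in 𝓝 u, w v (a.2.1 v) (a.2.2 v) = 0) (h : Rch T B a b) :
    ∀ v ∈ b.1, w v (b.2.1 v) (b.2.2 v) = 0 := by
  induction h with
  | refl => exact (hw a .refl).eqOn_zero_of_preconnected_of_eventuallyEq_zero ha.2.1 hu h0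
  | tail k n ih =>
    obtain ⟨n1, n2, x, x1, x2, n3⟩ := id n
    refine (hw _ (.tail k n)).eqOn_zero_of_preconnected_of_eventuallyEq_zero n2.2.1 x2 ?_
    filter_upwards [n3, n1.1.mem_nhds x1] with v v1 v2
    rw [← v1.1, ← v1.2]
    exact ih v v2

theorem bra_ev {f : ℂ → ℂ} {u : ℂ} (hf : AnalyticAt ℂ f u) (p : Polynomial (Polynomial ℂ)) :
    AnalyticAt ℂ (fun v => p.evalEval v (f v)) u := by
  induction p using Polynomial.induction_on' with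
  | add p q hp hq =>
    simp only [Polynomial.evalEval_add]
    exact hp.add hq
  | monomial n c =>
    simp only [Polynomial.evalEval, Polynomial.eval_monomial, Polynomial.eval_mul,
      Polynomial.eval_pow, Polynomial.eval_C]
    exact (AnalyticOnNhd.eval_polynomial c u trivial).mul (hf.pow n)

theorem bra_cont {U : Set (σ → ℂ)} {P : (σ → ℂ) → Matrix ν ν ℂ} (h : IsBr T B b) {u v : ℂ}
    (hu : u ∈ b.1) (k : ∃ V' Q', ContM U P V' Q' ∧ IsOpen V' ∧ FundM T B V' Q' ∧ b.2.1 u ∈ V' ∧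
      b.2.2 u = Q' (b.2.1 u)) (hv : v ∈ b.1) : ∃ V' Q', ContM U P V' Q' ∧
      IsOpen V' ∧ FundM T B V' Q' ∧ b.2.1 v ∈ V' ∧ b.2.2 v = Q' (b.2.1 v) := by
  let S : ℂ → Prop := fun v => ∃ V' Q', ContM U P V' Q' ∧
    IsOpen V' ∧ FundM T B V' Q' ∧ b.2.1 v ∈ V' ∧ b.2.2 v = Q' (b.2.1 v)
  refine h.2.1.induction₂' (fun x y => S x → S y) (fun x hx => ?_)
    (fun _ _ _ _ _ _ p q r => q (p r)) hu hv k
  obtain ⟨-, V, Q, o, c, f, m, e⟩ := h.2.2.2 x hx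
  have key : ∀ y ∈ b.1, b.2.1 y ∈ V → b.2.2 y = Q (b.2.1 y) → S y → ContM U P V Q := by
    rintro y y1 y2 y3 ⟨V', Q', k', o', f', m', e'⟩
    refine .step V' V Q' Q _ k' o c (fun i j t ht => ((f t ht).2 i j).1) m' y2 ?_
    filter_upwards [fund_uniq o' o f' f m' y2 (h.2.2.2 y y1).1] with z hz
    rw [hz, ← e', y3, nonsing_inv_mul _ (f _ y2).1.isUnit, Matrix.mul_one]
  refine mem_nhdsWithin_of_mem_nhds ?_
  filter_upwards [e, h.1.mem_nhds hx, (h.2.2.1 x hx).continuousAt.eventually (o.mem_nhds m)]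
    with y y1 y2 y3
  exact ⟨fun s => ⟨V, Q, key x hx m e.self_of_nhds s, o, f, y3, y1⟩,
    fun s => ⟨V, Q, key y y2 y3 y1 s, o, f, m, e.self_of_nhds⟩⟩

theorem rch_zero {w : ℂ → (σ → ℂ) → Matrix ν ν ℂ → ℝ} (ha : IsBr T B a)
    (hw : ∀ b, Rch T B a b → AnalyticOnNhd ℝ (fun u => w u (b.2.1 u) (b.2.2 u)) b.1) {u : ℂ}
    (hu : u ∈ a.1) (h0 : ∀ᶠ v in 𝓝 u, w v (a.2.1 v) (a.2.2 v) = 0) (h : Rch T B a b) :
    ∀ v ∈ b.1, w v (b.2.1 v) (b.2.2 v) = 0 := by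
  exact bra_zero ha hw hu h0 h

theorem rch_pol (H : MvPolynomial (Option σ ⊕ ν × ν) ℂ) (ha : IsBr T B a) {u : ℂ} (hu : u ∈ a.1)
    (h0 : ∀ᶠ v in 𝓝 u, MvPolynomial.eval (Sum.elim (fun o => o.elim v (a.2.1 v))
      fun p => a.2.2 v p.1 p.2) H = 0) (h : Rch T B a b) :
    ∀ v ∈ b.1, MvPolynomial.eval (Sum.elim (fun o => o.elim v (b.2.1 v))
      fun p => b.2.2 v p.1 p.2) H = 0 := by
  refine bra_zero (w := fun v y Y => MvPolynomial.eval (Sum.elim (fun o : Option σ => o.elim v y)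
    fun p : ν × ν => Y p.1 p.2) H) ha (fun c hc v hv => ?_) hu h0 h
  have k := hc.br ha
  have := AnalyticAt.aeval_mvPolynomial (𝕜 := ℂ) (z := v) (f := fun v => Sum.elim
    (fun o : Option σ => o.elim v (c.2.1 v)) fun p : ν × ν => c.2.2 v p.1 p.2) (fun i => ?_) H
  · simp only [MvPolynomial.aeval_eq_eval] at this
    exact this.restrictScalars
  · rcases i with (_ | l) | p
    · exact analyticAt_id
    · exact analyticAt_pi_iff.1 (k.2.2.1 v hv) l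
    · exact k.an p.1 p.2 v hv

theorem rch_on {g : σ → Polynomial (Polynomial ℂ)} {p : Polynomial (Polynomial ℂ)}
    (ha : IsBr T B a) {u : ℂ} (hu : u ∈ a.1) (h0 : ∀ᶠ v in 𝓝 u, OnC T g p v (a.2.1 v))
    (h : Rch T B a b) : ∀ v ∈ b.1, OnC T g p v (b.2.1 v) := by
  intro v hv
  refine ⟨fun l => bra_zero (w := fun v y _ => (g l).evalEval v (y l)) ha (fun c hc v hv => ?_) hu
    (h0.mono fun v hv => hv.1 l) h v hv, bra_zero
      (w := fun v y _ => p.evalEval v (MvPolynomial.aeval y T)) ha (fun c hc v hv => ?_) hu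
    (h0.mono fun v hv => hv.2) h v hv⟩
  · exact (bra_ev (analyticAt_pi_iff.1 ((hc.br ha).2.2.1 v hv) l) _).restrictScalars
  · exact (bra_ev ((aeval_ana T).comp ((hc.br ha).2.2.1 v hv)) _).restrictScalars

/-- the property is locally constant on the domain of a branch, by `fund_uniq` -/
theorem rch_cont {U V : Set (σ → ℂ)} {P Q : (σ → ℂ) → Matrix ν ν ℂ} (ha : IsBr T B a) {u : ℂ}
    (hu : u ∈ a.1) (k : ContM U P V Q) (ho : IsOpen V) (hQ : FundM T B V Q) (hV : a.2.1 u ∈ V)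
    (e : a.2.2 u = Q (a.2.1 u)) (h : Rch T B a b) : ∀ v ∈ b.1, ∃ V' Q', ContM U P V' Q' ∧
      IsOpen V' ∧ FundM T B V' Q' ∧ b.2.1 v ∈ V' ∧ b.2.2 v = Q' (b.2.1 v) := by
  induction h with
  | refl => exact fun v hv => bra_cont ha hu ⟨V, Q, k, ho, hQ, hV, e⟩ hv
  | tail _ n ih =>
    obtain ⟨-, n2, w, w1, w2, n3⟩ := n
    have := ih w w1
    rw [n3.self_of_nhds.1, n3.self_of_nhds.2] at this
    exact fun v hv => bra_cont n2 w2 this hv

end

end Pool.Agent.Lib.MP_5591bc_ag.A
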