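import Pool.Agent.Lib.MP_5591bc_ag.A.BrA
import Pool.Agent.Lib.MP_5591bc_ag.J.Roots
import Pool.Agent.Lib.MP_5591bc_ag.J.Cont

/-! Continuation of a branch over a disc. -/

namespace Pool.Agent.Lib.MP_5591bc_ag.A

open Matrix Filter Topology Metric G R W M E

noncomputable section

variable {σ K ν : Type*} [Fintype σ] [DecidableEq σ] [Field K] [Algebra K ℂ] [Fintype ν]
  [DecidableEq ν] {T : MvPolynomial σ K} {B : σ → Matrix ν ν (MvPolynomial σ K)} {a b b' : Bc σ ν}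


variable {Z : Finset ℂ} {g : σ → Polynomial (Polynomial ℂ)} {p : Polynomial (Polynomial ℂ)}

theorem brb_sol {A : ℂ → Matrix ν ν ℂ} {R : ℝ} (R0 : 0 < R) (hA : Hol (ball 0 R) A)
    (M : Matrix ν ν ℂ) : ∃ Y : ℂ → Matrix ν ν ℂ, Y 0 = M ∧ ∀ u ∈ ball (0 : ℂ) R, MSol A Y u := by
  have r0 : ∀ u : ℂ, 0 < (‖u‖ + R) / 2 := fun u => by positivity
  have r1 : ∀ u ∈ ball (0 : ℂ) R, (‖u‖ + R) / 2 < R ∧ ‖u‖ < (‖u‖ + R) / 2 := fun u hu => by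
    rw [mem_ball_zero_iff] at hu
    constructor <;> linarith
  choose! Y Y0 Y1 using fun u (hu : u ∈ ball (0 : ℂ) R) => J.cont_sol (r0 u) (r1 u hu).1 hA M
  refine ⟨fun u => Y u u, Y0 0 (mem_ball_self R0), fun u hu =>
    (Y1 u hu u (mem_ball_zero_iff.2 (r1 u hu).2)).congr ?_⟩
  filter_upwards [isOpen_ball.mem_nhds hu, isOpen_ball.mem_nhds (mem_ball_zero_iff.2 (r1 u hu).2)]
    with v hv h2
  exact muniq (S := ball 0 ((‖v‖ + R) / 2) ∩ ball 0 ((‖u‖ + R) / 2)) (isOpen_ball.inter isOpen_ball)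
    ((convex_ball _ _).inter (convex_ball _ _)).isPreconnected
    (fun i j => (hA i j).mono fun t ht => ball_subset_ball (r1 u hu).1.le ht.2)
    (fun t ht => Y1 v hv t ht.1) (fun t ht => Y1 u hu t ht.2)
    ⟨mem_ball_self (r0 v), mem_ball_self (r0 u)⟩ ((Y0 v hv).trans (Y0 u hu).symm)
    ⟨mem_ball_zero_iff.2 (r1 v hv).2, h2⟩

theorem brb_ev {φ f : ℂ → ℂ} {u : ℂ} (hφ : AnalyticAt ℂ φ u) (hf : AnalyticAt ℂ f u)
    (p : Polynomial (Polynomial ℂ)) : AnalyticAt ℂ (fun v => p.evalEval (φ v) (f v)) u := by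
  induction p using Polynomial.induction_on' with
  | add p q hp hq =>
    simp only [Polynomial.evalEval_add]
    exact hp.add hq
  | monomial n c =>
    simp only [Polynomial.evalEval, Polynomial.eval_monomial, Polynomial.eval_mul,
      Polynomial.eval_pow, Polynomial.eval_C]
    exact ((AnalyticOnNhd.eval_polynomial c _ trivial).comp hφ).mul (hf.pow n)

theorem brb_root {q : Polynomial (Polynomial ℂ)} {φ f : ℂ → ℂ} {R : ℝ}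
    (hφ : AnalyticOnNhd ℂ φ (ball 0 R)) (hn : ∀ ζ ∈ ball (0 : ℂ) R,
      (q.map (Polynomial.evalRingHom (φ ζ))).natDegree = q.natDegree)
    (hs : ∀ ζ ∈ ball (0 : ℂ) R, ∀ a, q.evalEval (φ ζ) a = 0 →
      (Polynomial.derivative q).evalEval (φ ζ) a ≠ 0) {ζ₀ : ℂ} (h2 : ζ₀ ∈ ball (0 : ℂ) R)
    (hf : ContinuousAt f ζ₀) (h0 : ∀ᶠ ζ in 𝓝 ζ₀, q.evalEval (φ ζ) (f ζ) = 0) :
    ∃ y : ℂ → ℂ, AnalyticOnNhd ℂ y (ball 0 R) ∧ ∀ᶠ ζ in 𝓝 ζ₀, y ζ = f ζ := by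
  have hs' : ∀ ζ ∈ ball (0 : ℂ) R, ∀ a, (q.map (Polynomial.evalRingHom (φ ζ))).eval a = 0 →
      (q.map (Polynomial.evalRingHom (φ ζ))).derivative.eval a ≠ 0 := fun ζ hζ a ha => by
    rw [Polynomial.derivative_map, Polynomial.map_evalRingHom_eval]
    exact hs ζ hζ a (by rwa [Polynomial.map_evalRingHom_eval] at ha)
  obtain ⟨r, r1, r2⟩ := J.rootsE (g := fun ζ => q.map (Polynomial.evalRingHom (φ ζ))) (R := R)
    (fun i ζ hζ => by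
      simp only [Polynomial.coeff_map, Polynomial.coe_evalRingHom]
      exact (AnalyticOnNhd.eval_polynomial _ _ trivial).comp (hφ ζ hζ)) hn hs'
  have e : ∀ᶠ ζ in 𝓝 ζ₀, ∃ j, r j ζ = f ζ := by
    filter_upwards [h0, isOpen_ball.mem_nhds h2] with ζ a1 a2
    rw [← Polynomial.map_evalRingHom_eval] at a1
    have a3 := hs' ζ a2 _ a1
    rw [(r2 ζ a2).2, Polynomial.eval_mul, Polynomial.eval_C, Polynomial.eval_prod, mul_eq_zero,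
      Polynomial.leadingCoeff_eq_zero, Finset.prod_eq_zero_iff] at a1
    rcases a1 with a1 | ⟨j, -, a1⟩
    · simp [a1] at a3
    · exact ⟨j, (sub_eq_zero.1 (by simpa using a1)).symm⟩
  obtain ⟨j, hj⟩ := e.self_of_nhds
  refine ⟨r j, r1 j, ?_⟩
  have e2 : ∀ᶠ ζ in 𝓝 ζ₀, ∀ k, k ≠ j → r k ζ - f ζ ≠ 0 := eventually_all.2 fun k => by
    by_cases hk : k = j
    · exact .of_forall fun _ h => (h hk).elim
    · exact (((r1 k _ h2).continuousAt.sub hf).eventually_ne (sub_ne_zero.2 fun c =>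
        hk ((r2 _ h2).1 (c.trans hj.symm)))).mono fun _ h _ => h
  filter_upwards [e, e2] with ζ ⟨k, a1⟩ a2
  by_contra c
  exact a2 k (fun h => c (h ▸ a1)) (sub_eq_zero.2 a1)

theorem brb_mat (loc : Loc T B) {y : ℂ → σ → ℂ} {R : ℝ} (hy : AnalyticOnNhd ℂ y (ball 0 R))
    (hT : ∀ ζ ∈ ball (0 : ℂ) R, MvPolynomial.aeval (y ζ) T ≠ 0) {ζ₀ : ℂ}
    (h2 : ζ₀ ∈ ball (0 : ℂ) R) {V : Set (σ → ℂ)} {Q : (σ → ℂ) → Matrix ν ν ℂ} (ho : IsOpen V)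
    (hQ : FundM T B V Q) (hV : y ζ₀ ∈ V) : ∃ Y : ℂ → Matrix ν ν ℂ,
      (∀ᶠ ζ in 𝓝 ζ₀, Y ζ = Q (y ζ)) ∧ ∀ ζ ∈ ball (0 : ℂ) R, ∃ V' Q', IsOpen V' ∧
        FundM T B V' Q' ∧ y ζ ∈ V' ∧ ∀ᶠ ζ' in 𝓝 ζ, Y ζ' = Q' (y ζ') := by
  have R0 := pos_of_mem_ball h2
  obtain ⟨V0, P, o0, m0, f0⟩ := loc _ (hT 0 (mem_ball_self R0))
  obtain ⟨Y, Y0, Y1⟩ := brb_sol R0 (apb_hol (B := B) isOpen_ball hy.differentiableOn hT) (P (y 0))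
  have c : ∀ ζ ∈ ball (0 : ℂ) R, ∃ V' Q', IsOpen V' ∧ FundM T B V' Q' ∧ y ζ ∈ V' ∧
      ∀ᶠ ζ' in 𝓝 ζ, Y ζ' = Q' (y ζ') := fun ζ hζ => by
    obtain ⟨V', G, g1, g2, g3, g4⟩ := (cont (Θ := ℝ) (Φ := fun _ => y) (Y := fun _ => Y) loc o0 f0
      isOpen_univ (fun _ _ => hy.differentiableOn)
      (hy.continuousOn.comp continuous_snd.continuousOn fun p hp => hp.2) (fun _ _ => hT)
      (fun _ _ => m0) fun _ _ => ⟨Y0, Y1⟩).1 0 trivial ζ hζ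
    have c : ContinuousAt (fun η : ℂ => ((0 : ℝ), η)) ζ := by fun_prop
    exact ⟨V', G, g1, g2, g3, c.eventually g4⟩
  obtain ⟨V1, G, g1, g2, g3, g4⟩ := c ζ₀ h2
  have hγ : ((G (y ζ₀))⁻¹ * Q (y ζ₀)).det ≠ 0 := by
    rw [det_mul, det_nonsing_inv, Ring.inverse_eq_inv]
    exact mul_ne_zero (inv_ne_zero (g2 _ g3).1) (hQ _ hV).1
  refine ⟨fun ζ => Y ζ * ((G (y ζ₀))⁻¹ * Q (y ζ₀)), ?_, fun ζ hζ => ?_⟩
  · filter_upwards [g4, (hy _ h2).continuousAt.eventually (fund_uniq ho g1 hQ g2 hV g3 (hT _ h2))]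
      with ζ a1 a2
    rw [a1, a2]
  · obtain ⟨V', Q', a1, a2, a3, a4⟩ := c ζ hζ
    exact ⟨V', _, a1, fund_mul a2 hγ, a3, a4.mono fun _ h => by simp only [h]⟩

theorem brb_loc {φ : ℂ → ℂ} {y : ℂ → σ → ℂ} {Y : ℂ → Matrix ν ν ℂ} {x : ℂ}
    (hφ : AnalyticAt ℂ φ x) (h1 : deriv φ x ≠ 0) (hy : AnalyticAt ℂ y x)
    (hT : MvPolynomial.aeval (y x) T ≠ 0) {V : Set (σ → ℂ)} {Q : (σ → ℂ) → Matrix ν ν ℂ}
    (ho : IsOpen V) (hQ : FundM T B V Q) (hV : y x ∈ V) (e : ∀ᶠ ζ in 𝓝 x, Y ζ = Q (y ζ)) :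
    ∃ c, IsBr T B c ∧ φ x ∈ c.1 ∧ ∀ᶠ ζ in 𝓝 x, y ζ = c.2.1 (φ ζ) ∧ Y ζ = c.2.2 (φ ζ) := by
  have a1 := hφ.analyticAt_localInverse h1
  have a2 := hφ.hasStrictDerivAt.eventually_left_inverse h1
  generalize hφ.hasStrictDerivAt.localInverse _ _ _ h1 = ψ at a1 a2
  have t : Tendsto ψ (𝓝 (φ x)) (𝓝 x) := by
    have := a1.continuousAt.tendsto
    rwa [a2.self_of_nhds] at this
  obtain ⟨δ, δ0, hδ⟩ := Metric.isOpen_iff.1 ho _ hV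
  obtain ⟨ε, ε0, hε⟩ := Metric.eventually_nhds_iff_ball.1 ((a1.eventually_analyticAt.and
    (t.eventually e).eventually_nhds).and (t.eventually (hy.eventually_analyticAt.and
      (hy.continuousAt.eventually (((aeval_ana T).continuousAt.eventually_ne hT).and
        (ball_mem_nhds _ δ0))))))
  refine ⟨(ball (φ x) ε, fun u => y (ψ u), fun u => Y (ψ u)), ⟨isOpen_ball,
    (convex_ball _ _).isPreconnected, fun u hu => (hε u hu).2.1.comp (hε u hu).1.1, fun u hu =>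
      ⟨(hε u hu).2.2.1, _, Q, isOpen_ball, (convex_ball _ _).isPreconnected,
        fun t ht => hQ t (hδ ht), (hε u hu).2.2.2, (hε u hu).1.2⟩⟩, mem_ball_self ε0,
    a2.mono fun ζ h => ?_⟩
  simp only [h, and_self]

/-- roots by `J.rootsE`, the matrix by `J.cont_sol`, local inverses of `φ`, a clopen argument -/
theorem br_ext (loc : Loc T B) (hA : AlgD Z g p) (h : IsBr T B b)
    (hb : ∀ u ∈ b.1, OnC T g p u (b.2.1 u)) {φ : ℂ → ℂ} {R : ℝ}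
    (hφ : AnalyticOnNhd ℂ φ (ball 0 R)) (h1 : ∀ ζ ∈ ball (0 : ℂ) R, deriv φ ζ ≠ 0 ∧ φ ζ ∉ Z)
    {ζ₀ : ℂ} (h2 : ζ₀ ∈ ball (0 : ℂ) R) (h3 : φ ζ₀ ∈ b.1) :
    ∃ (y : ℂ → σ → ℂ) (Y : ℂ → Matrix ν ν ℂ), AnalyticOnNhd ℂ y (ball 0 R) ∧
      (∀ i j, AnalyticOnNhd ℂ (Y · i j) (ball 0 R)) ∧
      (∀ᶠ ζ in 𝓝 ζ₀, y ζ = b.2.1 (φ ζ) ∧ Y ζ = b.2.2 (φ ζ)) ∧
      ∀ ζ ∈ ball (0 : ℂ) R, ∃ b', Rch T B b b' ∧ φ ζ ∈ b'.1 ∧
        ∀ᶠ ζ' in 𝓝 ζ, y ζ' = b'.2.1 (φ ζ') ∧ Y ζ' = b'.2.2 (φ ζ') := by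
  have c0 := (hφ _ h2).continuousAt
  have n0 := c0.eventually (h.1.mem_nhds h3)
  have ex := fun l => brb_root (f := fun ζ => b.2.1 (φ ζ) l) hφ
    (fun ζ hζ => hA.deg l _ (h1 ζ hζ).2) (fun ζ hζ => hA.sep l _ (h1 ζ hζ).2) h2
    (continuousAt_pi.1 ((h.2.2.1 _ h3).continuousAt.comp c0) l) (n0.mono fun ζ hζ => (hb _ hζ).1 l)
  choose y0 y1 y2 using ex
  obtain ⟨y, hy, e⟩ : ∃ y : ℂ → σ → ℂ, AnalyticOnNhd ℂ y (ball 0 R) ∧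
      ∀ᶠ ζ in 𝓝 ζ₀, y ζ = b.2.1 (φ ζ) := ⟨fun ζ l => y0 l ζ, fun ζ hζ =>
    analyticAt_pi_iff.2 fun l => y1 l ζ hζ, (eventually_all.2 y2).mono fun ζ h => funext h⟩
  have hT : ∀ ζ ∈ ball (0 : ℂ) R, MvPolynomial.aeval (y ζ) T ≠ 0 := fun ζ hζ c => by
    have := AnalyticOnNhd.eqOn_zero_of_preconnected_of_eventuallyEq_zero
      (f := fun ζ => p.evalEval (φ ζ) (MvPolynomial.aeval (y ζ) T))
      (fun ζ hζ => brb_ev (hφ ζ hζ) ((aeval_ana T).comp (hy ζ hζ)) p)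
      (convex_ball _ _).isPreconnected h2 (by
        filter_upwards [e, n0] with v a1 a2
        rw [a1]
        exact (hb _ a2).2) hζ
    exact hA.nz _ (h1 ζ hζ).2 (by simpa only [c, Pi.zero_apply] using this)
  obtain ⟨-, V, Q, o, -, f, m, k⟩ := h.2.2.2 _ h3
  obtain ⟨Y, Y0, Y1⟩ := brb_mat loc hy hT h2 o f (e.self_of_nhds ▸ m)
  have e' : ∀ᶠ ζ in 𝓝 ζ₀, y ζ = b.2.1 (φ ζ) ∧ Y ζ = b.2.2 (φ ζ) := by
    filter_upwards [e, Y0, c0.eventually k] with ζ a1 a2 a3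
    exact ⟨a1, by rw [a2, a3, a1]⟩
  refine ⟨y, Y, hy, fun i j ζ hζ => ?_, e', fun ζ hζ => ?_⟩
  · obtain ⟨V', Q', -, a2, a3, a4⟩ := Y1 ζ hζ
    exact (((a2 _ a3).2 i j).1.comp (hy ζ hζ)).congr (a4.mono fun v hv => by
      simp only [Function.comp, hv])
  let S : ℂ → Prop := fun ζ => ∃ b', Rch T B b b' ∧ φ ζ ∈ b'.1 ∧
    ∀ᶠ ζ' in 𝓝 ζ, y ζ' = b'.2.1 (φ ζ') ∧ Y ζ' = b'.2.2 (φ ζ')
  refine (convex_ball (0 : ℂ) R).isPreconnected.induction₂' (fun x w => S x → S w) (fun x hx => ?_)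
    (fun _ _ _ _ _ _ p q r => q (p r)) h2 hζ ⟨b, .refl, h3, e'⟩
  obtain ⟨V', Q', a1, a2, a3, a4⟩ := Y1 x hx
  obtain ⟨c, c1, c2, c3⟩ := brb_loc (hφ x hx) (h1 x hx).1 (hy x hx) (hT x hx) a1 a2 a3 a4
  have key : ∀ w ∈ ball (0 : ℂ) R, φ w ∈ c.1 →
      (∀ᶠ ζ in 𝓝 w, y ζ = c.2.1 (φ ζ) ∧ Y ζ = c.2.2 (φ ζ)) → S w → Rch T B b c := by
    rintro w w1 w2 w3 ⟨b', r, m', e⟩
    refine .tail r ⟨r.br h, c1, φ w, m', w2, ?_⟩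
    rw [← (hφ w w1).hasStrictDerivAt.map_nhds_eq (h1 w w1).1, eventually_map]
    filter_upwards [w3, e] with v v1 v2
    exact ⟨v2.1.symm.trans v1.1, v2.2.symm.trans v1.2⟩
  refine mem_nhdsWithin_of_mem_nhds ?_
  filter_upwards [c3.eventually_nhds, isOpen_ball.mem_nhds hx,
    (hφ x hx).continuousAt.eventually (c1.1.mem_nhds c2)] with w w1 w2 w3
  exact ⟨fun s => ⟨c, key x hx c2 c3 s, w3, w1⟩, fun s => ⟨c, key w w2 w3 w1 s, c2, c3⟩⟩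

end

end Pool.Agent.Lib.MP_5591bc_ag.A
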