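import Pool.Agent.Lib.MP_5591bc_ag.A.BrB

/-! Branches over a disc. -/

namespace Pool.Agent.Lib.MP_5591bc_ag.A

open Matrix Filter Topology Metric G R W M E

noncomputable section

variable {σ K ν : Type*} [Fintype σ] [DecidableEq σ] [Field K] [Algebra K ℂ] [Fintype ν]
  [DecidableEq ν] {T : MvPolynomial σ K} {B : σ → Matrix ν ν (MvPolynomial σ K)} {a b b' : Bc σ ν}


variable {Z : Finset ℂ} {g : σ → Polynomial (Polynomial ℂ)} {p : Polynomial (Polynomial ℂ)}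

theorem br_disc (loc : Loc T B) (hA : AlgD Z g p) (h : IsBr T B b)
    (hb : ∀ u ∈ b.1, OnC T g p u (b.2.1 u)) {c : ℂ} {R : ℝ} (h1 : ∀ u ∈ ball c R, u ∉ Z) {u : ℂ}
    (h2 : u ∈ ball c R) (h3 : u ∈ b.1) : ∃ b', Rch T B b b' ∧ b'.1 = ball c R ∧
      b'.2.1 u = b.2.1 u ∧ b'.2.2 u = b.2.2 u := by
  have k : ∀ v : ℂ, Tendsto (fun w => w - c) (𝓝 v) (𝓝 (v - c)) := fun v =>
    (continuous_sub_right c).tendsto v
  have m : ∀ v ∈ ball c R, v - c ∈ ball (0 : ℂ) R := fun v hv => by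
    rwa [mem_ball_zero_iff, ← dist_eq_norm, ← mem_ball]
  obtain ⟨y, Y, hy, hY, e, hr⟩ := br_ext (φ := fun ζ => c + ζ) (R := R) loc hA h hb
    (fun ζ _ => analyticAt_const.add analyticAt_id)
    (fun ζ hζ => ⟨by rw [deriv_const_add, deriv_id'']; exact one_ne_zero,
      h1 _ (by rwa [mem_ball, dist_self_add_left, ← mem_ball_zero_iff])⟩) (m u h2)
    (by rwa [add_sub_cancel])
  have e' : ∀ᶠ v in 𝓝 u, b.2.1 v = y (v - c) ∧ b.2.2 v = Y (v - c) := by
    filter_upwards [(k u).eventually e] with v hv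
    rw [add_sub_cancel] at hv
    exact ⟨hv.1.symm, hv.2.symm⟩
  have br : IsBr T B (ball c R, fun v => y (v - c), fun v => Y (v - c)) := by
    refine ⟨isOpen_ball, (convex_ball c R).isPreconnected, fun v hv =>
      (hy _ (m v hv)).comp (f := fun w => w - c) (analyticAt_id.sub analyticAt_const),
      fun v hv => ?_⟩
    obtain ⟨b₁, r₁, m₁, e₁⟩ := hr _ (m v hv)
    rw [add_sub_cancel] at m₁
    obtain ⟨t, V, Q, oV, cV, hQ, hV, e₂⟩ := (r₁.br h).2.2.2 v m₁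
    have e₃ := e₁.self_of_nhds.1
    rw [add_sub_cancel] at e₃
    refine ⟨by rw [← e₃] at t; exact t, V, Q, oV, cV, hQ, by rw [← e₃] at hV; exact hV, ?_⟩
    filter_upwards [(k v).eventually e₁, e₂] with w h₁ h₂
    rw [add_sub_cancel] at h₁
    exact h₁.2.trans (h₂.trans (congrArg Q h₁.1.symm))
  exact ⟨_, Relation.ReflTransGen.single ⟨h, br, u, h3, h2, e'⟩, rfl, e'.self_of_nhds.1.symm,
    e'.self_of_nhds.2.symm⟩

theorem br_fin (hA : AlgD Z g p) {c : ℂ} {R : ℝ} (h1 : ∀ u ∈ ball c R, u ∉ Z) :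
    ∃ 𝒴 : Set (ℂ → σ → ℂ), 𝒴.Finite ∧ ∀ y, AnalyticOnNhd ℂ y (ball c R) →
      (∀ u ∈ ball c R, OnC T g p u (y u)) → ∃ y' ∈ 𝒴, ∀ u ∈ ball c R, y u = y' u := by
  rcases le_or_gt R 0 with R0 | R0
  · exact ⟨{0}, Set.finite_singleton _, fun y _ _ => ⟨0, rfl, fun u hu =>
      absurd hu (by rw [ball_eq_empty.2 R0]; exact Set.notMem_empty u)⟩⟩
  have m : ∀ v ∈ ball c R, v - c ∈ ball (0 : ℂ) R := fun v hv => by
    rwa [mem_ball_zero_iff, ← dist_eq_norm, ← mem_ball]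
  have m' : ∀ ζ ∈ ball (0 : ℂ) R, c + ζ ∈ ball c R := fun ζ hζ => by
    rwa [mem_ball, dist_self_add_left, ← mem_ball_zero_iff]
  have sep : ∀ l, ∀ ζ ∈ ball (0 : ℂ) R, ∀ a, ((g l).map (Polynomial.evalRingHom (c + ζ))).eval a = 0 →
      ((g l).map (Polynomial.evalRingHom (c + ζ))).derivative.eval a ≠ 0 := fun l ζ hζ a ha => by
    rw [Polynomial.derivative_map, Polynomial.map_evalRingHom_eval]
    rw [Polynomial.map_evalRingHom_eval] at ha
    exact hA.sep l _ (h1 _ (m' ζ hζ)) a ha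
  choose r hr er using fun l => J.rootsE (E := ℂ) (R := R) (n := (g l).natDegree)
    (g := fun ζ => (g l).map (Polynomial.evalRingHom (c + ζ)))
    (fun i ζ _ => by
      simp only [Polynomial.coeff_map, Polynomial.coe_evalRingHom]
      exact (AnalyticOnNhd.eval_polynomial ((g l).coeff i) (c + ζ) trivial).comp
        (f := fun ζ => c + ζ) (analyticAt_const.add analyticAt_id))
    (fun ζ hζ => hA.deg l _ (h1 _ (m' ζ hζ))) (sep l)
  refine ⟨Set.range fun (s : ∀ l, Fin (g l).natDegree) u l => r l (s l) (u - c),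
    Set.finite_range _, fun y hy ho => ?_⟩
  choose s hs using fun l => J.roots_pick (E := ℂ) (f := fun ζ => y (c + ζ) l) R0 (hr l)
    (fun ζ hζ => (analyticAt_pi_iff.1 (hy _ (m' ζ hζ)) l).comp (f := fun ζ => c + ζ)
      (analyticAt_const.add analyticAt_id))
    (fun ζ hζ => by
      have z := (ho _ (m' ζ hζ)).1 l
      rw [← Polynomial.map_evalRingHom_eval] at z
      have n0 : (g l).map (Polynomial.evalRingHom (c + ζ)) ≠ 0 := fun e =>
        sep l ζ hζ _ z (by rw [e, Polynomial.derivative_zero, Polynomial.eval_zero])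
      rw [(er l ζ hζ).2, Polynomial.eval_mul, Polynomial.eval_C, Polynomial.eval_prod] at z
      obtain ⟨j, -, hj⟩ := Finset.prod_eq_zero_iff.1
        ((mul_eq_zero.1 z).resolve_left (Polynomial.leadingCoeff_ne_zero.2 n0))
      rw [Polynomial.eval_sub, Polynomial.eval_X, Polynomial.eval_C, sub_eq_zero] at hj
      exact ⟨j, hj⟩)
  refine ⟨_, ⟨s, rfl⟩, fun u hu => funext fun l => ?_⟩
  have := hs l _ (m u hu)
  rwa [add_sub_cancel] at this

theorem br_all (loc : Loc T B) (hA : AlgD Z g p) (h : IsBr T B a) (h0 : a.1.Nonempty)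
    (hb : ∀ u ∈ a.1, OnC T g p u (a.2.1 u)) : ∀ u ∉ Z, ∃ b, Rch T B a b ∧ u ∈ b.1 := by
  have cz : (Z : Set ℂ).Countable := Z.countable_toSet
  have o : IsOpen {u | ∃ b, Rch T B a b ∧ u ∈ b.1} := isOpen_iff_mem_nhds.2 fun u ⟨b, r, m⟩ =>
    mem_of_superset ((r.br h).1.mem_nhds m) fun v hv => ⟨b, r, hv⟩
  obtain ⟨u₀, m₀⟩ := h0
  refine (cz.isConnected_compl_of_one_lt_rank (by
    rw [Complex.rank_real_complex]; exact Nat.one_lt_ofNat)).isPreconnected.subset_of_closure_inter_subset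
      o ?_ fun x ⟨hx, xz⟩ => ?_
  · obtain ⟨v, h₁, h₂⟩ := (cz.dense_compl ℂ).inter_open_nonempty _ h.1 ⟨u₀, m₀⟩
    exact ⟨v, h₂, a, Relation.ReflTransGen.refl, h₁⟩
  · obtain ⟨R, R0, hR⟩ := Metric.isOpen_iff.1 Z.finite_toSet.isClosed.isOpen_compl x xz
    obtain ⟨v, h₁, b, r, m⟩ := mem_closure_iff.1 hx _ isOpen_ball (mem_ball_self R0)
    obtain ⟨b', r', e, -⟩ := br_disc loc hA (r.br h)
      (rch_on h m₀ (mem_of_superset (h.1.mem_nhds m₀) hb) r) (fun u hu => hR hu) h₁ m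
    exact ⟨b', r.trans r', e ▸ mem_ball_self R0⟩

end

end Pool.Agent.Lib.MP_5591bc_ag.A
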