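import Pool.Agent.Lib.MP_5591bc_ag.A.BrC
import Pool.Agent.Lib.MP_5591bc_ag.A.Alg
import Pool.Agent.Lib.MP_5591bc_ag.E.Loc

/-! The family of branches along an algebraic arc. -/

namespace Pool.Agent.Lib.MP_5591bc_ag.A

open Matrix Filter Topology Metric G R W M E

noncomputable section

theorem brd_cont {σ K ν : Type} [Fintype σ] [Field K] [Algebra K ℂ] [Fintype ν]
    {T : MvPolynomial σ K} {U V : Set (σ → ℂ)} {P Q : (σ → ℂ) → Matrix ν ν ℂ} (ho : IsOpen U)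
    {J : Matrix ν ν ℂ} {N : ℕ} {Λ : Matrix ν ν (MvPolynomial σ ℂ)}
    (h : ∀ t ∈ U, MvPolynomial.aeval t T ^ N • (P t * J * (P t)ᵀ) = Λ.map (MvPolynomial.eval t))
    (k : ContM U P V Q) : IsOpen V ∧
      ∀ t ∈ V, MvPolynomial.aeval t T ^ N • (Q t * J * (Q t)ᵀ) = Λ.map (MvPolynomial.eval t) := by
  induction k with
  | base => exact ⟨ho, h⟩
  | step U1 U2 P1 P2 s' _ o2 c2 d2 s1 s2 e ih =>
    refine ⟨o2, fun t ht => ?_⟩
    have co : ∀ l (t : σ → ℂ), AnalyticAt ℂ (fun z : σ → ℂ => z l) t := fun l t =>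
      (ContinuousLinearMap.proj (R := ℂ) (φ := fun _ : σ => ℂ) l).analyticAt t
    ext i j
    refine AnalyticOnNhd.eqOn_of_preconnected_of_eventuallyEq (𝕜 := ℂ)
      (f := fun t => (MvPolynomial.aeval t T ^ N • (P2 t * J * (P2 t)ᵀ)) i j)
      (g := fun t => (Λ.map (MvPolynomial.eval t)) i j) (fun t ht => ?_) (fun t ht => ?_) c2 s2
      ?_ ht
    · exact ((AnalyticAt.aeval_mvPolynomial (f := fun z => z) (co · t) T).fun_pow N).fun_mul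
        (Finset.analyticAt_fun_sum _ fun l _ => (Finset.analyticAt_fun_sum _ fun m _ =>
          (d2 i m t ht).fun_mul analyticAt_const).fun_mul (d2 j l t ht))
    · exact AnalyticAt.aeval_mvPolynomial (f := fun z => z) (co · t) (Λ i j)
    · filter_upwards [e, ih.1.mem_nhds s1] with t h3 h4
      rw [← h3, ih.2 t h4]

theorem brd_cq {α β : Type} (γ : Matrix α β ℚ) : cx (qr γ) = qc γ := by
  ext i j
  simp

theorem brd_mul {ν : Type} [Fintype ν] (a b : Matrix ν ν ℚ) : qc (a * b) = qc a * qc b :=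
  Matrix.map_mul (f := Rat.castHom ℂ)

theorem brd_one {ν : Type} [DecidableEq ν] : qc (1 : Matrix ν ν ℚ) = 1 :=
  Matrix.map_one _ Rat.cast_zero Rat.cast_one

theorem brd_mm {σ ν : Type} [Fintype ν] (a : Bc σ ν) (g h : Matrix ν ν ℂ) :
    mulB (mulB a g) h = mulB a (g * h) := by
  simp only [mulB, Matrix.mul_assoc]

theorem brd_m1 {σ ν : Type} [Fintype ν] [DecidableEq ν] (a : Bc σ ν) : mulB a 1 = a := by
  simp only [mulB, Matrix.mul_one]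

theorem br_fam {σ K ι ν : Type} [Fintype σ] [DecidableEq σ] [Field K] [Algebra K ℂ] [Fintype ι]
    [DecidableEq ι] [Fintype ν] [DecidableEq ν] {T : MvPolynomial σ K}
    {B : σ → Matrix ν ν (MvPolynomial σ K)} {U V : Set (σ → ℂ)} {P Q : (σ → ℂ) → Matrix ν ν ℂ}
    (ho : IsOpen U) {r : ι → ν} {J : Matrix ν ν ℝ} (hp : Pol T U P r J) (k : ContM U P V Q)
    (oV : IsOpen V) (cV : IsPreconnected V) (hQ : FundM T B V Q) {y : ℂ → σ → ℂ}
    (hy : AnalyticAt ℂ y 0) (hV : y 0 ∈ V) (hT : MvPolynomial.aeval (y 0) T ≠ 0)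
    (hq : ∀ l, ∃ q : MvPolynomial (Fin 2) ℂ, q ≠ 0 ∧
      ∀ᶠ u in 𝓝 (0 : ℂ), MvPolynomial.eval ![u, y u l] q = 0) :
    ∃ (Z : Finset ℂ) (Γ : Set (Matrix ν ν ℚ)) (𝓑 : Set (Set ℂ × (ℂ → Matrix ι ν ℂ))) (D : Set ℂ),
      Grp Γ ∧ Fam J Z (qr '' Γ) 𝓑 ∧ (0 : ℂ) ∈ D ∧
      (∀ γ ∈ Γ, (D, fun u => (Q (y u) * qc γ).submatrix r id) ∈ 𝓑) ∧
      ∀ H : MvPolynomial (Option σ ⊕ ν × ν) ℂ, (∀ᶠ u in 𝓝 (0 : ℂ), MvPolynomial.eval
        (Sum.elim (fun o => o.elim u (y u)) fun a => Q (y u) a.1 a.2) H = 0) → ∀ γ ∈ Γ,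
        MvPolynomial.eval (Sum.elim (fun o => o.elim 0 (y 0))
          fun a => (Q (y 0) * qc γ) a.1 a.2) H = 0 := by
  obtain ⟨Z, g, p, hA, hon⟩ := alg_arc T hy hq hT
  have loc : Loc T B := loc_fund oV ⟨_, hV⟩ hQ fun e => hT (by rw [e, map_zero])
  have hTn : ∀ᶠ u in 𝓝 (0 : ℂ), MvPolynomial.aeval (y u) T ≠ 0 :=
    (AnalyticAt.aeval_mvPolynomial (f := y) (fun l => analyticAt_pi_iff.1 hy l)
      T).continuousAt.eventually_ne hT
  obtain ⟨ρ, ρ0, hρ⟩ := Metric.eventually_nhds_iff_ball.1 (hy.eventually_analyticAt.and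
    ((hy.continuousAt.eventually (oV.mem_nhds hV)).and hTn))
  obtain ⟨a, ea⟩ : ∃ a : Bc σ ν, a = (ball 0 ρ, y, fun u => Q (y u)) := ⟨_, rfl⟩
  have a1 : a.2.1 = y := by rw [ea]
  have a2 : ∀ u, a.2.2 u = Q (y u) := fun u => by rw [ea]
  have a0 : (0 : ℂ) ∈ a.1 := by rw [ea]; exact mem_ball_self ρ0
  have ha : IsBr T B a := by
    rw [ea]
    exact ⟨isOpen_ball, (convex_ball _ _).isPreconnected, fun u hu => (hρ u hu).1, fun u hu =>
      ⟨(hρ u hu).2.2, V, Q, oV, cV, hQ, (hρ u hu).2.1, .of_forall fun _ => rfl⟩⟩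
  have hb : ∀ b, Rch T B a b → ∀ u ∈ b.1, OnC T g p u (b.2.1 u) := fun b h =>
    rch_on ha a0 (by rw [a1]; exact hon) h
  have hc := fun b (h : Rch T B a b) =>
    rch_cont ha a0 k oV hQ (by rw [a1]; exact hV) (by rw [a1, a2]) h
  have dQ : (Q (y 0)).det ≠ 0 := (hQ _ hV).1
  have hc0 : ∀ h, Rch T B a (mulB a h) → h.det ≠ 0 ∧ ∃ V' Q', ContM U P V' Q' ∧ y 0 ∈ V' ∧
      Q (y 0) * h = Q' (y 0) := fun h hh => by
    obtain ⟨V', Q', h1, -, h2, h3, h4⟩ := hc _ hh 0 a0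
    simp only [mulB, a1, a2] at h3 h4
    refine ⟨fun e => (h2 _ h3).1 ?_, V', Q', h1, h3, h4⟩
    rw [← h4, det_mul, e, mul_zero]
  obtain ⟨-, ⟨N, Λ, hΛ⟩, hp⟩ := hp
  obtain ⟨D, D0, hD⟩ := (hp V Q k _ hV).2
  have hden : ∀ h, Rch T B a (mulB a h) → ∃ γ : Matrix ν ν ℤ, (D : ℂ) • h = γ.map Int.cast := by
    intro h hh
    obtain ⟨-, V', Q', h1, h2, h3⟩ := hc0 h hh
    obtain ⟨γ, hγ⟩ := hD V' Q' h1 h2
    have i1 := invertibleOfIsUnitDet _ dQ.isUnit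
    refine ⟨γ, (Matrix.mul_right_inj_of_invertible (Q (y 0))).1 ?_⟩
    rw [Matrix.mul_smul, h3]
    exact hγ.self_of_nhds
  have D0' : (D : ℂ) ≠ 0 := Nat.cast_ne_zero.2 D0.ne'
  have hrat : ∀ h, Rch T B a (mulB a h) → ∃ γ, h = qc γ := fun h hh => by
    obtain ⟨γ, hγ⟩ := hden h hh
    refine ⟨of fun i j => (γ i j : ℚ) / D, ?_⟩
    ext i j
    have : (D : ℂ) * h i j = γ i j := congrFun (congrFun hγ i) j
    simp [← this, mul_div_cancel_left₀ _ D0']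
  refine ⟨Z, {γ | Rch T B a (mulB a (qc γ))},
    {c | ∃ b, Rch T B a b ∧ c = (b.1, fun u => (b.2.2 u).submatrix r id)}, ball 0 ρ,
    ⟨?_, fun γ h γ' h' => ?_, fun γ h => ?_, D, D0, fun γ h i j => ?_⟩,
    ⟨?_, ?_, ?_, ?_, fun c hc' => ?_, ?_, ?_⟩, mem_ball_self ρ0,
    fun γ h => ⟨_, h, by rw [ea]; rfl⟩, fun H hH γ h => ?_⟩
  · change Rch T B a (mulB a (qc 1))
    rw [brd_one, brd_m1]
    exact .refl
  · change Rch T B a (mulB a (qc (γ * γ')))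
    rw [brd_mul, ← brd_mm]
    exact Relation.ReflTransGen.trans h' (Rch.mul h (hc0 _ h').1)
  · have d1 : γ.det ≠ 0 := fun e => (hc0 _ h).1 (by
      have := RingHom.map_det (Rat.castHom ℂ) γ
      rw [e, map_zero] at this
      exact this.symm)
    have d2 := mul_nonsing_inv γ d1.isUnit
    have d3 : qc γ * qc γ⁻¹ = 1 := by rw [← brd_mul, d2, brd_one]
    refine ⟨γ⁻¹, ?_, d2⟩
    have := Rch.mul h (g := qc γ⁻¹) (det_ne_zero_of_left_inverse d3)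
    rw [brd_mm, d3, brd_m1] at this
    exact this.symm
  · obtain ⟨n, hn⟩ := hden _ h
    refine ⟨n i j, ?_⟩
    have : (D : ℂ) * (γ i j : ℂ) = n i j := congrFun (congrFun hn i) j
    exact_mod_cast this
  · rintro _ ⟨b, h, rfl⟩
    exact (h.br ha).1
  · rintro _ ⟨b, h, rfl⟩ i j
    exact (h.br ha).an (r i) j
  · rintro _ ⟨b, h, rfl⟩ u hu
    obtain ⟨V', Q', h1, -, -, h3, h4⟩ := hc b h u hu
    change Rie J ((b.2.2 u).submatrix r id)
    rw [h4]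
    exact (hp V' Q' h1 _ h3).1 ((h.br ha).2.2.2 u hu).1
  · rintro _ ⟨γ, h, rfl⟩
    obtain ⟨-, V', Q', h1, h2, h3⟩ := hc0 _ h
    have e1 := (brd_cont ho hΛ k).2 _ hV
    have e2 := (brd_cont ho hΛ h1).2 _ h2
    rw [← h3, ← e1, smul_right_inj (pow_ne_zero _ hT), transpose_mul] at e2
    have e3 : Q (y 0) * (qc γ * cx J * (qc γ)ᵀ) * (Q (y 0))ᵀ = Q (y 0) * cx J * (Q (y 0))ᵀ := by
      rw [← e2]
      simp only [Matrix.mul_assoc]
    have i1 := invertibleOfIsUnitDet _ dQ.isUnit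
    have i2 := invertibleOfIsUnitDet (Q (y 0))ᵀ (by rw [det_transpose]; exact dQ.isUnit)
    rw [Matrix.mul_left_inj_of_invertible, Matrix.mul_right_inj_of_invertible] at e3
    refine Matrix.map_injective Complex.ofReal_injective ?_
    change (qr γ * J * (qr γ)ᵀ).map Complex.ofRealHom = cx J
    rw [Matrix.map_mul, Matrix.map_mul, transpose_map, ← e3, ← brd_cq]
    rfl
  · obtain ⟨R, R0, hR⟩ := Metric.isOpen_iff.1 Z.finite_toSet.isClosed.isOpen_compl c hc'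
    have hR' : ∀ u ∈ ball c R, u ∉ Z := fun u hu => hR hu
    obtain ⟨𝒴, fY, hY⟩ := br_fin (T := T) hA hR'
    have ex : ∀ y' : ℂ → σ → ℂ, ∃ b : Bc σ ν, (∃ b, Rch T B a b ∧ b.1 = ball c R ∧
        ∀ u ∈ ball c R, b.2.1 u = y' u) → Rch T B a b ∧ b.1 = ball c R ∧
          ∀ u ∈ ball c R, b.2.1 u = y' u := fun y' => by
      by_cases h : ∃ b, Rch T B a b ∧ b.1 = ball c R ∧ ∀ u ∈ ball c R, b.2.1 u = y' u
      · exact h.imp fun b hb _ => hb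
      · exact ⟨a, fun h' => absurd h' h⟩
    choose β hβ using ex
    have key : ∀ b, Rch T B a b → ∀ u ∈ b.1, u ∈ ball c R → ∃ y' ∈ 𝒴, (∃ b, Rch T B a b ∧
        b.1 = ball c R ∧ ∀ u ∈ ball c R, b.2.1 u = y' u) ∧ ∃ h, Rch T B a (mulB a h) ∧
          b.2.2 u = (β y').2.2 u * h := by
      intro b h u h1 h2
      obtain ⟨b', k1, k2, -, k4⟩ := br_disc loc hA (h.br ha) (hb b h) hR' h2 h1
      have k5 : Rch T B a b' := Relation.ReflTransGen.trans h k1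
      obtain ⟨y', m1, m2⟩ := hY b'.2.1 (k2 ▸ (k5.br ha).2.2.1) (k2 ▸ hb b' k5)
      obtain ⟨n1, n2, n3⟩ := hβ y' ⟨b', k5, k2, m2⟩
      have n4 : ∀ v ∈ (β y').1, (β y').2.1 v = b'.2.1 v := fun v hv => by
        rw [n2] at hv
        rw [n3 v hv, m2 v hv]
      obtain ⟨t, t0, ht⟩ := br_uniq (n1.br ha) (k5.br ha) (n2.trans k2.symm) n4
      refine ⟨y', m1, ⟨b', k5, k2, m2⟩, t, ?_, k4 ▸ ht u (n2 ▸ h2)⟩
      refine Relation.ReflTransGen.trans k5 (Rch.symm ((n1.mul t0).tail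
        ⟨(n1.br ha).mul t0, k5.br ha, u, n2 ▸ h2, k2 ▸ h2, ?_⟩))
      filter_upwards [(n1.br ha).1.mem_nhds (n2 ▸ h2)] with v hv
      exact ⟨n4 v hv, (ht v hv).symm⟩
    refine ⟨R, R0, (fun y' u => ((β y').2.2 u).submatrix r id) '' {y' ∈ 𝒴 | ∃ b, Rch T B a b ∧
      b.1 = ball c R ∧ ∀ u ∈ ball c R, b.2.1 u = y' u}, (fY.subset fun _ h => h.1).image _, ?_, ?_,
      ?_⟩
    · obtain ⟨b, h, h1⟩ := br_all loc hA ha ⟨0, a0⟩ (hb a .refl) c hc'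
      obtain ⟨y', m1, m2, -⟩ := key b h c h1 (mem_ball_self R0)
      exact ⟨_, y', ⟨m1, m2⟩, rfl⟩
    · rintro _ ⟨y', ⟨-, m⟩, rfl⟩
      exact ⟨β y', (hβ y' m).1, by rw [(hβ y' m).2.1]⟩
    · rintro _ ⟨b, h, rfl⟩ u h1 h2
      obtain ⟨y', m1, m2, t, m3, m4⟩ := key b h u h1 h2
      obtain ⟨γ, rfl⟩ := hrat t m3
      refine ⟨_, ⟨y', ⟨m1, m2⟩, rfl⟩, _, ⟨γ, m3, rfl⟩, ?_⟩
      change (b.2.2 u).submatrix r id = _
      rw [m4, brd_cq]
      rfl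
  · rintro _ ⟨b, h, rfl⟩ u hu s R hs hR
    rcases le_or_gt R 0 with R0 | R0
    · exact ⟨fun _ => (b.2.2 u).submatrix r id, fun i j => analyticOnNhd_const, rfl,
        fun ζ hζ => absurd (pos_of_mem_ball hζ) (not_lt.2 R0)⟩
    have e0 : s + (u - s) * Complex.exp 0 = u := by simp
    obtain ⟨y', Y, -, h2, h3, h4⟩ := br_ext loc hA (h.br ha) (hb b h)
      (φ := fun ζ => s + (u - s) * Complex.exp ζ) (R := R) (fun ζ _ => by fun_prop)
      (fun ζ hζ => ⟨by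
        rw [(((Complex.hasDerivAt_exp ζ).const_mul (u - s)).const_add s).deriv]
        exact mul_ne_zero (sub_ne_zero.2 hs) (Complex.exp_ne_zero ζ), hR ζ hζ⟩)
      (mem_ball_self R0) (e0.symm ▸ hu)
    refine ⟨fun ζ => (Y ζ).submatrix r id, fun i j => h2 (r i) j, ?_, fun ζ hζ => ?_⟩
    · simp only [h3.self_of_nhds.2, e0]
    · obtain ⟨b', k1, k2, k3⟩ := h4 ζ hζ
      exact ⟨_, ⟨b', Relation.ReflTransGen.trans h k1, rfl⟩, k2, by
        simp only [k3.self_of_nhds.2]⟩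
  · rintro w hw _ ⟨b, h, rfl⟩ _ ⟨b', h', rfl⟩ u hu h0
    exact rch_zero (w := fun _ _ Y => w (Y.submatrix r id)) (h.br ha)
      (fun c hc => hw _ ⟨c, Relation.ReflTransGen.trans h hc, rfl⟩) hu h0
      (Relation.ReflTransGen.trans h.symm h')
  · have := rch_pol H ha a0 (by simpa only [a1, a2] using hH) h 0 a0
    simpa only [mulB, a1, a2] using this

end

end Pool.Agent.Lib.MP_5591bc_ag.A
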