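import Pool.Agent.Lib.MP_5591bc_ag.A.Set
import Pool.Agent.Lib.MP_5591bc_ag.W.Ser

/-! The line of Chevalley. -/

namespace Pool.Agent.Lib.MP_5591bc_ag.A

open Matrix Filter Topology Metric G R W M

noncomputable section

variable {ν : Type*} [Fintype ν] [DecidableEq ν] {Γ : Set (Matrix ν ν ℚ)}

theorem chev_one {S L α : Type*} [CommRing S] [Fintype L] [DecidableEq α] :
    (piM fun _ : L => (1 : Matrix α α S)) = 1 := by
  ext μ η
  simp [piM, one_apply, Finset.prod_boole, funext_iff]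

theorem rW_mul {S : Type*} [CommRing S] (r δ : ℕ) (g g' : Matrix ν ν S) :
    rW r δ (g * g') = rW r δ g * rW r δ g' := by
  simp only [rW, piM_mul, exg_mul, mul_one]

omit [Fintype ν] in
theorem rW_one {S : Type*} [CommRing S] (r δ : ℕ) : rW r δ (1 : Matrix ν ν S) = 1 := by
  simp only [rW, exg_one, chev_one]

omit [Fintype ν] in
theorem rW_map {S S' : Type*} [CommRing S] [CommRing S'] (f : S →+* S') (r δ : ℕ)
    (g : Matrix ν ν S) : rW r δ (g.map f) = (rW r δ g).map f := by
  simp only [rW, piM_map, exg_map f (map_zero f), map_one]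

section
variable {S A A' : Type*} [CommRing S] {r : ℕ}

/-- the maximal minors -/
def chevW (V : Matrix A (Fin r) S) : (Fin r → A) → S := fun μ => (V.submatrix μ id).det

theorem chevW_eq (V : Matrix A (Fin r) S) : chevW V = ∑ π : Equiv.Perm (Fin r),
    ((Equiv.Perm.sign π : ℤ) : S) • tens fun i a => V a (π i) := by
  ext μ
  rw [chevW, ← det_transpose, det_apply']
  simp [tens]

theorem chevW_mul [Fintype A] (N : Matrix A' A S) (V : Matrix A (Fin r) S) :
    piM (fun _ => N) *ᵥ chevW V = chevW (N * V) := by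
  rw [chevW_eq, chevW_eq, mulVec_sum]
  refine Finset.sum_congr rfl fun π _ => ?_
  rw [mulVec_smul, piM_mulVec]
  rfl

theorem chevW_right (V : Matrix A (Fin r) S) (N : Matrix (Fin r) (Fin r) S) :
    chevW (V * N) = N.det • chevW V := by
  ext μ
  rw [chevW, show (V * N).submatrix μ id = V.submatrix μ id * N from rfl, det_mul, mul_comm]
  rfl

theorem chevW_con [Fintype A] (V : Matrix A (Fin r) S) (F : A → S) (μ : Fin r → A) (i : Fin r) :
    cramer (V.submatrix μ id)ᵀ (F ᵥ* V) i = ∑ a, F a * chevW V (Function.update μ i a) := by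
  rw [vecMul_eq_sum, map_sum, Finset.sum_apply]
  refine Finset.sum_congr rfl fun a _ => ?_
  rw [map_smul, Pi.smul_apply, cramer_transpose_apply, smul_eq_mul, chevW]
  congr 2
  ext j k
  by_cases e : j = i <;> simp [e]

end

theorem chev_mono {S : Type*} [CommRing S] (δ : ℕ) (g X : Matrix ν ν S) :
    (piM fun _ : Fin δ => exg 1 g) *ᵥ mono δ X = mono δ (g * X) := by
  rw [mono, piM_mulVec, exg_mulVec, mono]

omit [Fintype ν] [DecidableEq ν] in
theorem chev_qc (δ : ℕ) (γ : Matrix ν ν ℚ) : 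
    mono δ (qc γ) = fun a => ((mono δ γ a : ℚ) : ℂ) := by
  ext μ
  simp only [mono, tens, Rat.cast_prod]
  exact Finset.prod_congr rfl fun j _ => by rcases μ j with _ | a <;> simp [hatg]

/-- `e` is the wedge of a rational basis of the span of the `mono δ γ`; the character is `± 1`
because its values have a bounded denominator -/
theorem chev_line (hΓ : Grp Γ) (δ : ℕ) : ∃ (r : ℕ) (e : (Fin r → Mo δ ν) → ℚ),
    (∀ γ ∈ Γ, rW r δ γ *ᵥ e = e ∨ rW r δ γ *ᵥ e = -e) ∧
    ∀ (g : Matrix ν ν ℂ) (c : ℂ), g.det ≠ 0 →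
      (rW r δ g *ᵥ fun a => (e a : ℂ)) = c • (fun a => (e a : ℂ)) →
      ∀ F : Mo δ ν → ℂ, (∀ γ ∈ Γ, F ⬝ᵥ mono δ (qc γ) = 0) → F ⬝ᵥ mono δ g = 0 := by
  classical
  let E := Submodule.span ℚ (mono δ '' Γ)
  obtain ⟨r, ⟨b⟩⟩ : ∃ r, Nonempty (Module.Basis (Fin r) ℚ E) := ⟨_, ⟨Module.finBasis ℚ E⟩⟩
  obtain ⟨V, hV⟩ : ∃ V : Matrix (Mo δ ν) (Fin r) ℚ, ∀ a j, V a j = (b j).1 a :=
    ⟨of fun a j => (b j).1 a, fun _ _ => rfl⟩
  have rep : ∀ x ∈ E, ∃ y, x = V *ᵥ y := fun x hx => ⟨b.repr ⟨x, hx⟩, by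
    ext a
    have := congrArg (fun w : E => w.1 a) (b.sum_repr ⟨x, hx⟩)
    simp only [Submodule.coe_sum, Finset.sum_apply, Submodule.coe_smul, Pi.smul_apply,
      smul_eq_mul] at this
    simp only [mulVec, dotProduct, hV, mul_comm ((b _).1 a), this]⟩
  have col : ∀ j, (fun a => V a j) ∈ E := fun j => by simpa only [hV] using (b j).2
  have eig : ∀ γ ∈ Γ, ∃ c : ℚ, rW r δ γ *ᵥ chevW V = c • chevW V := fun γ hγ => by
    have : ∀ x ∈ E, (piM fun _ : Fin δ => exg 1 γ) *ᵥ x ∈ E := fun x hx => by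
      refine (Submodule.span_le (p := E.comap (mulVecLin (piM fun _ => exg 1 γ)))).2 ?_ hx
      rintro _ ⟨γ', h, rfl⟩
      exact Submodule.subset_span ⟨_, hΓ.mul γ hγ γ' h, (chev_mono δ γ γ').symm⟩
    choose y hy using fun j => rep _ (this _ (col j))
    refine ⟨(of fun i j => y j i).det, ?_⟩
    rw [rW, chevW_mul, ← chevW_right]
    exact congrArg _ (Matrix.ext fun a j => congrFun (hy j) a)
  obtain ⟨a, ha⟩ : ∃ a, chevW V a ≠ 0 := by
    obtain ⟨L, hL⟩ := (mulVecLin V).exists_leftInverse_of_injective (LinearMap.ker_eq_bot'.2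
      fun y hy => funext (Fintype.linearIndependent_iff.1 b.linearIndependent y (by
        ext a
        simpa [mulVec, dotProduct, hV, mul_comm] using congrFun hy a)))
    have h1 : LinearMap.toMatrix' L * V = 1 := by
      rw [← LinearMap.toMatrix'_id, ← hL, LinearMap.toMatrix'_comp]
      exact congrArg _ (LinearMap.toMatrix'_toLin' V).symm
    by_contra! h
    have := congrFun (chevW_mul (LinearMap.toMatrix' L) V) id
    rw [h1, show chevW V = 0 from funext h] at this
    simp [chevW] at this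
  have int : ∀ γ ∈ Γ, ∀ c : ℚ, rW r δ γ *ᵥ chevW V = c • chevW V → ∃ n : ℤ, (n : ℚ) = c := by
    intro γ hγ c hc
    obtain ⟨D, D0, hD⟩ := hΓ.den
    have D1 : (D : ℚ) ≠ 0 := by positivity
    refine IsIntegrallyClosed.isIntegral_iff.1 (isIntegral_of_smul_mem_submodule
      (Submodule.span ℤ ((fun g => (rW r δ g *ᵥ chevW V) a) '' Γ)) (fun h => ha ?_)
      (Submodule.FG.of_le (T := Submodule.span ℤ (Set.range fun x =>
        (((D : ℚ) ^ δ) ^ r)⁻¹ * chevW V x)) (Submodule.fg_span (Set.finite_range _))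
        (Submodule.span_le.2 ?_)) c fun x hx => ?_)
    · simpa [rW_one] using Submodule.span_eq_bot.1 h _ ⟨1, hΓ.one, rfl⟩
    · rintro _ ⟨g, hg, rfl⟩
      have : ∀ o o', ∃ n : ℤ, (D : ℚ) * exg 1 g o o' = n := by
        rintro (_ | ⟨p, q⟩) (_ | ⟨p', q'⟩)
        · exact ⟨D, by simp [exg]⟩
        · exact ⟨0, by simp [exg]⟩
        · exact ⟨0, by simp [exg]⟩
        · by_cases e : q = q'
          · simpa [exg, e] using hD g hg p p'
          · exact ⟨0, by simp [exg, e]⟩
      choose n hn using this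
      refine Submodule.sum_mem _ fun x _ => ?_
      have e : rW r δ g a x * chevW V x =
          (∏ i, ∏ j, n (a i j) (x i j) : ℤ) • ((((D : ℚ) ^ δ) ^ r)⁻¹ * chevW V x) := by
        simp only [zsmul_eq_mul, Int.cast_prod, ← hn, Finset.prod_mul_distrib, Finset.prod_const,
          Finset.card_univ, Fintype.card_fin, rW, piM, of_apply]
        field_simp
      exact e ▸ Submodule.smul_mem _ _ (Submodule.subset_span ⟨x, rfl⟩)
    · refine (Submodule.span_le (p := (Submodule.span ℤ _).comap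
        (LinearMap.mulLeft ℤ c))).2 ?_ hx
      rintro _ ⟨g, hg, rfl⟩
      refine Submodule.subset_span ⟨_, hΓ.mul g hg γ hγ, ?_⟩
      simp [rW_mul, ← mulVec_mulVec, hc, mulVec_smul]
  refine ⟨r, chevW V, fun γ hγ => ?_, fun g c hg hc F hF => ?_⟩
  · obtain ⟨γ', h1, h2⟩ := hΓ.inv γ hγ
    obtain ⟨c, hc⟩ := eig γ hγ
    obtain ⟨c', hc'⟩ := eig γ' h1
    obtain ⟨n, rfl⟩ := int γ hγ c hc
    obtain ⟨n', rfl⟩ := int γ' h1 c' hc'
    have := congrFun (congrArg (fun g => rW r δ g *ᵥ chevW V) h2) a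
    simp only [rW_mul, ← mulVec_mulVec, hc', mulVec_smul, hc, rW_one, one_mulVec,
      Pi.smul_apply, smul_eq_mul] at this
    rw [← mul_assoc, mul_eq_right₀ ha] at this
    rcases Int.eq_one_or_neg_one_of_mul_eq_one' (by exact_mod_cast this : n' * n = 1) with k | k <;>
      simp [hc, k.2]
  · have eW : (fun a => ((chevW V a : ℚ) : ℂ)) = chevW (qc V) := funext fun μ =>
      (Rat.castHom ℂ).map_det _
    have FV : F ᵥ* qc V = 0 := funext fun j => by
      have : ∀ x ∈ E, F ⬝ᵥ (fun a => (x a : ℂ)) = 0 := fun x hx => by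
        induction hx using Submodule.span_induction with
        | mem x h => obtain ⟨γ, h, rfl⟩ := h; exact chev_qc δ γ ▸ hF γ h
        | zero => simp [dotProduct]
        | add x y _ _ h1 h2 => simpa [dotProduct, mul_add, Finset.sum_add_distrib] using
            (congrArg₂ (· + ·) h1 h2).trans (add_zero 0)
        | smul q x _ h =>
          simpa [dotProduct, Finset.mul_sum, mul_left_comm] using congrArg ((q : ℂ) * ·) h
      exact this _ (col j)
    rw [eW] at hc
    obtain ⟨μ, hμ⟩ : ∃ μ, (rW r δ g *ᵥ chevW (qc V)) μ ≠ 0 := by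
      by_contra! h
      have := congrFun (congrArg (rW r δ g⁻¹ *ᵥ ·) (funext h)) a
      simp only [mulVec_mulVec, ← rW_mul, nonsing_inv_mul _ hg.isUnit, rW_one, one_mulVec,
        ← eW] at this
      exact ha (by simpa [mulVec, dotProduct] using this)
    rw [rW, chevW_mul] at hc hμ
    obtain ⟨y, hy⟩ := rep _ (Submodule.subset_span ⟨1, hΓ.one, rfl⟩)
    have h1 : mono δ (1 : Matrix ν ν ℂ) = qc V *ᵥ fun j => (y j : ℂ) := by
      rw [← Matrix.map_one (Rat.cast : ℚ → ℂ) Rat.cast_zero Rat.cast_one, chev_qc, hy]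
      ext a
      simp [mulVec, dotProduct]
    rw [← Matrix.mul_one g, ← chev_mono, h1, mulVec_mulVec, dotProduct_mulVec]
    generalize (piM fun _ : Fin δ => exg 1 g) * qc V = X at hc hμ ⊢
    have h2 := mulVec_cramer (X.submatrix μ id)ᵀ (F ᵥ* X)
    rw [show cramer (X.submatrix μ id)ᵀ (F ᵥ* X) = 0 from funext fun i => by
      have := chevW_con (qc V) F μ i
      rw [FV, map_zero] at this
      simp only [chevW_con, hc, Pi.smul_apply, smul_eq_mul, mul_left_comm _ c, ← Finset.mul_sum,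
        ← this, Pi.zero_apply, mul_zero], mulVec_zero, det_transpose] at h2
    rw [(smul_eq_zero.1 h2.symm).resolve_left hμ, zero_dotProduct]

end

end Pool.Agent.Lib.MP_5591bc_ag.A
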