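import Pool.Agent.Lib.MP_5591bc_ag.A.DefM
import Pool.Agent.Lib.MP_5591bc_ag.A.ChevA

/-! The stabiliser of a rational eigenspace. -/

namespace Pool.Agent.Lib.MP_5591bc_ag.A

open Matrix Filter Topology Metric G R W M

noncomputable section

lemma chb_cast {ν S S' : Type*} [Fintype ν] [DecidableEq ν] [CommRing S] [CommRing S']
    (f : S →+* S') (r δ : ℕ) (g : Matrix ν ν S) (w : (Fin r → Mo δ ν) → S) :
    (rW r δ (g.map f) *ᵥ fun a => f (w a)) = fun a => f ((rW r δ g *ᵥ w) a) := by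
  funext a
  rw [rW_map]
  exact (RingHom.map_mulVec f _ w a).symm

/-- a complex solution of rational linear equations is a combination of rational ones -/
lemma chb_span {α κ : Type*} [Fintype α] (S : Set κ) (M : κ → Matrix α α ℚ) (c : κ → ℚ)
    (v : α → ℂ) (hv : ∀ k ∈ S, (M k).map (Rat.castHom ℂ) *ᵥ v = (c k : ℂ) • v) :
    v ∈ Submodule.span ℂ {x : α → ℂ | ∃ w : α → ℚ, (∀ k ∈ S, M k *ᵥ w = c k • w) ∧
      x = fun a => (w a : ℂ)} := by
  classical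
  let b := Module.Basis.ofVectorSpace ℚ ℂ
  have e : v = ∑ i ∈ Finset.univ.biUnion fun a => (b.repr (v a)).support,
      b i • fun a => ((b.repr (v a) i : ℚ) : ℂ) := by
    funext a
    rw [Finset.sum_apply]
    conv_lhs => rw [← b.linearCombination_repr (v a), Finsupp.linearCombination_apply,
      Finsupp.sum_of_support_subset _
        (Finset.subset_biUnion_of_mem (fun a => (b.repr (v a)).support) (Finset.mem_univ a))
        (fun i q => q • b i) (fun i _ => zero_smul _ _)]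
    exact Finset.sum_congr rfl fun i _ => by simp [Rat.smul_def, mul_comm]
  rw [e]
  refine Submodule.sum_mem _ fun i _ => Submodule.smul_mem _ _
    (Submodule.subset_span ⟨_, fun k hk => funext fun a => ?_, rfl⟩)
  have h := congrArg (fun z => b.repr z i) (congrFun (hv k hk) a)
  simpa [mulVec, dotProduct, ← Rat.smul_def, map_sum] using h

/-- expand a complex eigenvector in a `ℚ`-basis of `ℂ`; `rW X` is injective on the eigenspace -/
theorem chev_grp {ν : Type*} [Fintype ν] [DecidableEq ν] (Γ : Set (Matrix ν ν ℚ)) (r δ : ℕ)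
    (χ : Matrix ν ν ℚ → ℚ) : QGrp {X : Matrix ν ν ℂ | X.det ≠ 0 ∧
      ∀ w : (Fin r → Mo δ ν) → ℚ, (∀ γ ∈ Γ, rW r δ γ *ᵥ w = χ γ • w) → ∀ γ ∈ Γ,
        rW r δ (qc γ * X) *ᵥ (fun a => (w a : ℂ)) =
          (χ γ : ℂ) • (rW r δ X *ᵥ fun a => (w a : ℂ))} := by
  classical
  let W : Submodule ℂ ((Fin r → Mo δ ν) → ℂ) :=
    ⨅ γ ∈ Γ, LinearMap.eqLocus (mulVecLin (rW r δ (qc γ))) ((χ γ : ℂ) • LinearMap.id)
  have hW : ∀ v, v ∈ W ↔ ∀ γ ∈ Γ, rW r δ (qc γ) *ᵥ v = (χ γ : ℂ) • v := fun v => by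
    simp [W, Submodule.mem_iInf]
  have h1 : ∀ w : (Fin r → Mo δ ν) → ℚ, (∀ γ ∈ Γ, rW r δ γ *ᵥ w = χ γ • w) →
      (fun a => (w a : ℂ)) ∈ W := fun w hw => (hW _).mpr fun γ hγ => by
    refine (chb_cast (Rat.castHom ℂ) r δ γ w).trans ?_
    funext a
    simp [hw γ hγ]
  have h2 : ∀ X : Matrix ν ν ℂ, (∀ w : (Fin r → Mo δ ν) → ℚ,
      (∀ γ ∈ Γ, rW r δ γ *ᵥ w = χ γ • w) → ∀ γ ∈ Γ, rW r δ (qc γ * X) *ᵥ (fun a => (w a : ℂ)) =
        (χ γ : ℂ) • (rW r δ X *ᵥ fun a => (w a : ℂ))) ↔ ∀ v ∈ W, rW r δ X *ᵥ v ∈ W := fun X => by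
    refine ⟨fun h v hv => ?_, fun h w hw γ hγ => by
      rw [rW_mul, ← mulVec_mulVec, (hW _).mp (h _ (h1 w hw)) γ hγ]⟩
    have := chb_span Γ (rW r δ) χ v fun γ hγ => by
      rw [← rW_map]; exact (hW v).mp hv γ hγ
    refine Submodule.span_le (p := W.comap (mulVecLin (rW r δ X))) |>.mpr ?_ this
    rintro _ ⟨w, hw, rfl⟩
    exact (hW _).mpr fun γ hγ => by
      rw [mulVecLin_apply, mulVec_mulVec, ← rW_mul, h w hw γ hγ]
  refine ⟨⟨{p | ∃ w : (Fin r → Mo δ ν) → ℚ, (∀ γ ∈ Γ, rW r δ γ *ᵥ w = χ γ • w) ∧ ∃ γ ∈ Γ, ∃ a,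
    p = (rW r δ (γ.map MvPolynomial.C * mvPolynomialX ν ν ℚ) *ᵥ fun a => MvPolynomial.C (w a)) a -
      MvPolynomial.C (χ γ) * (rW r δ (mvPolynomialX ν ν ℚ) *ᵥ fun a => MvPolynomial.C (w a)) a},
    Set.ext fun X => and_congr_right fun _ => ?_⟩, ⟨by simp, (h2 1).mpr fun v hv => ?_⟩,
    fun a ha b hb => ⟨?_, (h2 _).mpr fun v hv => ?_⟩⟩
  · let f : MvPolynomial (ν × ν) ℚ →+* ℂ := (MvPolynomial.aeval fun a : ν × ν => X a.1 a.2).toRingHom
    have f1 : (mvPolynomialX ν ν ℚ).map f = X := by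
      ext i j
      simp [f, mvPolynomialX]
    have f2 : ∀ q : ℚ, f (MvPolynomial.C q) = (q : ℂ) := fun q => by simp [f]
    have f3 : ∀ γ : Matrix ν ν ℚ, (γ.map MvPolynomial.C).map f = qc γ := fun γ => by
      ext i j
      exact f2 _
    have key : ∀ (w : (Fin r → Mo δ ν) → ℚ) (γ : Matrix ν ν ℚ) a,
        f ((rW r δ (γ.map MvPolynomial.C * mvPolynomialX ν ν ℚ) *ᵥ
          fun a => MvPolynomial.C (w a)) a - MvPolynomial.C (χ γ) *
            (rW r δ (mvPolynomialX ν ν ℚ) *ᵥ fun a => MvPolynomial.C (w a)) a) =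
        (rW r δ (qc γ * X) *ᵥ (fun a => (w a : ℂ))) a -
          (χ γ : ℂ) * (rW r δ X *ᵥ fun a => (w a : ℂ)) a := fun w γ a => by
      rw [map_sub, map_mul, ← congrFun (chb_cast f r δ _ _) a, ← congrFun (chb_cast f r δ _ _) a,
        Matrix.map_mul, f1, f3]
      simp only [f2]
    refine ⟨?_, fun h w hw γ hγ => funext fun a => ?_⟩
    · rintro h _ ⟨w, hw, γ, hγ, a, rfl⟩
      exact (key w γ a).trans (sub_eq_zero.mpr (congrFun (h w hw γ hγ) a))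
    · exact sub_eq_zero.mp ((key w γ a).symm.trans (h _ ⟨w, hw, γ, hγ, a, rfl⟩))
  · rwa [rW_one, one_mulVec]
  · rw [det_mul, det_nonsing_inv, Ring.inverse_eq_inv']
    exact mul_ne_zero ha.1 (inv_ne_zero hb.1)
  · have e : ∀ x, rW r δ b⁻¹ *ᵥ (rW r δ b *ᵥ x) = x := fun x => by
      rw [mulVec_mulVec, ← rW_mul, nonsing_inv_mul _ (isUnit_iff_ne_zero.mpr hb.1), rW_one,
        one_mulVec]
    obtain ⟨x, hx⟩ := LinearMap.surjective_of_injective
      (f := (mulVecLin (rW r δ b)).restrict ((h2 b).mp hb.2))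
      (fun x y h => Subtype.ext ((e _).symm.trans
        ((congrArg _ (congrArg Subtype.val h)).trans (e _)))) ⟨v, hv⟩
    have hx' : rW r δ b *ᵥ x.1 = v := congrArg Subtype.val hx
    rw [rW_mul, ← mulVec_mulVec, ← hx', e]
    exact (h2 a).mp ha.2 _ x.2

end

end Pool.Agent.Lib.MP_5591bc_ag.A
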