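import Pool.Agent.Lib.MP_5591bc_ag.A.Cx
import Pool.Agent.Lib.MP_5591bc_ag.A.ChevB
import Pool.Agent.Lib.MP_5591bc_ag.V.Rep

/-! The Mumford-Tate group normalises the monodromy. -/

namespace Pool.Agent.Lib.MP_5591bc_ag.A

open Matrix Filter Topology Metric G R W M

noncomputable section

variable {ι ν : Type*} [Fintype ι] [DecidableEq ι] [Fintype ν] [DecidableEq ν]
  {Γ : Set (Matrix ν ν ℚ)}

omit [DecidableEq ν] in
/-- a polynomial is a linear form in the monomials -/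
theorem chev_form (p : MvPolynomial (ν × ν) ℂ) : ∃ F : Mo p.totalDegree ν → ℂ,
    ∀ Z : Matrix ν ν ℂ, MvPolynomial.eval (fun a => Z a.1 a.2) p = F ⬝ᵥ mono p.totalDegree Z := by
  obtain ⟨κ, hκ⟩ := V.rep (p := p) le_rfl
  refine ⟨κ, fun Z => ?_⟩
  have e := V.rep_eval κ (RingHom.id ℂ) Z
  rw [← hκ, MvPolynomial.eval₂_id] at e
  exact e

theorem chev_qr (r δ : ℕ) (γ : Matrix ν ν ℚ) (w : (Fin r → Mo δ ν) → ℚ) :
    (rW r δ (qr γ) *ᵥ fun a => (w a : ℝ)) = fun a => ((rW r δ γ *ᵥ w) a : ℝ) := by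
  funext a
  have e := RingHom.map_mulVec (Rat.castHom ℝ) (rW r δ γ) w a
  rw [← rW_map] at e
  exact e.symm

theorem chev_cx (r δ : ℕ) (g : Matrix ν ν ℝ) (w : (Fin r → Mo δ ν) → ℝ) :
    (rW r δ (cx g) *ᵥ fun a => (w a : ℂ)) = fun a => ((rW r δ g *ᵥ w) a : ℂ) := by
  funext a
  have e := RingHom.map_mulVec Complex.ofRealHom (rW r δ g) w a
  rw [← rW_map] at e
  exact e.symm

omit [DecidableEq ν] in
theorem chev_cxm (γ : Matrix ν ν ℚ) (g : Matrix ν ν ℝ) : qc γ * cx g = cx (qr γ * g) := by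
  ext i j
  simp [Matrix.mul_apply]

omit [DecidableEq ν] in
theorem chev_qrm (a b : Matrix ν ν ℚ) : qr (a * b) = qr a * qr b := by
  ext i j
  simp [Matrix.mul_apply]

omit [DecidableEq ν] in
theorem chev_qcm (a b : Matrix ν ν ℚ) : qc (a * b) = qc a * qc b := by
  ext i j
  simp [Matrix.mul_apply]

omit [Fintype ν] in
theorem chev_qr1 : qr (1 : Matrix ν ν ℚ) = 1 := by
  ext i j
  simp [Matrix.one_apply, apply_ite]

omit [Fintype ν] in
theorem chev_qc1 : qc (1 : Matrix ν ν ℚ) = 1 := by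
  ext i j
  simp [Matrix.one_apply, apply_ite]

theorem chev_det {a b : Matrix ν ν ℂ} (e : a * b = 1) : a.det ≠ 0 := by
  have := congrArg det e
  rw [det_mul, det_one] at this
  exact left_ne_zero_of_mul_eq_one this

/-- the action of `z` keeps the eigenspaces -/
theorem chev_hz {r δ : ℕ} {γ b : Matrix ν ν ℚ} (hb : γ * b = 1) {H : Matrix ν ν ℝ}
    {w : (Fin r → Mo δ ν) → ℚ} {c : ℚ} (hw : rW r δ γ *ᵥ w = c • w)
    (hk : ∀ k, qr γ * k = H * qr γ →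
      (rW r δ k *ᵥ fun a => (w a : ℝ)) = rW r δ H *ᵥ fun a => (w a : ℝ)) :
    rW r δ (qc γ * cx H) *ᵥ (fun a => (w a : ℂ)) =
      (c : ℂ) • (rW r δ (cx H) *ᵥ fun a => (w a : ℂ)) := by
  have e1 : qr γ * (qr b * H * qr γ) = H * qr γ := by
    rw [← Matrix.mul_assoc, ← Matrix.mul_assoc, ← chev_qrm, hb, chev_qr1, Matrix.one_mul]
  have e2 := congrArg (fun v => rW r δ (qr γ) *ᵥ v) (hk _ e1)
  have e3 : (rW r δ (qr γ) *ᵥ fun a => (w a : ℝ)) = (c : ℝ) • fun a => (w a : ℝ) := by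
    rw [chev_qr, hw]
    funext a
    simp
  simp only [mulVec_mulVec, ← rW_mul] at e2
  rw [e1, rW_mul, ← mulVec_mulVec, e3, mulVec_smul] at e2
  have e4 : (fun a => (w a : ℂ)) = fun a => (((fun a => (w a : ℝ)) a : ℝ) : ℂ) := by
    funext a
    simp
  rw [chev_cxm, e4, chev_cx, chev_cx, ← e2]
  funext a
  simp

/-- `cx_hz_of`, `chev_grp`, `chev_line`, and a polynomial of degree `≤ δ` is `F ⬝ᵥ mono δ` -/
theorem chev {J : Matrix ν ν ℝ} (hJ : Jᵀ = -J) (hc : Fintype.card ν = 2 * Fintype.card ι)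
    {Ω : Matrix ι ν ℂ} (h : Rie J Ω) (hΓ : Grp Γ)
    (hfix : ∀ (r δ : ℕ) (e : (Fin r → Mo δ ν) → ℝ),
      (∀ γ ∈ Γ, rW r δ (qr γ) *ᵥ e = e ∨ rW r δ (qr γ) *ᵥ e = -e) → ∀ z : ℂ, z ≠ 0 → ∀ γ ∈ Γ,
        ∀ k, qr γ * k = hz J Ω z * qr γ → rW r δ k *ᵥ e = rW r δ (hz J Ω z) *ᵥ e) :
    ∀ g ∈ MTG Ω, ∀ g', g' * g = 1 → ∀ γ ∈ Γ, g' * qc γ * g ∈ Zc Γ := by
  classical
  intro g hg g' hg' γ hγ p hp
  obtain ⟨F, hF⟩ := chev_form p
  generalize p.totalDegree = δ at F hF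
  obtain ⟨r, e, he, hline⟩ := chev_line hΓ δ
  let χ : Matrix ν ν ℚ → ℚ := fun a => if rW r δ a *ᵥ e = e then 1 else -1
  have hχ : ∀ a, χ a = 1 ∨ χ a = -1 := fun a => by
    by_cases ha : rW r δ a *ᵥ e = e <;> simp [χ, ha]
  have heχ : ∀ a ∈ Γ, rW r δ a *ᵥ e = χ a • e := fun a ha => by
    by_cases h1 : rW r δ a *ᵥ e = e
    · simp [χ, h1]
    · have h2 := (he a ha).resolve_left h1
      simp only [χ, if_neg h1, neg_smul, one_smul, h2]
  have hG := Set.mem_sInter.1 hg _ ⟨chev_grp Γ r δ χ, fun z H hz0 h1 h2 => ?_⟩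
  · obtain ⟨b, -, hb⟩ := hΓ.inv γ hγ
    rw [hF]
    refine hline _ (χ γ : ℂ) ?_ ?_ F fun a ha => by rw [← hF]; exact hp a ha
    · refine chev_det (b := g' * qc b * g) ?_
      have e1 : g * g' = 1 := mul_eq_one_comm.1 hg'
      calc g' * qc γ * g * (g' * qc b * g) = g' * (qc γ * (g * g') * qc b) * g := by
            simp only [Matrix.mul_assoc]
        _ = 1 := by rw [e1, Matrix.mul_one, ← chev_qcm, hb, chev_qc1, Matrix.mul_one, hg']
    · rw [Matrix.mul_assoc, rW_mul, ← mulVec_mulVec, hG.2 e heχ γ hγ, mulVec_smul, mulVec_mulVec,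
        ← rW_mul, hg', rW_one, one_mulVec]
  · obtain rfl := cx_hz_of hJ hc h h1 h2
    refine ⟨chev_det (b := cx (hz J Ω z⁻¹)) ?_, fun w hw a ha => ?_⟩
    · have e1 : cx (hz J Ω z) * cx (hz J Ω z⁻¹) = cx (hz J Ω z * hz J Ω z⁻¹) := by
        ext i j
        simp [Matrix.mul_apply]
      rw [e1, cx_hz_mul hJ hc h, mul_inv_cancel₀ hz0]
      ext i j
      simp [hz, Matrix.one_apply, apply_ite]
    · obtain ⟨b, -, hb⟩ := hΓ.inv a ha
      refine chev_hz hb (hw a ha) (hfix r δ _ (fun a' ha' => ?_) z hz0 a ha)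
      rw [chev_qr, hw a' ha']
      rcases hχ a' with h3 | h3
      · left
        rw [h3, one_smul]
      · right
        funext x
        simp [h3]

end

end Pool.Agent.Lib.MP_5591bc_ag.A
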