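import Pool.Agent.Lib.MP_5591bc_ag.A.Cx

/-! Calculus of matrices and the Cauchy-Riemann equation. -/

namespace Pool.Agent.Lib.MP_5591bc_ag.A

open Matrix Filter Topology Metric G R W M

noncomputable section

variable {ι ν α β γ : Type*} [Fintype ι] [DecidableEq ι] [Fintype ν] [DecidableEq ν]
  {J : Matrix ν ν ℝ} {Ω : ℂ → Matrix ι ν ℂ} {u v v' : ℂ}

theorem cr_has {g : ℂ → ℝ} (h : AnalyticAt ℝ g u) : HasFDerivAt g (fderiv ℝ g u) u :=
  h.differentiableAt.hasFDerivAt

theorem cr_pv_an {g : ℂ → ℝ} (h : AnalyticAt ℝ g u) (v : ℂ) : AnalyticAt ℝ (pv v g) u :=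
  ((ContinuousLinearMap.apply ℝ ℝ v).analyticAt _).comp h.fderiv

theorem cr_pv_pv {g : ℂ → ℝ} (h : AnalyticAt ℝ g u) (v v' : ℂ) :
    pv v (pv v' g) u = fderiv ℝ (fderiv ℝ g) u v v' := by
  have := ((ContinuousLinearMap.apply ℝ ℝ v').hasFDerivAt.comp u
    h.fderiv.differentiableAt.hasFDerivAt).fderiv
  exact congrArg (· v) this

theorem cr_pv_comm {g : ℂ → ℝ} (h : AnalyticAt ℝ g u) (v v' : ℂ) :
    pv v (pv v' g) u = pv v' (pv v g) u := by
  rw [cr_pv_pv h, cr_pv_pv h]
  exact h.contDiffAt.isSymmSndFDerivAt_of_omega v v'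

theorem cr_lin [Fintype α] [Fintype β] [DecidableEq α] [DecidableEq β] {δ : Type*}
    (d : Matrix α β ℝ →ₗ[ℝ] Matrix γ δ ℝ) (A : Matrix α β ℝ) (i : γ) (j : δ) :
    d A i j = ∑ a, ∑ b, A a b * d (single a b 1) i j := by
  conv_lhs => rw [Matrix.matrix_eq_sum_single A]
  simp only [map_sum, Matrix.sum_apply]
  refine Finset.sum_congr rfl fun a _ => Finset.sum_congr rfl fun b _ => ?_
  rw [show single a b (A a b) = A a b • single a b (1 : ℝ) by simp, map_smul]
  rfl

/-- complex matrices with real analytic entries -/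
def cr_AnC (A : ℂ → Matrix α β ℂ) (u : ℂ) : Prop := ∀ i j, AnalyticAt ℝ (A · i j) u

theorem cr_AnC.const (A : Matrix α β ℂ) : cr_AnC (fun _ => A) u := fun _ _ => analyticAt_const

theorem cr_AnC.smul {A : ℂ → Matrix α β ℂ} (h : cr_AnC A u) (c : ℂ) :
    cr_AnC (fun w => c • A w) u := fun i j => (analyticAt_const (v := c)).mul (h i j)

theorem cr_AnC.mul [Fintype β] {A : ℂ → Matrix α β ℂ} {B : ℂ → Matrix β γ ℂ} (h : cr_AnC A u)
    (h' : cr_AnC B u) : cr_AnC (fun w => A w * B w) u := by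
  intro i j
  simp only [Matrix.mul_apply]
  exact Finset.analyticAt_fun_sum _ fun k _ => (h i k).mul (h' k j)

theorem cr_AnC.ct {A : ℂ → Matrix α β ℂ} (h : cr_AnC A u) : cr_AnC (fun w => (A w)ᴴ) u :=
  fun i j => ((Complex.conjCLE : ℂ →L[ℝ] ℂ).analyticAt _).comp (h j i)

theorem cr_AnC.det {A : ℂ → Matrix ι ι ℂ} (h : cr_AnC A u) :
    AnalyticAt ℝ (fun w => (A w).det) u := by
  simp only [Matrix.det_apply']
  exact Finset.analyticAt_fun_sum _ fun s _ =>
    analyticAt_const.mul (Finset.analyticAt_fun_prod _ fun k _ => h _ _)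

theorem cr_AnC.inv {A : ℂ → Matrix ι ι ℂ} (h : cr_AnC A u) (hd : (A u).det ≠ 0) :
    cr_AnC (fun w => (A w)⁻¹) u := by
  intro i j
  simp only [Matrix.inv_def, Ring.inverse_eq_inv', Matrix.smul_apply, smul_eq_mul,
    Matrix.adjugate_apply]
  refine (h.det.inv hd).mul (cr_AnC.det fun a b => ?_)
  simp only [Matrix.updateRow_apply]
  split_ifs
  · exact analyticAt_const
  · exact h a b

omit [DecidableEq ν] in
open scoped ComplexOrder in
theorem cr_det {Ω : Matrix ι ν ℂ} (h : Rie J Ω) : (Hm J Ω).det ≠ 0 :=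
  ((Matrix.isUnit_iff_isUnit_det _).1 h.2.isUnit).ne_zero

theorem AnM.const (A : Matrix α β ℝ) : AnM (fun _ => A) u := by
  exact fun _ _ => analyticAt_const

theorem AnM.ev {A : ℂ → Matrix α β ℝ} [Finite α] [Finite β] (h : AnM A u) :
    ∀ᶠ w in 𝓝 u, AnM A w := by
  exact eventually_all.2 fun i => eventually_all.2 fun j => (h i j).eventually_analyticAt

theorem AnM.add {A B : ℂ → Matrix α β ℝ} (h : AnM A u) (h' : AnM B u) :
    AnM (fun w => A w + B w) u := by
  exact fun i j => (h i j).add (h' i j)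

theorem AnM.smul {A : ℂ → Matrix α β ℝ} (h : AnM A u) (c : ℝ) : AnM (fun w => c • A w) u := by
  exact fun i j => (analyticAt_const (v := c)).mul (h i j)

theorem AnM.mul [Fintype β] {A : ℂ → Matrix α β ℝ} {B : ℂ → Matrix β γ ℝ} (h : AnM A u)
    (h' : AnM B u) : AnM (fun w => A w * B w) u := by
  intro i j
  simp only [Matrix.mul_apply]
  exact Finset.analyticAt_fun_sum _ fun k _ => (h i k).mul (h' k j)

theorem AnM.pM {A : ℂ → Matrix α β ℝ} (h : AnM A u) (v : ℂ) : AnM (pM v A) u := by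
  exact fun i j => cr_pv_an (h i j) v

theorem AnM.lin [Finite α] [Finite β] {δ : Type*} {A : ℂ → Matrix α β ℝ} (h : AnM A u)
    (d : Matrix α β ℝ →ₗ[ℝ] Matrix γ δ ℝ) : AnM (fun w => d (A w)) u := by
  classical
  have := Fintype.ofFinite α
  have := Fintype.ofFinite β
  intro i j
  simp only [fun w => cr_lin d (A w) i j]
  exact Finset.analyticAt_fun_sum _ fun a _ => Finset.analyticAt_fun_sum _ fun b _ =>
    (h a b).mul analyticAt_const

theorem pM_congr {A B : ℂ → Matrix α β ℝ} (e : A =ᶠ[𝓝 u] B) : pM v A =ᶠ[𝓝 u] pM v B := by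
  filter_upwards [e.eventuallyEq_nhds] with w hw
  ext i j
  have : (A · i j) =ᶠ[𝓝 w] (B · i j) := hw.mono fun x hx => by simp only [hx]
  simp only [pM, pv, of_apply, this.fderiv_eq]

theorem pM_const (A : Matrix α β ℝ) : pM v (fun _ => A) u = 0 := by
  ext i j
  simp [pM, pv]

theorem pM_add {A B : ℂ → Matrix α β ℝ} (h : AnM A u) (h' : AnM B u) :
    pM v (fun w => A w + B w) u = pM v A u + pM v B u := by
  ext i j
  exact congrArg (· v) ((cr_has (h i j)).add (cr_has (h' i j))).fderiv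

theorem pM_smul {A : ℂ → Matrix α β ℝ} (h : AnM A u) (c : ℝ) :
    pM v (fun w => c • A w) u = c • pM v A u := by
  ext i j
  have := ((cr_has (h i j)).const_mul c).fderiv
  simp only [pM, pv, of_apply, Matrix.smul_apply, smul_eq_mul, this,
    _root_.smul_apply]

theorem pM_mul [Fintype β] {A : ℂ → Matrix α β ℝ} {B : ℂ → Matrix β γ ℝ} (h : AnM A u)
    (h' : AnM B u) : pM v (fun w => A w * B w) u = pM v A u * B u + A u * pM v B u := by
  ext i j
  have := (HasFDerivAt.fun_sum (u := Finset.univ) fun k _ =>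
    (cr_has (h i k)).fun_mul (cr_has (h' k j))).fderiv
  simp only [pM, pv, of_apply, Matrix.mul_apply, Matrix.add_apply, this,
    _root_.sum_apply, _root_.add_apply, _root_.smul_apply,
    smul_eq_mul, ← Finset.sum_add_distrib]
  exact Finset.sum_congr rfl fun k _ => by ring

theorem pM_lin [Finite α] [Finite β] {δ : Type*} {A : ℂ → Matrix α β ℝ} (h : AnM A u)
    (d : Matrix α β ℝ →ₗ[ℝ] Matrix γ δ ℝ) : pM v (fun w => d (A w)) u = d (pM v A u) := by
  classical
  have := Fintype.ofFinite α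
  have := Fintype.ofFinite β
  ext i j
  have := (HasFDerivAt.fun_sum (u := Finset.univ) fun a _ =>
    HasFDerivAt.fun_sum (u := Finset.univ) fun b _ =>
      (cr_has (h a b)).mul_const (d (single a b 1) i j)).fderiv
  rw [cr_lin d]
  simp only [pM, pv, of_apply, cr_lin d (A _), this,
    _root_.sum_apply, _root_.smul_apply, smul_eq_mul, mul_comm]

theorem pM_comm {A : ℂ → Matrix α β ℝ} (h : AnM A u) :
    pM v (pM v' A) u = pM v' (pM v A) u := by
  ext i j
  exact cr_pv_comm (h i j) v v'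

/-- a matrix whose two partial derivatives vanish on a disc is constant -/
theorem pM_zero {A : ℂ → Matrix α β ℝ} {c : ℂ} {ρ : ℝ} (h : ∀ w ∈ ball c ρ, AnM A w)
    (h0 : ∀ w ∈ ball c ρ, pM 1 A w = 0 ∧ pM Complex.I A w = 0) : ∀ w ∈ ball c ρ, A w = A c := by
  intro w hw
  ext i j
  have hρ : 0 < ρ := pos_of_mem_ball hw
  refine isOpen_ball.is_const_of_fderiv_eq_zero (𝕜 := ℝ) (f := (A · i j))
    (convex_ball c ρ).isPreconnected
    (fun x hx => (h x hx i j).differentiableAt.differentiableWithinAt) (fun x hx => ?_) hw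
    (mem_ball_self hρ)
  have h1 : fderiv ℝ (A · i j) x 1 = 0 := congrFun (congrFun (h0 x hx).1 i) j
  have h2 : fderiv ℝ (A · i j) x Complex.I = 0 := congrFun (congrFun (h0 x hx).2 i) j
  ext z
  have hz : z = z.re • (1 : ℂ) + z.im • Complex.I := by
    simp [Complex.re_add_im]
  rw [hz, map_add, map_smul, map_smul, h1, h2]
  simp

theorem cr_an (hΩ : ∀ i j, AnalyticAt ℂ (Ω · i j) u) (h : Rie J (Ω u)) :
    AnM (fun w => Sm J (Ω w)) u := by
  have h1 : cr_AnC Ω u := fun i j => (hΩ i j).restrictScalars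
  have h2 : cr_AnC (fun w => Hm J (Ω w)) u :=
    ((h1.mul (cr_AnC.const (cx J))).mul h1.ct).smul _
  have h3 : (Hm J (Ω u)).det ≠ 0 := cr_det h
  have h4 := (h1.ct.mul (h2.inv h3)).mul h1
  intro i j
  exact (analyticAt_const (v := (2 : ℝ))).mul
    ((Complex.reCLM.analyticAt _).comp (h4 i j))

theorem cr_anI (hΩ : ∀ i j, AnalyticAt ℂ (Ω · i j) u) (h : Rie J (Ω u)) :
    AnM (fun w => Cs J (Ω w)) u := by
  exact (AnM.const J).mul (cr_an hΩ h)

/-- differentiate `Ω I = i Ω` in the two directions and use `cx_ext` -/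
theorem cr_eq (hJ : Jᵀ = -J) (hc : Fintype.card ν = 2 * Fintype.card ι)
    (hΩ : ∀ i j, AnalyticAt ℂ (Ω · i j) u) (h : ∀ᶠ w in 𝓝 u, Rie J (Ω w)) :
    pM Complex.I (fun w => Cs J (Ω w)) u = Cs J (Ω u) * pM 1 (fun w => Cs J (Ω w)) u := by
  have hu := h.self_of_nhds
  have hI := cr_anI hΩ hu
  have key : ∀ v : ℂ, (v • of fun i j => deriv (Ω · i j) u) * cx (Cs J (Ω u)) +
      Ω u * cx (pM v (fun w => Cs J (Ω w)) u) =
      Complex.I • v • of fun i j => deriv (Ω · i j) u := by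
    intro v
    ext i j
    have d1 : ∀ k, HasFDerivAt (Ω · i k)
        ((ContinuousLinearMap.toSpanSingleton ℂ (deriv (Ω · i k) u)).restrictScalars ℝ) u :=
      fun k => (hΩ i k).differentiableAt.hasDerivAt.hasFDerivAt.restrictScalars ℝ
    have d2 : ∀ k, HasFDerivAt (fun w => ((Cs J (Ω w) k j : ℝ) : ℂ))
        (Complex.ofRealCLM.comp (fderiv ℝ (fun w => Cs J (Ω w) k j) u)) u :=
      fun k => Complex.ofRealCLM.hasFDerivAt.comp u (cr_has (hI k j))
    have d3 := HasFDerivAt.fun_sum (u := Finset.univ) fun k _ => (d1 k).fun_mul (d2 k)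
    have d4 := (d1 j).const_mul Complex.I
    have e : (fun w => Complex.I * Ω w i j) =ᶠ[𝓝 u]
        fun w => ∑ k, Ω w i k * ((Cs J (Ω w) k j : ℝ) : ℂ) := by
      filter_upwards [h] with w hw
      have := congrFun (congrFun (cx_eig hw) i) j
      simpa [Matrix.mul_apply] using this.symm
    have := congrArg (· v) ((d3.congr_of_eventuallyEq e).unique d4)
    simp only [_root_.sum_apply, _root_.add_apply,
      _root_.smul_apply, ContinuousLinearMap.coe_restrictScalars',
      ContinuousLinearMap.toSpanSingleton_apply, ContinuousLinearMap.comp_apply,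
      Complex.ofRealCLM_apply, smul_eq_mul] at this
    simp only [Matrix.add_apply, Matrix.mul_apply, Matrix.smul_apply, of_apply, map_apply,
      smul_eq_mul, pM, pv, ← this, ← Finset.sum_add_distrib]
    exact Finset.sum_congr rfl fun k _ => by ring
  apply cx_ext hJ hc hu
  have e : cx (Cs J (Ω u) * pM 1 (fun w => Cs J (Ω w)) u) =
      cx (Cs J (Ω u)) * cx (pM 1 (fun w => Cs J (Ω w)) u) :=
    Matrix.map_mul (f := Complex.ofRealHom)
  rw [e, ← Matrix.mul_assoc, cx_eig hu, Matrix.smul_mul, eq_sub_of_add_eq' (key 1),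
    eq_sub_of_add_eq' (key Complex.I), one_smul, Matrix.smul_mul, smul_sub]

end

end Pool.Agent.Lib.MP_5591bc_ag.A
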