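import Pool.Agent.Lib.MP_5591bc_ag.A.Set

/-! The Hodge metric and the complex structure at a point. -/

namespace Pool.Agent.Lib.MP_5591bc_ag.A

open Matrix Filter Topology Metric G R W M
open scoped ComplexOrder

noncomputable section

variable {ι ν α : Type*} [Fintype ι] [DecidableEq ι] [Fintype ν] [DecidableEq ν]
  {J γ : Matrix ν ν ℝ} {Ω Ω' : Matrix ι ν ℂ}

section aux
variable {a b c : Type*}

theorem cxa_mul [Fintype b] (A : Matrix a b ℝ) (B : Matrix b c ℝ) : cx (A * B) = cx A * cx B :=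
  Matrix.map_mul (f := Complex.ofRealHom)

theorem cxa_injective {A B : Matrix a b ℝ} (e : cx A = cx B) : A = B := by
  ext i j
  exact Complex.ofReal_injective (congrFun (congrFun e i) j)

theorem cxa_tr (A : Matrix a b ℝ) : cx Aᵀ = (cx A)ᵀ := rfl

theorem cxa_ct (A : Matrix a b ℝ) : (cx A)ᴴ = (cx A)ᵀ := by
  ext i j; simp

theorem cxa_star (A : Matrix a b ℝ) : (cx A).map star = cx A := by
  ext i j; simp

theorem cxa_one [DecidableEq a] : cx (1 : Matrix a a ℝ) = 1 :=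
  Matrix.map_one _ Complex.ofReal_zero Complex.ofReal_one

theorem cxa_add (A B : Matrix a b ℝ) : cx (A + B) = cx A + cx B := by
  ext i j; simp

theorem cxa_neg (A : Matrix a b ℝ) : cx (-A) = -cx A := by
  ext i j; simp

theorem cxa_smul (r : ℝ) (A : Matrix a b ℝ) : cx (r • A) = (r : ℂ) • cx A := by
  ext i j; simp

theorem cxs_mul [Fintype b] (A : Matrix a b ℂ) (B : Matrix b c ℂ) :
    (A * B).map star = A.map star * B.map star :=
  Matrix.map_mul (f := starRingEnd ℂ)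

theorem cxs_smul (z : ℂ) (A : Matrix a b ℂ) : (z • A).map star = star z • A.map star := by
  ext i j; simp

theorem cxs_st (A : Matrix a b ℂ) : (A.map star).map star = A := by
  ext i j; simp

theorem cxs_ct (A : Matrix a b ℂ) : Aᴴ.map star = Aᵀ := by
  ext i j; simp

theorem cxs_tr (A : Matrix a b ℂ) : Aᵀ.map star = Aᴴ := by
  ext i j; simp

theorem cxs_one [DecidableEq a] : (1 : Matrix a a ℂ).map star = 1 :=
  Matrix.map_one _ (star_zero _) (star_one _)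

theorem cxs_zero : (0 : Matrix a b ℂ).map star = 0 := by
  ext i j; simp

end aux

/-- the complex form of the Hodge metric -/
def cxaQ (J : Matrix ν ν ℝ) (Ω : Matrix ι ν ℂ) : Matrix ν ν ℂ := Ωᴴ * (Hm J Ω)⁻¹ * Ω

/-- a right inverse of `Ω` killed by the conjugate of `Ω` -/
def cxaA (J : Matrix ν ν ℝ) (Ω : Matrix ι ν ℂ) : Matrix ν ι ℂ :=
  (-Complex.I) • (cx J * Ωᴴ * (Hm J Ω)⁻¹)

omit [DecidableEq ν] in
theorem cxa_Sm : cx (Sm J Ω) = cxaQ J Ω + (cxaQ J Ω).map star := by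
  ext i j
  simp only [Sm, cxaQ, map_apply, of_apply, Matrix.add_apply, Complex.star_def, Complex.add_conj]

omit [DecidableEq ν] [DecidableEq ι] in
theorem Rie.cxa_pd (h : Rie J Ω) : (Hm J Ω).PosDef := h.2

omit [DecidableEq ν] in
theorem Rie.cxa_Qh (h : Rie J Ω) : (cxaQ J Ω)ᴴ = cxaQ J Ω := by
  rw [cxaQ, conjTranspose_mul, conjTranspose_mul, conjTranspose_conjTranspose,
    h.cxa_pd.inv.isHermitian.eq, Matrix.mul_assoc]

omit [DecidableEq ν] in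
theorem Rie.cxa_Qs (h : Rie J Ω) : (cxaQ J Ω).map star = (cxaQ J Ω)ᵀ := by
  rw [← cxs_ct, h.cxa_Qh]

omit [DecidableEq ν] in
theorem Rie.cxa_oa (h : Rie J Ω) : Ω * cxaA J Ω = 1 := by
  have := Matrix.mul_nonsing_inv (Hm J Ω) ((isUnit_iff_isUnit_det _).1 h.cxa_pd.isUnit)
  rw [← this, cxaA, Matrix.mul_smul, ← Matrix.mul_assoc, ← Matrix.mul_assoc, ← Matrix.smul_mul]
  rfl

omit [DecidableEq ν] in
theorem Rie.cxa_oa' (h : Rie J Ω) : Ω * (cxaA J Ω).map star = 0 := by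
  rw [cxaA, cxs_smul, cxs_mul, cxs_mul, cxa_star, cxs_ct, Matrix.mul_smul, ← Matrix.mul_assoc,
    ← Matrix.mul_assoc, h.1, Matrix.zero_mul, smul_zero]

theorem Rie.cxa_one (hc : Fintype.card ν = 2 * Fintype.card ι) (h : Rie J Ω) :
    cxaA J Ω * Ω + (cxaA J Ω).map star * Ω.map star = 1 := by
  have e1 : Ω.map star * (cxaA J Ω).map star = 1 := by rw [← cxs_mul, h.cxa_oa, cxs_one]
  have e2 : Ω.map star * cxaA J Ω = 0 := by
    rw [← cxs_st (cxaA J Ω), ← cxs_mul, h.cxa_oa', cxs_zero]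
  have e : fromRows Ω (Ω.map star) * fromCols (cxaA J Ω) ((cxaA J Ω).map star) = 1 := by
    rw [fromRows_mul_fromCols, h.cxa_oa, h.cxa_oa', e1, e2, fromBlocks_one]
  rw [← fromCols_mul_fromRows]
  exact (mul_eq_one_comm_of_equiv (Fintype.equivOfCardEq (by simp [hc, two_mul]))).1 e

theorem Rie.cxa_ext (hc : Fintype.card ν = 2 * Fintype.card ι) (h : Rie J Ω) {g g' : Matrix ν α ℂ}
    (h1 : Ω * g = Ω * g') (h2 : Ω.map star * g = Ω.map star * g') : g = g' := by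
  rw [← Matrix.one_mul g, ← Matrix.one_mul g', ← h.cxa_one hc]
  simp only [Matrix.add_mul, Matrix.mul_assoc, h1, h2]

omit [DecidableEq ν] in
theorem cxa_Cs : cx (Cs J Ω) =
    Complex.I • (cxaA J Ω * Ω) - Complex.I • ((cxaA J Ω).map star * Ω.map star) := by
  have e : cx J * cxaQ J Ω = Complex.I • (cxaA J Ω * Ω) := by
    rw [cxaA, cxaQ, Matrix.smul_mul, smul_smul]; simp [Matrix.mul_assoc]
  rw [Cs, cxa_mul, cxa_Sm, Matrix.mul_add, ← cxs_mul, sub_eq_add_neg, ← e]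
  congr 1
  rw [← cxa_star J, ← cxs_mul, e, cxs_smul]; simp

/-- `M = (Ω; conj Ω)` is square and `M J Mᵀ` is block antidiagonal with invertible blocks -/
theorem cx_inj (hJ : Jᵀ = -J) (hc : Fintype.card ν = 2 * Fintype.card ι) (h : Rie J Ω) {v : ν → ℂ}
    (h1 : Ω *ᵥ v = 0) (h2 : Ω.map star *ᵥ v = 0) : v = 0 := by
  rw [← one_mulVec v, ← h.cxa_one hc, add_mulVec, ← mulVec_mulVec, ← mulVec_mulVec, h1, h2]
  simp

theorem cx_det (hJ : Jᵀ = -J) (hc : Fintype.card ν = 2 * Fintype.card ι) (h : Rie J Ω) :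
    J.det ≠ 0 := by
  intro h0
  have e := h.cxa_one hc
  rw [cxaA, cxs_smul, cxs_mul, cxs_mul, cxa_star, Matrix.smul_mul, Matrix.smul_mul, Matrix.mul_assoc,
    Matrix.mul_assoc, Matrix.mul_assoc, Matrix.mul_assoc, ← Matrix.mul_smul (cx J),
    ← Matrix.mul_smul (cx J) (star _), ← Matrix.mul_add] at e
  have d := congrArg det e
  have : (cx J).det = 0 := by
    have := (Complex.ofRealHom.map_det J).symm
    rw [h0, map_zero] at this
    exact this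
  rw [det_mul, this] at d
  simp at d

theorem cx_ext (hJ : Jᵀ = -J) (hc : Fintype.card ν = 2 * Fintype.card ι) (h : Rie J Ω)
    {A A' : Matrix ν α ℝ} (e : Ω * cx A = Ω * cx A') : A = A' := by
  refine cxa_injective (h.cxa_ext hc e ?_)
  rw [← cxa_star A, ← cxa_star A', ← cxs_mul, ← cxs_mul, e]

theorem cx_quad (h : Rie J Ω) (v : ν → ℝ) : ((v ⬝ᵥ Sm J Ω *ᵥ v : ℝ) : ℂ) =
    2 * (star (Ω *ᵥ fun i => (v i : ℂ)) ⬝ᵥ (Hm J Ω)⁻¹ *ᵥ (Ω *ᵥ fun i => (v i : ℂ))) := by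
  set w : ν → ℂ := fun i => (v i : ℂ) with hw
  have e1 : ((v ⬝ᵥ Sm J Ω *ᵥ v : ℝ) : ℂ) = w ⬝ᵥ cx (Sm J Ω) *ᵥ w := by
    simp [dotProduct, mulVec, hw]
  have e2 : star w = w := by ext i; simp [hw]
  have e3 : star (Ω *ᵥ w) ⬝ᵥ (Hm J Ω)⁻¹ *ᵥ (Ω *ᵥ w) = w ⬝ᵥ cxaQ J Ω *ᵥ w := by
    rw [star_mulVec, e2, ← dotProduct_mulVec, mulVec_mulVec, mulVec_mulVec, cxaQ]
  rw [e1, e3, cxa_Sm, h.cxa_Qs, add_mulVec, dotProduct_add, mulVec_transpose, two_mul,
    dotProduct_comm w (w ᵥ* _), ← dotProduct_mulVec]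

theorem cx_sym (h : Rie J Ω) : (Sm J Ω)ᵀ = Sm J Ω := by
  refine cxa_injective ?_
  rw [cxa_tr, cxa_Sm, h.cxa_Qs, transpose_add, transpose_transpose, add_comm]

theorem cx_pd (hJ : Jᵀ = -J) (hc : Fintype.card ν = 2 * Fintype.card ι) (h : Rie J Ω) :
    (Sm J Ω).PosDef := by
  refine PosDef.of_dotProduct_mulVec_pos ?_ fun v hv => ?_
  · rw [IsHermitian, conjTranspose_eq_transpose_of_trivial, cx_sym h]
  · have n0 : (Ω *ᵥ fun i => (v i : ℂ)) ≠ 0 := by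
      intro h0
      refine hv ?_
      have := cx_inj hJ hc h h0 (by
        ext i
        have := congrArg star (congrFun h0 i)
        simpa [mulVec, dotProduct] using this)
      ext i
      simpa using congrFun this i
    have p := h.cxa_pd.inv.dotProduct_mulVec_pos n0
    have q := cx_quad h v
    rw [star_trivial, ← Complex.zero_lt_real, q]
    exact mul_pos two_pos p

theorem cx_eig (h : Rie J Ω) : Ω * cx (Cs J Ω) = Complex.I • Ω := by
  rw [cxa_Cs, Matrix.mul_sub, Matrix.mul_smul, Matrix.mul_smul, ← Matrix.mul_assoc,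
    ← Matrix.mul_assoc, h.cxa_oa, h.cxa_oa']
  simp

theorem cx_sq (hJ : Jᵀ = -J) (hc : Fintype.card ν = 2 * Fintype.card ι) (h : Rie J Ω) :
    Cs J Ω * Cs J Ω = -1 := by
  refine cx_ext hJ hc h ?_
  rw [cxa_mul, ← Matrix.mul_assoc, cx_eig h, Matrix.smul_mul, cx_eig h, smul_smul, cxa_neg, cxa_one]
  simp

omit [Fintype ι] [DecidableEq ι] [DecidableEq ν] in
theorem cxa_sp (hγ : γ * J * γᵀ = J) {b : Type*} (X : Matrix ν b ℂ) :
    Ω * cx γ * cx J * ((cx γ)ᵀ * X) = Ω * cx J * X := by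
  conv_rhs => rw [← hγ, cxa_mul, cxa_mul, cxa_tr]
  simp only [Matrix.mul_assoc]

theorem cx_rie (h : Rie J Ω) (hγ : γ * J * γᵀ = J) : Rie J (Ω * cx γ) := by
  constructor
  · rw [transpose_mul]; exact (cxa_sp hγ _).trans h.1
  · rw [conjTranspose_mul, cxa_ct, cxa_sp hγ]; exact h.2

theorem cx_S (hγ : γ * J * γᵀ = J) : Sm J (Ω * cx γ) = γᵀ * Sm J Ω * γ := by
  have eH : Hm J (Ω * cx γ) = Hm J Ω := by rw [Hm, Hm, conjTranspose_mul, cxa_ct, cxa_sp hγ]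
  have eQ : cxaQ J (Ω * cx γ) = (cx γ)ᵀ * cxaQ J Ω * cx γ := by
    rw [cxaQ, cxaQ, eH, conjTranspose_mul, cxa_ct]; simp only [Matrix.mul_assoc]
  refine cxa_injective ?_
  rw [cxa_mul, cxa_mul, cxa_Sm, cxa_Sm, eQ, cxs_mul, cxs_mul, ← cxa_tr, cxa_star, cxa_star, Matrix.mul_add,
    Matrix.add_mul]

theorem cx_hz (hγ : γ * J * γᵀ = J) (z : ℂ) : γ * hz J (Ω * cx γ) z = hz J Ω z * γ := by
  rw [hz, hz, Cs, Cs, cx_S hγ, Matrix.mul_add, Matrix.add_mul, Matrix.mul_smul, Matrix.mul_smul,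
    Matrix.smul_mul, Matrix.smul_mul, Matrix.mul_one, Matrix.one_mul]
  congr 2
  conv_rhs => rw [Matrix.mul_assoc]; enter [1]; rw [← hγ]
  simp only [Matrix.mul_assoc]

theorem cx_hz_eig (h : Rie J Ω) (z : ℂ) : Ω * cx (hz J Ω z) = z • Ω := by
  rw [hz, cxa_add, cxa_smul, cxa_smul, cxa_one, Matrix.mul_add, Matrix.mul_smul, Matrix.mul_smul,
    Matrix.mul_one, cx_eig h, smul_smul, ← add_smul, Complex.re_add_im]

theorem cx_hz_mul (hJ : Jᵀ = -J) (hc : Fintype.card ν = 2 * Fintype.card ι) (h : Rie J Ω)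
    (z z' : ℂ) : hz J Ω z * hz J Ω z' = hz J Ω (z * z') := by
  refine cx_ext hJ hc h ?_
  rw [cxa_mul, ← Matrix.mul_assoc, cx_hz_eig h, Matrix.smul_mul, cx_hz_eig h, cx_hz_eig h,
    smul_smul]

theorem cx_hz_of (hJ : Jᵀ = -J) (hc : Fintype.card ν = 2 * Fintype.card ι) (h : Rie J Ω) {z : ℂ}
    {g : Matrix ν ν ℂ} (h1 : Ω * g = z • Ω) (h2 : Ω.map star * g = star z • Ω.map star) :
    g = cx (hz J Ω z) := by
  refine h.cxa_ext hc (h1.trans (cx_hz_eig h z).symm) ?_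
  rw [h2, ← cxa_star (hz J Ω z), ← cxs_mul, cx_hz_eig h, cxs_smul]

/-- `1 = (1 - i I) / 2 + (1 + i I) / 2` and `1 - i I = -i J Ωᴴ H⁻¹ Ω * 2` on the eigenvectors -/
theorem cx_row (hJ : Jᵀ = -J) (hc : Fintype.card ν = 2 * Fintype.card ι) (h : Rie J Ω)
    (h' : Rie J Ω') (e : Cs J Ω' = Cs J Ω) : ∃ A : Matrix ι ι ℂ, Ω' = A * Ω := by
  refine ⟨Ω' * cxaA J Ω, ?_⟩
  have e1 := cx_eig h'
  have e2 := congrArg (Ω' * ·) (h.cxa_one hc)
  rw [e, cxa_Cs, Matrix.mul_sub, Matrix.mul_smul, Matrix.mul_smul, ← smul_sub,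
    smul_right_inj Complex.I_ne_zero] at e1
  simp only [Matrix.mul_add, Matrix.mul_one] at e2
  rw [Matrix.mul_assoc]
  have e3 : (2 : ℂ) • Ω' = (2 : ℂ) • (Ω' * (cxaA J Ω * Ω)) := by
    rw [two_smul, two_smul]
    calc Ω' + Ω' = _ + _ := congrArg₂ (· + ·) e1.symm e2.symm
      _ = _ := by abel
  exact (smul_right_inj two_ne_zero).1 e3

end

end Pool.Agent.Lib.MP_5591bc_ag.A
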