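import Pool.Agent.Lib.MP_5591bc_ag.A.Defs

/-! The Mumford-Tate group (this replaces `MT` of `A.Defs`, which is not a group in general and
is not used), and isolated points of the fibres of the period map. -/

namespace Pool.Agent.Lib.MP_5591bc_ag.A

open Matrix MvPolynomial Filter Topology

/-- `G` is a subgroup of `GL_n(ℂ)` defined by polynomial equations over `ℚ` -/
def QGrp {ν : Type*} [Fintype ν] [DecidableEq ν] (G : Set (Matrix ν ν ℂ)) : Prop :=
  (∃ E : Set (MvPolynomial (ν × ν) ℚ),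
    G = {g | g.det ≠ 0 ∧ ∀ p ∈ E, aeval (fun a => g a.1 a.2) p = 0}) ∧
  1 ∈ G ∧ ∀ a ∈ G, ∀ b ∈ G, a * b⁻¹ ∈ G

/-- The Mumford-Tate group of the Hodge structure whose `H^{1,0}` is spanned by the rows of `Ω`:
the smallest `ℚ`-algebraic subgroup of `GL_n(ℂ)` containing the maps that act by `z` on `H^{1,0}`
and by the conjugate of `z` on `H^{0,1}`. -/
def MTG {ι ν : Type*} [Fintype ν] [DecidableEq ν] (Ω : Matrix ι ν ℂ) : Set (Matrix ν ν ℂ) :=
  ⋂₀ {G | QGrp G ∧ ∀ (z : ℂ) (h : Matrix ν ν ℂ), z ≠ 0 → Ω * h = z • Ω →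
    Ω.map star * h = star z • Ω.map star → h ∈ G}

/-- the Mumford-Tate group contains the symplectic group of `J` -/
def BigMT {ι ν : Type*} [Fintype ν] [DecidableEq ν] (J : Matrix ν ν ℝ) (Ω : Matrix ι ν ℂ) : Prop :=
  ∀ g : Matrix ν ν ℂ, g * J.map Complex.ofReal * gᵀ = J.map Complex.ofReal → g ∈ MTG Ω

/-- `x` is isolated in its fibre of the period map: near `x` the row space of `Ω t` differs from
that of `Ω x` -/
def Iso {σ ι ν : Type*} [Fintype ι] (Ω : (σ → ℂ) → Matrix ι ν ℂ) (x : σ → ℂ) : Prop :=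
  ∀ᶠ t in 𝓝[≠] x, ¬ ∃ A : Matrix ι ι ℂ, Ω t = A * Ω x

end Pool.Agent.Lib.MP_5591bc_ag.A
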