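import Pool.Agent.Lib.MP_5591bc_ag.M.Defs

/-! Polarised period matrices of weight one and the Mumford-Tate group. -/

namespace Pool.Agent.Lib.MP_5591bc_ag.A

open Matrix MvPolynomial Filter Topology M
open scoped ComplexOrder

/-- Riemann's bilinear relations for the rows of `Ω` -/
def Rie {ι ν : Type*} [Fintype ι] [Fintype ν] (J : Matrix ν ν ℝ) (Ω : Matrix ι ν ℂ) : Prop :=
  Ω * J.map Complex.ofReal * Ωᵀ = 0 ∧ ((-Complex.I) • (Ω * J.map Complex.ofReal * Ωᴴ)).PosDef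

/-- The Mumford-Tate group of the Hodge structure whose `H^{1,0}` is spanned by the rows of `Ω`:
the `ℚ`-Zariski closure of the maps acting by `z` on `H^{1,0}` and by the conjugate of `z` on
`H^{0,1}`. -/
def MT {ι ν : Type*} [Fintype ν] (Ω : Matrix ι ν ℂ) : Set (Matrix ν ν ℂ) :=
  {g | ∀ p : MvPolynomial (ν × ν) ℚ, (∀ (z : ℂ) (h : Matrix ν ν ℂ), z ≠ 0 → Ω * h = z • Ω →
    Ω.map star * h = star z • Ω.map star → aeval (fun a => h a.1 a.2) p = 0) →
      aeval (fun a => g a.1 a.2) p = 0}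

/-- `J` polarises `P`, whose rows `r i` are the periods of the holomorphic forms: `P J Pᵀ` is
rational, Riemann's relations hold on all branches, and the branches at a point differ from a
given one by rational matrices with a common denominator. -/
def Pol {K σ ι ν : Type*} [Field K] [Algebra K ℂ] [Fintype σ] [Fintype ι] [Fintype ν]
    (T : MvPolynomial σ K) (U : Set (σ → ℂ)) (P : (σ → ℂ) → Matrix ν ν ℂ) (r : ι → ν)
    (J : Matrix ν ν ℝ) : Prop :=
  Jᵀ = -J ∧ (∃ (N : ℕ) (Λ : Matrix ν ν (MvPolynomial σ ℂ)), ∀ t ∈ U,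
    aeval t T ^ N • (P t * J.map Complex.ofReal * (P t)ᵀ) = Λ.map (eval t)) ∧
  ∀ U₁ P₁, ContM U P U₁ P₁ → ∀ t ∈ U₁, (aeval t T ≠ 0 → Rie J ((P₁ t).submatrix r id)) ∧
    ∃ D : ℕ, 0 < D ∧ ∀ U₂ P₂, ContM U P U₂ P₂ → t ∈ U₂ → ∃ γ : Matrix ν ν ℤ,
      ∀ᶠ z in 𝓝 t, (D : ℂ) • P₂ z = P₁ z * γ.map Int.cast

end Pool.Agent.Lib.MP_5591bc_ag.A
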