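import Pool.Agent.Lib.MP_5591bc_ag.A.Cx

/-! The Schwarz lemma for the Hodge metric. -/

namespace Pool.Agent.Lib.MP_5591bc_ag.A

open Matrix Filter Topology Metric G R W M
open scoped ComplexOrder

noncomputable section

section
variable {ι ν : Type*} [Fintype ι] [DecidableEq ι] [Fintype ν] [DecidableEq ν]

theorem harn_det {A : ℂ → Matrix ι ι ℂ} {z : ℂ} (h : ∀ i j, AnalyticAt ℂ (A · i j) z) :
    AnalyticAt ℂ (fun w => (A w).det) z := by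
  simp only [det_apply']
  exact Finset.analyticAt_fun_sum _ fun s _ => analyticAt_const.mul
    (Finset.analyticAt_fun_prod _ fun i _ => h _ _)

theorem harn_inv {A : ℂ → Matrix ι ι ℂ} {z : ℂ} (h : ∀ i j, AnalyticAt ℂ (A · i j) z)
    (hd : (A z).det ≠ 0) (i j : ι) : AnalyticAt ℂ (fun w => (A w)⁻¹ i j) z := by
  simp only [inv_def, Matrix.smul_apply, Ring.inverse_eq_inv', adjugate_apply, smul_eq_mul]
  refine ((harn_det h).inv hd).mul (harn_det fun k l => ?_)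
  simp only [updateRow_apply]
  split_ifs
  · exact analyticAt_const
  · exact h k l

omit [DecidableEq ι] in
theorem harn_herm {H : Matrix ι ι ℂ} (hH : H.IsHermitian) (a y : ι → ℂ) :
    star y ⬝ᵥ H *ᵥ star a = star (a ⬝ᵥ H *ᵥ y) := by
  rw [← star_dotProduct_star, star_mulVec, hH.eq, ← dotProduct_mulVec]

theorem harn_lin {H : Matrix ι ι ℂ} (hH : H.PosDef) (a x : ι → ℂ) :
    2 * (a ⬝ᵥ x).re - (a ⬝ᵥ H *ᵥ star a).re ≤ (star x ⬝ᵥ H⁻¹ *ᵥ x).re := by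
  obtain ⟨y, rfl⟩ : ∃ y, x = H *ᵥ y := ⟨H⁻¹ *ᵥ x, by
    rw [mulVec_mulVec, mul_nonsing_inv _ ((isUnit_iff_isUnit_det _).1 hH.isUnit), one_mulVec]⟩
  rw [mulVec_mulVec, nonsing_inv_mul _ ((isUnit_iff_isUnit_det _).1 hH.isUnit), one_mulVec,
    star_mulVec, hH.1.eq, ← dotProduct_mulVec]
  have h := (Complex.nonneg_iff.1 (hH.posSemidef.dotProduct_mulVec_nonneg (star a - y))).1
  rw [star_sub, star_star, mulVec_sub, sub_dotProduct, dotProduct_sub, dotProduct_sub,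
    harn_herm hH.1 a y] at h
  simp only [Complex.sub_re, Complex.star_def, Complex.conj_re] at h
  linarith

variable {J : Matrix ν ν ℝ} {Ω₀ Ω : Matrix ι ν ℂ}

omit [DecidableEq ι] [DecidableEq ν] in
theorem harn_bar (h : Rie J Ω₀) : Ω₀.map star * cx J * Ω₀ᴴ = 0 := by
  have e := congrArg (fun A : Matrix ι ι ℂ => A.map (starRingEnd ℂ)) h.1
  simp only [Matrix.map_mul] at e
  rw [Matrix.map_zero _ (map_zero _)] at e
  have e1 : (J.map Complex.ofReal).map (starRingEnd ℂ) = cx J := by ext i j; simp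
  rw [e1] at e
  exact e

theorem harn_dec (hJ : Jᵀ = -J) (hc : Fintype.card ν = 2 * Fintype.card ι) (h : Rie J Ω₀) :
    ∃ L L' : Matrix ν ι ℂ, L * Ω₀ + L' * Ω₀.map star = 1 ∧ Ω₀ * L = 1 := by
  obtain ⟨g, hg⟩ := LinearMap.exists_leftInverse_of_injective
    (toLin' (fromRows Ω₀ (Ω₀.map star))) (LinearMap.ker_eq_bot'.2 fun v hv => by
      rw [toLin'_apply, fromRows_mulVec] at hv
      exact cx_inj hJ hc h (funext fun i => congrFun hv (.inl i))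
        (funext fun i => congrFun hv (.inr i)))
  have e := congrArg LinearMap.toMatrix' hg
  rw [LinearMap.toMatrix'_comp, LinearMap.toMatrix'_toLin', LinearMap.toMatrix'_id,
    ← fromCols_toCols (LinearMap.toMatrix' g), fromCols_mul_fromRows] at e
  refine ⟨_, _, e, ?_⟩
  generalize (LinearMap.toMatrix' g).toCols₁ = L at e ⊢
  generalize (LinearMap.toMatrix' g).toCols₂ = L' at e
  have u := (isUnit_iff_isUnit_det _).1 h.2.isUnit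
  have e2 : Ω₀ * L * ((-Complex.I) • (Ω₀ * cx J * Ω₀ᴴ)) = (-Complex.I) • (Ω₀ * cx J * Ω₀ᴴ) := by
    have e3 := congrArg (fun A => Ω₀ * A * cx J * Ω₀ᴴ) e
    have e4 : Ω₀ * (L' * Ω₀.map star) * cx J * Ω₀ᴴ = Ω₀ * L' * (Ω₀.map star * cx J * Ω₀ᴴ) := by
      simp only [Matrix.mul_assoc]
    simp only [Matrix.mul_add, Matrix.add_mul, e4, harn_bar h, Matrix.mul_zero, add_zero,
      Matrix.mul_one] at e3
    rw [Matrix.mul_smul]
    congr 1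
    rw [← e3]
    simp only [Matrix.mul_assoc] at e3 ⊢
    rw [e3, e3]
  have e5 := congrArg (· * ((-Complex.I) • (Ω₀ * cx J * Ω₀ᴴ))⁻¹) e2
  simpa only [Matrix.mul_assoc (Ω₀ * L), mul_nonsing_inv _ u, Matrix.mul_one] using e5

theorem harn_form (hJ : Jᵀ = -J) (h : Rie J Ω₀) (A B : Matrix ι ι ℂ) :
    Hm J (A * Ω₀ + B * Ω₀.map star) = A * Hm J Ω₀ * Aᴴ - B * (Hm J Ω₀)ᵀ * Bᴴ := by
  have e1 : (Ω₀.map star)ᴴ = Ω₀ᵀ := by ext i j; simp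
  have e2 : (cx J)ᵀ = -cx J := by
    ext i j
    have := congrFun (congrFun hJ i) j
    simp only [transpose_apply, Matrix.neg_apply] at this
    simp [this]
  have e3 : (Ω₀ * cx J * Ω₀ᴴ)ᵀ = -(Ω₀.map star * cx J * Ω₀ᵀ) := by
    rw [transpose_mul, transpose_mul, e2, Matrix.neg_mul, Matrix.mul_neg, Matrix.mul_assoc]
    rfl
  have e4 : (A * Ω₀ + B * Ω₀.map star) * cx J * (A * Ω₀ + B * Ω₀.map star)ᴴ =
      A * (Ω₀ * cx J * Ω₀ᴴ) * Aᴴ + A * (Ω₀ * cx J * Ω₀ᵀ) * Bᴴ +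
      (B * (Ω₀.map star * cx J * Ω₀ᴴ) * Aᴴ + B * (Ω₀.map star * cx J * Ω₀ᵀ) * Bᴴ) := by
    rw [conjTranspose_add, conjTranspose_mul, conjTranspose_mul, e1]
    simp only [Matrix.mul_add, Matrix.add_mul, Matrix.mul_assoc]
    abel
  rw [Hm, Hm, e4, harn_bar h, show Ω₀ * cx J * Ω₀ᵀ = 0 from h.1, transpose_smul, e3]
  simp only [Matrix.mul_zero, Matrix.zero_mul, add_zero, zero_add, smul_add, Matrix.mul_smul,
    Matrix.smul_mul, smul_neg, Matrix.mul_neg, Matrix.neg_mul, sub_neg_eq_add]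

theorem harn_row (hJ : Jᵀ = -J) (h : Rie J Ω₀) (A B : Matrix ι ι ℂ) (a : ι → ℂ) :
    a ⬝ᵥ Hm J (A * Ω₀ + B * Ω₀.map star) *ᵥ star a =
      a ᵥ* A ⬝ᵥ Hm J Ω₀ *ᵥ star (a ᵥ* A) - star (a ᵥ* B) ⬝ᵥ Hm J Ω₀ *ᵥ (a ᵥ* B) := by
  rw [harn_form hJ h, sub_mulVec, dotProduct_sub, ← mulVec_mulVec, ← mulVec_mulVec,
    ← mulVec_mulVec, ← mulVec_mulVec, dotProduct_mulVec a, dotProduct_mulVec a, ← star_vecMul,
    ← star_vecMul, mulVec_transpose, dotProduct_comm (a ᵥ* B), ← dotProduct_mulVec (star _)]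

theorem harn_unit (hJ : Jᵀ = -J) (h₀ : Rie J Ω₀) {A B : Matrix ι ι ℂ}
    (h : Rie J (A * Ω₀ + B * Ω₀.map star)) : A.det ≠ 0 := fun hd => by
  obtain ⟨a, a0, ha⟩ := exists_vecMul_eq_zero_iff.2 hd
  have p1 := h.2.dotProduct_mulVec_pos (star_ne_zero.2 a0)
  have p2 := h₀.2.posSemidef.dotProduct_mulVec_nonneg (a ᵥ* B)
  have e := harn_row hJ h₀ A B a
  rw [ha, zero_dotProduct, zero_sub] at e
  rw [star_star] at p1
  exact (neg_pos.1 (e ▸ p1)).not_ge p2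

theorem harn_pt (hJ : Jᵀ = -J) (h₀ : Rie J Ω₀) {A B : Matrix ι ι ℂ}
    (h : Rie J (A * Ω₀ + B * Ω₀.map star)) {v : ν → ℂ} (hv : star v = v) {a a₀ : ι → ℂ}
    (ha : a ᵥ* A = a₀) {q : ℝ} (h1 : (a₀ ⬝ᵥ Hm J Ω₀ *ᵥ star a₀).re = q)
    (h2 : (star (Ω₀ *ᵥ v) ⬝ᵥ (Hm J Ω₀)⁻¹ *ᵥ (Ω₀ *ᵥ v)).re = q) :
    (a ⬝ᵥ Hm J (A * Ω₀ + B * Ω₀.map star) *ᵥ star a).re ≤ q ∧
      ‖a ⬝ᵥ (A * Ω₀ + B * Ω₀.map star) *ᵥ v - a₀ ⬝ᵥ Ω₀ *ᵥ v‖ ≤ q := by
  have p1 := (Complex.nonneg_iff.1 (h.2.posSemidef.dotProduct_mulVec_nonneg (star a))).1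
  have p2 := (Complex.nonneg_iff.1 (h₀.2.posSemidef.dotProduct_mulVec_nonneg (a ᵥ* B))).1
  have e := congrArg Complex.re (harn_row hJ h₀ A B a)
  rw [Complex.sub_re, ha, h1] at e
  rw [star_star] at p1
  change 0 ≤ (a ⬝ᵥ Hm J (A * Ω₀ + B * Ω₀.map star) *ᵥ star a).re at p1
  change 0 ≤ (star (a ᵥ* B) ⬝ᵥ Hm J Ω₀ *ᵥ (a ᵥ* B)).re at p2
  refine ⟨by linarith, ?_⟩
  have e1 : Ω₀.map star *ᵥ v = star (Ω₀ *ᵥ v) := by
    ext i
    have : ∀ j, star (v j) = v j := congrFun hv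
    simp only [mulVec, dotProduct, map_apply, Pi.star_apply, star_sum, star_mul', this]
  rw [add_mulVec, dotProduct_add, ← mulVec_mulVec, ← mulVec_mulVec, dotProduct_mulVec a,
    dotProduct_mulVec a, ha, add_sub_cancel_left, e1, ← norm_star, ← star_dotProduct_star,
    star_star, dotProduct_comm]
  obtain ⟨c, c1, c2⟩ := Complex.exists_norm_eq_mul_self (star (a ᵥ* B) ⬝ᵥ Ω₀ *ᵥ v)
  have p3 := harn_lin (H := Hm J Ω₀) h₀.2 (c • star (a ᵥ* B)) (Ω₀ *ᵥ v)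
  have c3 : c * star c = 1 := by
    rw [Complex.star_def, Complex.mul_conj', c1]
    norm_num
  rw [smul_dotProduct, smul_eq_mul, ← c2, Complex.ofReal_re, h2, star_smul, star_star,
    mulVec_smul, smul_dotProduct, dotProduct_smul, smul_smul, c3, one_smul] at p3
  linarith

end

theorem harnS {ι ν : Type*} [Fintype ι] [DecidableEq ι] [Fintype ν] [DecidableEq ν]
    {J : Matrix ν ν ℝ} (hJ : Jᵀ = -J) (hc : Fintype.card ν = 2 * Fintype.card ι)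
    {Ω : ℂ → Matrix ι ν ℂ} {R : ℝ} (hΩ : ∀ i j, AnalyticOnNhd ℂ (Ω · i j) (ball 0 R))
    (h : ∀ w ∈ ball (0 : ℂ) R, Rie J (Ω w)) {ζ : ℂ} (hζ : ζ ∈ ball (0 : ℂ) R) :
    (((1 - ‖ζ‖ / R) ^ 2)⁻¹ • Sm J (Ω ζ) - Sm J (Ω 0)).PosSemidef := by
  have hζ' : ‖ζ‖ < R := mem_ball_zero_iff.1 hζ
  have R0 : 0 < R := (norm_nonneg ζ).trans_lt hζ'
  have h₀ := h 0 (mem_ball_self R0)
  have t0 : 0 < 1 - ‖ζ‖ / R := sub_pos.2 ((div_lt_one R0).2 hζ')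
  refine PosSemidef.of_dotProduct_mulVec_nonneg ?_ fun v => ?_
  · rw [IsHermitian, conjTranspose_eq_transpose_of_trivial, transpose_sub, transpose_smul,
      cx_sym h₀, cx_sym (h ζ hζ)]
  obtain ⟨L, L', hL, hL'⟩ := harn_dec hJ hc h₀
  have dec : ∀ w, Ω w * L * Ω 0 + Ω w * L' * (Ω 0).map star = Ω w := fun w => by
    rw [Matrix.mul_assoc, Matrix.mul_assoc, ← Matrix.mul_add, hL, Matrix.mul_one]
  have un : ∀ w ∈ ball (0 : ℂ) R, (Ω w * L).det ≠ 0 := fun w hw =>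
    harn_unit (B := Ω w * L') hJ h₀ (by rw [dec]; exact h w hw)
  have q0 := congrArg Complex.re (cx_quad h₀ v)
  have q1 := congrArg Complex.re (cx_quad (h ζ hζ) v)
  have hv : star (fun i => (v i : ℂ)) = fun i => (v i : ℂ) := by ext i; simp
  generalize (fun i => (v i : ℂ)) = x at q0 q1 hv
  rw [Complex.ofReal_re, two_mul, Complex.add_re, ← two_mul] at q0 q1
  set q := (star (Ω 0 *ᵥ x) ⬝ᵥ (Hm J (Ω 0))⁻¹ *ᵥ (Ω 0 *ᵥ x)).re with hq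
  set a₀ := star ((Hm J (Ω 0))⁻¹ *ᵥ (Ω 0 *ᵥ x)) with ha₀
  have u₀ := (isUnit_iff_isUnit_det (Hm J (Ω 0))).1 h₀.2.isUnit
  have b1 : (a₀ ⬝ᵥ Ω 0 *ᵥ x).re = q := by
    rw [ha₀, hq, star_dotProduct, Complex.star_def, Complex.conj_re]
  have b2 : (a₀ ⬝ᵥ Hm J (Ω 0) *ᵥ star a₀).re = q := by
    rw [← b1, ha₀, star_star, mulVec_mulVec (Ω 0 *ᵥ x), mul_nonsing_inv _ u₀, one_mulVec]
  have pt : ∀ w ∈ ball (0 : ℂ) R,
      (a₀ ᵥ* (Ω w * L)⁻¹ ⬝ᵥ Hm J (Ω w) *ᵥ star (a₀ ᵥ* (Ω w * L)⁻¹)).re ≤ q ∧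
        ‖a₀ ᵥ* (Ω w * L)⁻¹ ⬝ᵥ Ω w *ᵥ x - a₀ ⬝ᵥ Ω 0 *ᵥ x‖ ≤ q := fun w hw => by
    have := harn_pt (A := Ω w * L) (B := Ω w * L') hJ h₀ (by rw [dec]; exact h w hw) hv
      (a := a₀ ᵥ* (Ω w * L)⁻¹) (a₀ := a₀) (by
        rw [vecMul_vecMul, nonsing_inv_mul _ (un w hw).isUnit, vecMul_one]) b2 rfl
    rwa [dec] at this
  have f0 : a₀ ᵥ* (Ω 0 * L)⁻¹ ⬝ᵥ Ω 0 *ᵥ x = a₀ ⬝ᵥ Ω 0 *ᵥ x := by rw [hL', inv_one, vecMul_one]
  have sch := Complex.dist_le_div_mul_dist_of_mapsTo_ball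
    (f := fun w => a₀ ᵥ* (Ω w * L)⁻¹ ⬝ᵥ Ω w *ᵥ x) (c := 0) (R₁ := R) (R₂ := q) (fun w hw => by
      refine (AnalyticAt.differentiableAt ?_).differentiableWithinAt
      have a1 : ∀ i j, AnalyticAt ℂ (fun w => (Ω w * L) i j) w := fun i j => by
        simp only [mul_apply]
        exact Finset.analyticAt_fun_sum _ fun k _ => (hΩ i k w hw).mul analyticAt_const
      simp only [dotProduct, vecMul, mulVec]
      exact Finset.analyticAt_fun_sum _ fun i _ => (Finset.analyticAt_fun_sum _ fun k _ =>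
        analyticAt_const.mul (harn_inv a1 (un w hw) k i)).mul
          (Finset.analyticAt_fun_sum _ fun k _ => (hΩ i k w hw).mul analyticAt_const))
    (fun w hw => by
      rw [mem_closedBall, dist_eq_norm, f0]
      exact (pt w hw).2) hζ
  rw [dist_eq_norm, f0, dist_zero_right] at sch
  have c1 := (abs_le.1 ((Complex.abs_re_le_norm _).trans sch)).1
  rw [Complex.sub_re, b1] at c1
  have c2 := (pt ζ hζ).1
  have c3 := harn_lin (H := Hm J (Ω ζ)) (h ζ hζ).2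
    (((1 - ‖ζ‖ / R : ℝ) : ℂ) • (a₀ ᵥ* (Ω ζ * L)⁻¹)) (Ω ζ *ᵥ x)
  rw [smul_dotProduct, star_smul, mulVec_smul, smul_dotProduct, dotProduct_smul, smul_eq_mul,
    smul_eq_mul, smul_eq_mul, Complex.star_def, Complex.conj_ofReal, Complex.re_ofReal_mul,
    Complex.re_ofReal_mul, Complex.re_ofReal_mul] at c3
  rw [star_trivial, sub_mulVec, dotProduct_sub, smul_mulVec, dotProduct_smul, q0, q1, smul_eq_mul,
    sub_nonneg, le_inv_mul_iff₀ (by positivity)]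
  have c4 : q / R * ‖ζ‖ = q * (‖ζ‖ / R) := by ring
  rw [c4] at c1
  generalize ‖ζ‖ / R = r at *
  nlinarith [mul_le_mul_of_nonneg_left c2 (mul_pos t0 t0).le,
    mul_le_mul_of_nonneg_left c1 t0.le]

end

end Pool.Agent.Lib.MP_5591bc_ag.A
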