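import Pool.Agent.Lib.MP_5591bc_ag.A.Lap
import Pool.Agent.Lib.MP_5591bc_ag.A.Harn

/-! The theorem of the fixed part. -/

namespace Pool.Agent.Lib.MP_5591bc_ag.A

open Matrix Filter Topology Metric G R W M

noncomputable section

theorem fix_cover {β : Type*} (s : Finset β) {g : β → ℂ → ℝ} {O : Set ℂ} (ho : IsOpen O)
    (hn : O.Nonempty) (hg : ∀ i ∈ s, ContinuousOn (g i) O) (h : ∀ u ∈ O, ∃ i ∈ s, g i u = 0) :
    ∃ i ∈ s, ∃ u ∈ O, ∀ᶠ v in 𝓝 u, g i v = 0 := by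
  classical
  induction s using Finset.induction_on generalizing O with
  | empty => exact absurd (h _ hn.some_mem) (by simp)
  | insert i s hi ih =>
    by_cases h0 : ∀ u ∈ O, g i u = 0
    · exact ⟨i, Finset.mem_insert_self _ _, _, hn.some_mem,
        mem_of_superset (ho.mem_nhds hn.some_mem) h0⟩
    push Not at h0
    obtain ⟨j, hj, u, hu, e⟩ := ih (O := O ∩ g i ⁻¹' {0}ᶜ)
      ((hg i (Finset.mem_insert_self _ _)).isOpen_inter_preimage ho isOpen_compl_singleton) h0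
      (fun j hj => (hg j (Finset.mem_insert_of_mem hj)).mono Set.inter_subset_left) fun u hu => by
        obtain ⟨j, hj, e⟩ := h u hu.1
        rcases Finset.mem_insert.1 hj with rfl | hj
        exacts [absurd e hu.2, ⟨j, hj, e⟩]
    exact ⟨j, Finset.mem_insert_of_mem hj, u, hu.1, e⟩

theorem fix_exp (C : ℝ) (k : ℕ) {η : ℝ} (h : 0 < η) :
    ∀ᶠ x : ℝ in atTop, x ^ k * C ≤ Real.exp (η * x) := by
  filter_upwards [((isLittleO_pow_exp_pos_mul_atTop k h).const_mul_left C).eventuallyLE] with x hx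
  rw [mul_comm]
  exact (le_abs_self _).trans (hx.trans (abs_of_pos (Real.exp_pos _)).le)

section
variable {ι ν α : Type*} [Fintype ι] [DecidableEq ι] [Fintype ν] [DecidableEq ν] [Fintype α]
  [DecidableEq α] {J : Matrix ν ν ℝ} {Z : Finset ℂ} {Γ : Set (Matrix ν ν ℝ)}
  {𝓑 : Set (Set ℂ × (ℂ → Matrix ι ν ℂ))} {m : ℕ} {ρ : Matrix ν ν ℝ → Matrix α α ℝ}
  {d : Matrix ν ν ℝ →ₗ[ℝ] Matrix α α ℝ} {e : α → ℝ}

variable (J ρ e) in
/-- the Hodge norm of `e` -/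
def fixN (Ω : Matrix ι ν ℂ) : ℝ := e ⬝ᵥ ρ (Sm J Ω) *ᵥ e

variable (J 𝓑 ρ e) in
/-- its largest value on the branches at a point -/
def fixF (u : ℂ) : ℝ := sSup {x | ∃ b ∈ 𝓑, u ∈ b.1 ∧ x = fixN J ρ e (b.2 u)}

theorem fix_inv (hρ : RepD m ρ d) {γ : Matrix ν ν ℝ} (hγ : γ * J * γᵀ = J)
    (he : ρ γ *ᵥ e = e ∨ ρ γ *ᵥ e = -e) (Ω : Matrix ι ν ℂ) :
    fixN J ρ e (Ω * cx γ) = fixN J ρ e Ω := by
  rw [fixN, fixN, cx_S hγ, hρ.mul, hρ.mul, hρ.tr, ← mulVec_mulVec, ← mulVec_mulVec,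
    dotProduct_mulVec e, vecMul_transpose]
  rcases he with he | he <;> simp [he, mulVec_neg]

theorem fix_an (h : Fam J Z Γ 𝓑) (hρ : RepD m ρ d) {b : Set ℂ × (ℂ → Matrix ι ν ℂ)} (hb : b ∈ 𝓑) :
    AnalyticOnNhd ℝ (fun u => fixN J ρ e (b.2 u)) b.1 := fun u hu =>
  lap_an hρ (fun i j => h.an b hb i j u hu) (h.rie b hb u hu) e

theorem fix_loc (h : Fam J Z Γ 𝓑) (hρ : RepD m ρ d)
    (he : ∀ γ ∈ Γ, ρ γ *ᵥ e = e ∨ ρ γ *ᵥ e = -e) {c : ℂ} (hc : c ∉ Z) :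
    ∃ r > 0, ∃ (s : Finset (ℂ → Matrix ι ν ℂ)) (hs : s.Nonempty), (∀ Ω ∈ s, (ball c r, Ω) ∈ 𝓑) ∧
      ∀ u ∈ ball c r, fixF J 𝓑 ρ e u = s.sup' hs (fun Ω => fixN J ρ e (Ω u)) ∧
        ∀ b ∈ 𝓑, u ∈ b.1 → fixN J ρ e (b.2 u) ≤ fixF J 𝓑 ρ e u := by
  obtain ⟨r, r0, 𝒥, h1, h2, h3, h4⟩ := h.fin c hc
  lift 𝒥 to Finset (ℂ → Matrix ι ν ℂ) using h1
  replace h2 : 𝒥.Nonempty := Finset.coe_nonempty.1 h2
  refine ⟨r, r0, 𝒥, h2, h3, fun u hu => ?_⟩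
  have k : IsGreatest {x | ∃ b ∈ 𝓑, u ∈ b.1 ∧ x = fixN J ρ e (b.2 u)}
      (𝒥.sup' h2 fun Ω => fixN J ρ e (Ω u)) := by
    constructor
    · obtain ⟨Ω, hΩ, e1⟩ := 𝒥.exists_mem_eq_sup' h2 fun Ω => fixN J ρ e (Ω u)
      exact ⟨(ball c r, Ω), h3 Ω hΩ, hu, e1⟩
    · rintro _ ⟨b, hb, hu', rfl⟩
      obtain ⟨Ω, hΩ, γ, hγ, e1⟩ := h4 b hb u hu' hu
      rw [e1, fix_inv hρ (h.sp γ hγ) (he γ hγ)]
      exact Finset.le_sup' (fun Ω : ℂ → Matrix ι ν ℂ => fixN J ρ e (Ω u)) (Finset.mem_coe.1 hΩ)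
  exact ⟨k.csSup_eq, fun b hb hu' => (k.2 ⟨b, hb, hu', rfl⟩).trans k.csSup_eq.ge⟩

theorem fix_le (h : Fam J Z Γ 𝓑) (hρ : RepD m ρ d)
    (he : ∀ γ ∈ Γ, ρ γ *ᵥ e = e ∨ ρ γ *ᵥ e = -e) {u : ℂ} (hu : u ∉ Z) :
    (∃ b ∈ 𝓑, u ∈ b.1 ∧ fixF J 𝓑 ρ e u = fixN J ρ e (b.2 u)) ∧
      (∀ b ∈ 𝓑, u ∈ b.1 → fixN J ρ e (b.2 u) ≤ fixF J 𝓑 ρ e u) ∧
      ContinuousAt (fixF J 𝓑 ρ e) u := by
  obtain ⟨r, r0, s, hs, h1, h2⟩ := fix_loc h hρ he hu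
  obtain ⟨Ω, hΩ, e1⟩ := s.exists_mem_eq_sup' hs fun Ω => fixN J ρ e (Ω u)
  have k : ∀ Ω ∈ s, ContinuousAt (fun v => fixN J ρ e (Ω v)) u := fun Ω hΩ =>
    (fix_an (e := e) h hρ (h1 Ω hΩ) u (mem_ball_self r0)).continuousAt
  have k1 := ContinuousAt.finset_sup'_apply hs k
  refine ⟨⟨(ball u r, Ω), h1 Ω hΩ, mem_ball_self r0, (h2 u (mem_ball_self r0)).1.trans e1⟩,
    (h2 u (mem_ball_self r0)).2, k1.congr ?_⟩
  filter_upwards [ball_mem_nhds u r0] with v hv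
  exact (h2 v hv).1.symm

theorem fix_harn (hJ : Jᵀ = -J) (hc : Fintype.card ν = 2 * Fintype.card ι) (h : Fam J Z Γ 𝓑)
    (hρ : RepD m ρ d) (he : ∀ γ ∈ Γ, ρ γ *ᵥ e = e ∨ ρ γ *ᵥ e = -e) {u s ζ : ℂ} {L : ℝ}
    (hL : 1 ≤ L) (hs : u ≠ s) (hζ : ‖ζ‖ = L - 1)
    (hZ : ∀ ζ ∈ ball (0 : ℂ) L, s + (u - s) * Complex.exp ζ ∉ Z) :
    fixF J 𝓑 ρ e u ≤ (L ^ 2) ^ m * fixF J 𝓑 ρ e (s + (u - s) * Complex.exp ζ) := by
  have m0 : (0 : ℂ) ∈ ball (0 : ℂ) L := mem_ball_self (by linarith)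
  have m1 : ζ ∈ ball (0 : ℂ) L := mem_ball_zero_iff.2 (by linarith)
  obtain ⟨b, hb, hu, e1⟩ := (fix_le h hρ he (u := u) (by simpa using hZ 0 m0)).1
  obtain ⟨Ω, h1, h2, h3⟩ := h.ext b hb u hu s L hs hZ
  have hR : ∀ w ∈ ball (0 : ℂ) L, Rie J (Ω w) := fun w hw => by
    obtain ⟨b', hb', k1, k2⟩ := h3 w hw
    exact k2 ▸ h.rie b' hb' _ k1
  have h4 := harnS hJ hc h1 hR m1
  rw [show ((1 - ‖ζ‖ / L) ^ 2)⁻¹ = L ^ 2 by rw [hζ]; field_simp; ring] at h4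
  have h5 := (hρ.mono _ _ _ (one_le_pow₀ hL) (cx_pd hJ hc (hR 0 m0)).posSemidef
    h4).dotProduct_mulVec_nonneg e
  rw [star_trivial, sub_mulVec, dotProduct_sub, smul_mulVec, dotProduct_smul, sub_nonneg] at h5
  obtain ⟨b', hb', k1, k2⟩ := h3 ζ m1
  rw [e1, ← h2]
  refine le_trans h5 (mul_le_mul_of_nonneg_left ?_ (by positivity))
  rw [k2]
  exact (fix_le h hρ he (hZ ζ m1)).2.1 b' hb' k1

theorem fix_bd (hJ : Jᵀ = -J) (hc : Fintype.card ν = 2 * Fintype.card ι) (h : Fam J Z Γ 𝓑)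
    (hρ : RepD m ρ d) (he : ∀ γ ∈ Γ, ρ γ *ᵥ e = e ∨ ρ γ *ᵥ e = -e) {s : ℂ} {a ε η : ℝ}
    (hε : ε = 1 ∨ ε = -1) (hZ : ∀ w, w ≠ s → ε * Real.log ‖w - s‖ < ε * a → w ∉ Z)
    (hη : 0 < η) : ∀ᶠ L in atTop, ∀ u, u ≠ s → L = ε * (a - Real.log ‖u - s‖) →
      fixF J 𝓑 ρ e u ≤ ‖u - s‖ ^ (-(ε * η)) := by
  have e2 : ε * ε = 1 := by rcases hε with rfl | rfl <;> norm_num
  have e1 : |ε| = 1 := by rcases hε with rfl | rfl <;> norm_num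
  obtain ⟨M, hM⟩ := (isCompact_sphere s (Real.exp (a - ε))).exists_bound_of_continuousOn
    (f := fixF J 𝓑 ρ e) fun w hw => by
      rw [mem_sphere_iff_norm] at hw
      refine (fix_le h hρ he (hZ w (fun k => ?_) ?_)).2.2.continuousWithinAt
      · rw [k, sub_self, norm_zero] at hw
        exact (Real.exp_pos _).ne hw
      · rw [hw, Real.log_exp]
        linarith
  filter_upwards [fix_exp (M * Real.exp (ε * η * a)) (2 * m) hη, eventually_ge_atTop 1]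
    with L h1 h2 u hu hL
  have u0 : 0 < ‖u - s‖ := norm_pos_iff.2 (sub_ne_zero.2 hu)
  have hn : ∀ ζ : ℂ, ‖s + (u - s) * Complex.exp ζ - s‖ = Real.exp (Real.log ‖u - s‖ + ζ.re) :=
    fun ζ => by rw [add_sub_cancel_left, norm_mul, Complex.norm_exp, Real.exp_add, Real.exp_log u0]
  have h3 := fix_harn hJ hc h hρ he (ζ := (ε * (L - 1) : ℝ)) h2 hu
    (by rw [Complex.norm_real, Real.norm_eq_abs, abs_mul, e1, one_mul, abs_of_nonneg (by linarith)])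
    fun ζ hζ => hZ _ (fun k => by
      have := hn ζ
      rw [k, sub_self, norm_zero] at this
      exact (Real.exp_pos _).ne this) (by
      have k1 := (Complex.abs_re_le_norm ζ).trans_lt (mem_ball_zero_iff.1 hζ)
      have k2 : ε * ζ.re ≤ |ζ.re| := (le_abs_self _).trans (by rw [abs_mul, e1, one_mul])
      rw [hn, Real.log_exp]
      linarith)
  have h4 := (le_abs_self _).trans (hM (s + (u - s) * Complex.exp (ε * (L - 1) : ℝ)) (by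
    rw [mem_sphere_iff_norm, hn, Complex.ofReal_re, hL]
    congr 1
    linear_combination (a - Real.log ‖u - s‖) * e2))
  refine (h3.trans (mul_le_mul_of_nonneg_left h4 (by positivity))).trans ?_
  rw [← pow_mul, Real.rpow_def_of_pos u0, show Real.log ‖u - s‖ * -(ε * η) = η * L - ε * η * a by
    rw [hL]; ring, Real.exp_sub, le_div_iff₀ (Real.exp_pos _), mul_assoc]
  exact h1

theorem fix_const (hJ : Jᵀ = -J) (hc : Fintype.card ν = 2 * Fintype.card ι) (h : Fam J Z Γ 𝓑)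
    (hρ : RepD m ρ d) (he : ∀ γ ∈ Γ, ρ γ *ᵥ e = e ∨ ρ γ *ᵥ e = -e) (e0 : e ≠ 0) :
    ∀ u ∉ Z, ∀ v ∉ Z, fixF J 𝓑 ρ e u = fixF J 𝓑 ρ e v := by
  refine max_const (fun u hu => (fix_le h hρ he hu).2.2.continuousWithinAt) (fun u hu => ?_)
    (fun u hu => ?_) (fun s hs η hη => ?_) fun η hη => ?_
  · obtain ⟨b, hb, k1, k2⟩ := (fix_le h hρ he hu).1
    exact k2 ▸ (hρ.pd (cx_pd hJ hc (h.rie b hb u k1))).dotProduct_mulVec_pos e0
  · obtain ⟨b, hb, k1, k2⟩ := (fix_le h hρ he hu).1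
    refine ⟨_, fix_an h hρ hb u k1, k2.symm, ?_, lap_ls hJ hc hρ (fun i j => h.an b hb i j u k1)
      (mem_of_superset ((h.op b hb).mem_nhds k1) (h.rie b hb)) e⟩
    filter_upwards [(h.op b hb).mem_nhds k1, Z.finite_toSet.isClosed.isOpen_compl.mem_nhds hu]
      with w k3 k4 using (fix_le h hρ he k4).2.1 b hb k3
  · obtain ⟨r, r0, hr⟩ := Metric.isOpen_iff.1
      (Z.finite_toSet.subset (Set.sdiff_subset (t := {s}))).isClosed.isOpen_compl s (by simp)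
    have k := fix_bd hJ hc h hρ he (s := s) (a := Real.log r) (.inl rfl) (fun w hw k hZ => by
      rw [one_mul, one_mul, Real.log_lt_log_iff (norm_pos_iff.2 (sub_ne_zero.2 hw)) r0] at k
      exact hr (mem_ball_iff_norm.2 k) ⟨hZ, hw⟩) hη
    have t : Tendsto (fun u : ℂ => 1 * (Real.log r - Real.log ‖u - s‖)) (𝓝[≠] s) atTop :=
      (tendsto_atTop_add_const_left _ _ (tendsto_neg_atBot_atTop.comp
        (Real.tendsto_log_nhdsGT_zero.comp (tendsto_norm_sub_self_nhdsNE s)))).const_mul_atTop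
          one_pos
    filter_upwards [t.eventually k, self_mem_nhdsWithin] with u k1 k2
    simpa only [one_mul] using k1 u k2 rfl
  · obtain ⟨r, r0, hr⟩ := Z.finite_toSet.isBounded.exists_pos_norm_le
    have k := fix_bd hJ hc h hρ he (s := 0) (a := Real.log r) (.inr rfl) (fun w hw k hZ => by
      have := Real.log_le_log (norm_pos_iff.2 hw) (hr w hZ)
      rw [sub_zero] at k
      linarith) hη
    have t : Tendsto (fun u : ℂ => Real.log ‖u‖ + -Real.log r) (cocompact ℂ) atTop :=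
      tendsto_atTop_add_const_right _ _ (Real.tendsto_log_atTop.comp tendsto_norm_cocompact_atTop)
    filter_upwards [t.eventually k, (isCompact_singleton (x := (0 : ℂ))).compl_mem_cocompact]
      with u k1 k2
    simpa using k1 u k2 (by rw [sub_zero]; ring)

end

theorem fix {ι ν α : Type*} [Fintype ι] [DecidableEq ι] [Fintype ν] [DecidableEq ν] [Fintype α]
    [DecidableEq α] {J : Matrix ν ν ℝ} (hJ : Jᵀ = -J) (hc : Fintype.card ν = 2 * Fintype.card ι)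
    {Z : Finset ℂ} {Γ : Set (Matrix ν ν ℝ)} {𝓑 : Set (Set ℂ × (ℂ → Matrix ι ν ℂ))}
    (h : Fam J Z Γ 𝓑) {m : ℕ} {ρ : Matrix ν ν ℝ → Matrix α α ℝ}
    {d : Matrix ν ν ℝ →ₗ[ℝ] Matrix α α ℝ} (hρ : RepD m ρ d) {e : α → ℝ}
    (he : ∀ γ ∈ Γ, ρ γ *ᵥ e = e ∨ ρ γ *ᵥ e = -e) {z : ℂ} (z0 : z ≠ 0) :
    ∃ w, ∀ b ∈ 𝓑, ∀ u ∈ b.1, ρ (hz J (b.2 u) z) *ᵥ e = w := by
  rcases eq_or_ne e 0 with rfl | e0
  · exact ⟨0, fun _ _ _ _ => mulVec_zero _⟩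
  obtain ⟨c, hZ⟩ := Infinite.exists_notMem_finset Z
  obtain ⟨r, r0, s, hs, h1, h2⟩ := fix_loc h hρ he hZ
  obtain ⟨Ω, hΩ, u, hu, k⟩ := fix_cover s (g := fun Ω v => fixN J ρ e (Ω v) - fixF J 𝓑 ρ e c)
    (isOpen_ball.inter Z.finite_toSet.isClosed.isOpen_compl) ⟨c, mem_ball_self r0, hZ⟩
    (fun Ω hΩ => ((fix_an h hρ (h1 Ω hΩ)).continuousOn.mono Set.inter_subset_left).sub
      continuousOn_const) fun v hv => by
      obtain ⟨Ω, hΩ, e1⟩ := s.exists_mem_eq_sup' hs fun Ω => fixN J ρ e (Ω v)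
      exact ⟨Ω, hΩ, by rw [← e1, ← (h2 v hv.1).1, fix_const hJ hc h hρ he e0 v hv.2 c hZ, sub_self]⟩
  have k1 := h.conn (fun Ω => fixN J ρ e Ω - fixF J 𝓑 ρ e c)
    (fun b hb => (fix_an h hρ hb).sub analyticOnNhd_const) _ (h1 Ω hΩ) _ (h1 Ω hΩ) u hu.1 k
  have k2 := lap_const hJ hc hρ (h.an _ (h1 Ω hΩ)) (h.rie _ (h1 Ω hΩ)) (e := e) (fun v hv =>
    lap_max hJ hc hρ (fun i j => h.an _ (h1 Ω hΩ) i j v hv)
      (mem_of_superset (isOpen_ball.mem_nhds hv) (h.rie _ (h1 Ω hΩ))) (by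
      filter_upwards [isOpen_ball.mem_nhds hv] with w hw
      exact ((sub_eq_zero.1 (k1 w hw)).trans (sub_eq_zero.1 (k1 v hv)).symm).le)) z0
  refine ⟨ρ (hz J (Ω c) z) *ᵥ e, fun b hb v hv => funext fun a => sub_eq_zero.1 ?_⟩
  refine h.conn (fun Ω' => (ρ (hz J Ω' z) *ᵥ e) a - (ρ (hz J (Ω c) z) *ᵥ e) a)
    (fun b hb w hw => (lap_anh hρ (fun i j => h.an b hb i j w hw) (h.rie b hb w hw) e z a).sub
      analyticAt_const) _ (h1 Ω hΩ) b hb c (mem_ball_self r0) ?_ v hv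
  filter_upwards [ball_mem_nhds c r0] with w hw
  rw [k2 w hw, sub_self]

end

end Pool.Agent.Lib.MP_5591bc_ag.A
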