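import Pool.Agent.Lib.MP_5591bc_ag.A.Set
import Pool.Agent.Lib.MP_5591bc_ag.M.Irr
import Pool.Agent.Lib.MP_5591bc_ag.N.Brg

/-! The ideal of the fibre. -/

namespace Pool.Agent.Lib.MP_5591bc_ag.A

open Matrix Filter Topology Metric G R W M

noncomputable section

section

variable {σ ν : Type} [Fintype ν] {Y : (σ → ℂ) → Matrix ν ν ℂ} {x : σ → ℂ}

/-- the ideal of the fibre -/
def null_I (Y : (σ → ℂ) → Matrix ν ν ℂ) (x : σ → ℂ) : Ideal (MvPolynomial (ν × ν) ℂ) where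
  carrier := {Q | InFibM Y x Q}
  zero_mem' := ⟨0, by simp, map_zero _⟩
  add_mem' := fun ⟨H, a1, a2⟩ ⟨H', b1, b2⟩ => ⟨H + H', by
    filter_upwards [a1, b1] with t ha hb
    rw [map_add, ha, hb, add_zero], by rw [map_add, a2, b2]⟩
  smul_mem' := fun c _ ⟨H, a1, a2⟩ => ⟨MvPolynomial.rename Sum.inr c * H, by
    filter_upwards [a1] with t ha
    rw [map_mul, ha, mul_zero], by
    rw [map_mul, a2, MvPolynomial.aeval_rename, smul_eq_mul]
    exact congrArg (· * _) (MvPolynomial.aeval_X_left_apply c)⟩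

theorem null_rad (h : IrrM Y x) {G : MvPolynomial (ν × ν) ℂ}
    (hG : ∀ Z : Matrix ν ν ℂ, (∀ H : MvPolynomial (σ ⊕ ν × ν) ℂ,
      (∀ᶠ t in 𝓝 x, MvPolynomial.aeval (Sum.elim t fun a => Y t a.1 a.2) H = 0) →
        MvPolynomial.aeval (Sum.elim x fun a => Z a.1 a.2) H = 0) →
      MvPolynomial.aeval (fun a => Z a.1 a.2) G = 0) : InFibM Y x G := by
  have h1 : G ∈ (null_I Y x).radical := by
    rw [← MvPolynomial.vanishingIdeal_zeroLocus_eq_radical (K := ℂ)]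
    intro z hz
    refine hG (of fun i j => z (i, j)) fun H hH => ?_
    rw [← hz _ ⟨H, hH, rfl⟩, ← AlgHom.comp_apply, MvPolynomial.comp_aeval]
    congr 2
    ext (_ | a) <;> simp
  obtain ⟨n, hn⟩ := h1
  induction n with
  | zero =>
    have := (null_I Y x).mul_mem_left G hn
    rwa [pow_zero, mul_one] at this
  | succ n ih =>
    rw [pow_succ] at hn
    exact (h _ _ hn).elim ih id

/-- the substitution `X ↦ X c` -/
def null_sub (c : Matrix ν ν ℂ) : MvPolynomial (ν × ν) ℂ →ₐ[ℂ] MvPolynomial (ν × ν) ℂ :=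
  MvPolynomial.aeval fun a => ∑ k, MvPolynomial.X (a.1, k) * MvPolynomial.C (c k a.2)

theorem null_ev (c Z : Matrix ν ν ℂ) (F : MvPolynomial (ν × ν) ℂ) :
    MvPolynomial.aeval (fun a => Z a.1 a.2) (null_sub c F) =
      MvPolynomial.aeval (fun a => (Z * c) a.1 a.2) F := by
  rw [null_sub, ← AlgHom.comp_apply, MvPolynomial.comp_aeval]
  congr 2
  ext a
  simp [mul_apply]

theorem null_mul {c : Matrix ν ν ℂ} {G : MvPolynomial (ν × ν) ℂ}
    (h : InFibM (fun t => Y t * c) x G) : InFibM Y x (null_sub c G) := by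
  obtain ⟨H, a1, rfl⟩ := h
  refine ⟨MvPolynomial.aeval (Sum.elim (fun l => MvPolynomial.X (.inl l)) fun a =>
    ∑ k, MvPolynomial.X (.inr (a.1, k)) * MvPolynomial.C (c k a.2)) H, ?_, ?_⟩
  · filter_upwards [a1] with t ht
    rw [← ht, ← AlgHom.comp_apply, MvPolynomial.comp_aeval]
    congr 2
    ext (_ | a) <;> simp [mul_apply]
  · rw [← AlgHom.comp_apply, MvPolynomial.comp_aeval, ← AlgHom.comp_apply,
      MvPolynomial.comp_aeval]
    congr 2
    ext1 (_ | a) <;> simp [null_sub]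

theorem null_rel {K : Type} [Field K] [Algebra K ℂ] (T : MvPolynomial σ K) (N : ℕ)
    (A : Matrix ν ν ℂ) (Λ : Matrix ν ν (MvPolynomial σ ℂ)) (i j : ν) :
    ∃ H : MvPolynomial (σ ⊕ ν × ν) ℂ, ∀ (t : σ → ℂ) (Z : Matrix ν ν ℂ),
      MvPolynomial.aeval (Sum.elim t fun a => Z a.1 a.2) H =
        (MvPolynomial.aeval t T ^ N • (Z * A * Zᵀ) - Λ.map (MvPolynomial.eval t)) i j := by
  refine ⟨MvPolynomial.rename .inl (T.map (algebraMap K ℂ)) ^ N *
    (∑ b, (∑ a, MvPolynomial.X (.inr (i, a)) * MvPolynomial.C (A a b)) *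
      MvPolynomial.X (.inr (j, b))) - MvPolynomial.rename .inl (Λ i j), fun t Z => ?_⟩
  simp only [map_sub, map_mul, map_pow, map_sum, MvPolynomial.aeval_rename, Sum.elim_comp_inl,
    MvPolynomial.aeval_map_algebraMap, MvPolynomial.aeval_X, MvPolynomial.aeval_C, Sum.elim_inr,
    Matrix.sub_apply, Matrix.smul_apply, smul_eq_mul, mul_apply, transpose_apply, map_apply]
  rfl

end

/-- Nullstellensatz, and the ideal of the fibre is prime -/
theorem null_fib {σ K ν : Type} [Fintype σ] [DecidableEq σ] [Field K] [Algebra K ℂ] [Fintype ν]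
    [DecidableEq ν] {T : MvPolynomial σ K} {B : σ → Matrix ν ν (MvPolynomial σ K)}
    {V : Set (σ → ℂ)} {Q : (σ → ℂ) → Matrix ν ν ℂ} (oV : IsOpen V) (cV : IsPreconnected V)
    (hQ : FundM T B V Q) (hC : ConnM V Q) {J : Matrix ν ν ℂ} {N : ℕ}
    {Λ : Matrix ν ν (MvPolynomial σ ℂ)} (hΛ : ∀ t ∈ V,
      MvPolynomial.aeval t T ^ N • (Q t * J * (Q t)ᵀ) = Λ.map (MvPolynomial.eval t))
    {x : σ → ℂ} (hx : x ∈ V) (hT : MvPolynomial.aeval x T ≠ 0) {F : MvPolynomial (ν × ν) ℂ}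
    (hF : ∀ g : Matrix ν ν ℂ, g * J * gᵀ = J →
      MvPolynomial.eval (fun a => (Q x * g) a.1 a.2) F = 0) : InFibM Q x F := by
  have hd : IsUnit (Q x).det := (hQ x hx).1.isUnit
  have e1 : null_sub (Q x)⁻¹ (null_sub (Q x) F) = F := by
    refine MvPolynomial.funext fun z => ?_
    have := (null_ev (Q x)⁻¹ (of fun i j => z (i, j)) (null_sub (Q x) F)).trans (null_ev _ _ _)
    rw [nonsing_inv_mul_cancel_right _ _ hd] at this
    exact this
  rw [← e1]
  refine null_mul (null_rad (irr_of_connM oV cV hQ hC hx hT) fun Z hZ => ?_)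
  have e2 : Z * (Q x * J * (Q x)ᵀ) * Zᵀ = Q x * J * (Q x)ᵀ := by
    refine smul_right_injective _ (pow_ne_zero N hT) ?_
    beta_reduce
    rw [hΛ x hx, ← sub_eq_zero]
    ext i j
    obtain ⟨H, hH⟩ := null_rel T N (Q x * J * (Q x)ᵀ) Λ i j
    rw [← hH]
    refine hZ H ((oV.eventually_mem hx).mono fun t ht => ?_)
    have : Q t * (Q x)⁻¹ * (Q x * J * (Q x)ᵀ) * (Q t * (Q x)⁻¹)ᵀ = Q t * J * (Q t)ᵀ := by
      calc _ = (Q t * (Q x)⁻¹ * Q x) * J * (Q t * (Q x)⁻¹ * Q x)ᵀ := by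
            simp only [transpose_mul, Matrix.mul_assoc]
        _ = _ := by rw [nonsing_inv_mul_cancel_right _ _ hd]
    rw [hH, this, hΛ t ht, sub_self]
    rfl
  have := hF ((Q x)⁻¹ * (Z * Q x)) (by
    calc _ = (Q x)⁻¹ * (Z * (Q x * J * (Q x)ᵀ) * Zᵀ) * ((Q x)⁻¹)ᵀ := by
          simp only [transpose_mul, Matrix.mul_assoc]
      _ = ((Q x)⁻¹ * Q x) * J * ((Q x)⁻¹ * Q x)ᵀ := by
          rw [e2]; simp only [transpose_mul, Matrix.mul_assoc]
      _ = J := by rw [nonsing_inv_mul _ hd]; simp)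
  rw [mul_nonsing_inv_cancel_left _ _ hd] at this
  rw [null_ev]
  exact this

end

end Pool.Agent.Lib.MP_5591bc_ag.A
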