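import Pool.Agent.Lib.MP_5591bc_ag.A.Sp

/-! The Zariski closure of the monodromy group. -/

namespace Pool.Agent.Lib.MP_5591bc_ag.A

open Matrix Filter Topology Metric G R W M

noncomputable section

lemma zc_map {ν : Type*} {Γ : Set (Matrix ν ν ℚ)} (Φ : Matrix ν ν (MvPolynomial (ν × ν) ℂ))
    (φ : Matrix ν ν ℂ → Matrix ν ν ℂ)
    (hφ : ∀ X, Φ.map (MvPolynomial.eval fun a => X a.1 a.2) = φ X)
    (h : ∀ γ ∈ Γ, φ (qc γ) ∈ Zc Γ) : ∀ a ∈ Zc Γ, φ a ∈ Zc Γ := fun a ha p hp => by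
  have key : ∀ X : Matrix ν ν ℂ, MvPolynomial.eval (fun a => X a.1 a.2)
      (MvPolynomial.bind₁ (fun a => Φ a.1 a.2) p) = MvPolynomial.eval (fun a => φ X a.1 a.2) p :=
    fun X => by
      rw [← hφ X]
      exact MvPolynomial.eval₂Hom_bind₁ _ _ _ _
  rw [← key]
  exact ha _ fun γ hγ => by rw [key]; exact h γ hγ p hp

lemma zc_X {ν : Type*} (X : Matrix ν ν ℂ) :
    (mvPolynomialX ν ν ℂ).map (MvPolynomial.eval fun a => X a.1 a.2) = X := by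
  ext i j
  simp [mvPolynomialX]

lemma zc_C {ν : Type*} (A : Matrix ν ν ℂ) (x : ν × ν → ℂ) :
    (A.map (MvPolynomial.C : ℂ →+* MvPolynomial (ν × ν) ℂ)).map (MvPolynomial.eval x) = A := by
  ext i j
  simp

lemma zc_of {ν : Type*} {Γ : Set (Matrix ν ν ℚ)} {γ : Matrix ν ν ℚ} (h : γ ∈ Γ) : qc γ ∈ Zc Γ :=
  fun _ hp => hp γ h

lemma qc_mul {ν : Type*} [Fintype ν] (a b : Matrix ν ν ℚ) : qc (a * b) = qc a * qc b :=
  Matrix.map_mul (f := Rat.castHom ℂ)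

lemma qc_one {ν : Type*} [DecidableEq ν] : qc (1 : Matrix ν ν ℚ) = 1 :=
  Matrix.map_one _ Rat.cast_zero Rat.cast_one

lemma zc_lin {ν : Type*} [Fintype ν] {Γ : Set (Matrix ν ν ℚ)} (A B : Matrix ν ν ℂ)
    (h : ∀ γ ∈ Γ, A * qc γ * B ∈ Zc Γ) : ∀ a ∈ Zc Γ, A * a * B ∈ Zc Γ :=
  zc_map (A.map MvPolynomial.C * mvPolynomialX ν ν ℂ * B.map MvPolynomial.C) (fun X => A * X * B)
    (fun X => by rw [Matrix.map_mul, Matrix.map_mul, zc_C, zc_C, zc_X]) h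

lemma zc_mul {ν : Type*} [Fintype ν] [DecidableEq ν] {Γ : Set (Matrix ν ν ℚ)} (hΓ : Grp Γ) :
    ∀ a ∈ Zc Γ, ∀ b ∈ Zc Γ, a * b ∈ Zc Γ := fun a ha b hb => by
  have := zc_lin a 1 (fun γ hγ => by
    have := zc_lin 1 (qc γ) (fun δ hδ => by
      rw [one_mul, ← qc_mul]; exact zc_of (hΓ.mul _ hδ _ hγ)) a ha
    rwa [mul_one, ← one_mul a]) b hb
  rwa [mul_one] at this

lemma zc_sp {ν : Type*} [Fintype ν] {Γ : Set (Matrix ν ν ℚ)} {J : Matrix ν ν ℂ}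
    (hs : ∀ γ ∈ Γ, qc γ * J * (qc γ)ᵀ = J) : ∀ a ∈ Zc Γ, a * J * aᵀ = J := fun a ha => by
  have key : ∀ (X : Matrix ν ν ℂ) i j, MvPolynomial.eval (fun a : ν × ν => X a.1 a.2)
      ((mvPolynomialX ν ν ℂ * J.map MvPolynomial.C * (mvPolynomialX ν ν ℂ)ᵀ :
        Matrix ν ν (MvPolynomial (ν × ν) ℂ)) i j - MvPolynomial.C (J i j)) = (X * J * Xᵀ) i j - J i j := fun X i j => by
    rw [map_sub, MvPolynomial.eval_C, ← Matrix.map_apply (f := MvPolynomial.eval _),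
      Matrix.map_mul, Matrix.map_mul, transpose_map, zc_X, zc_C]
  ext i j
  rw [← sub_eq_zero, ← key]
  exact ha _ fun γ hγ => by rw [key, hs γ hγ, sub_self]

theorem zc_all {ν : Type*} [Fintype ν] [DecidableEq ν] {Γ : Set (Matrix ν ν ℚ)} (hΓ : Grp Γ)
    {J : Matrix ν ν ℂ} (hJ : Jᵀ = -J) (J0 : J.det ≠ 0) (hs : ∀ γ ∈ Γ, qc γ * J * (qc γ)ᵀ = J)
    (hn : ∀ g g', g * J * gᵀ = J → g' * g = 1 → ∀ γ ∈ Γ, g' * qc γ * g ∈ Zc Γ)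
    (h0 : ∃ γ ∈ Γ, γ ≠ 1 ∧ γ ≠ -1) : ∀ g, g * J * gᵀ = J → g ∈ Zc Γ := by
  obtain ⟨γ, hγ, h1, h2⟩ := h0
  have inj : ∀ {a b : Matrix ν ν ℚ}, qc a = qc b → a = b := fun e =>
    Matrix.map_injective Rat.cast_injective e
  have inv : ∀ a : Matrix ν ν ℂ, a * J * aᵀ = J → a * (J * aᵀ * J⁻¹) = 1 := fun a e => by
    rw [← mul_assoc, ← mul_assoc, e, mul_nonsing_inv _ (isUnit_iff_ne_zero.mpr J0)]
  refine sp_normal hJ J0 (zc_sp hs) (qc_one (ν := ν) ▸ zc_of hΓ.one) (zc_mul hΓ)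
    (fun a ha => ⟨_, ?_, inv a (zc_sp hs a ha)⟩)
    (fun a ha g g' hg e => zc_lin g' g (hn g g' hg e) a ha)
    ⟨qc γ, zc_of hγ, fun e => h1 (inj (e.trans qc_one.symm)), fun e => h2 (inj ?_)⟩
  · refine zc_map (J.map MvPolynomial.C * (mvPolynomialX ν ν ℂ)ᵀ * J⁻¹.map MvPolynomial.C)
      (fun X => J * Xᵀ * J⁻¹) (fun X => ?_) (fun δ hδ => ?_) a ha
    · rw [Matrix.map_mul, Matrix.map_mul, transpose_map, zc_C, zc_C, zc_X]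
    · obtain ⟨b, hb, e⟩ := hΓ.inv δ hδ
      have e2 : qc δ * qc b = 1 := by rw [← qc_mul, e, qc_one]
      rw [← left_inv_eq_right_inv (mul_eq_one_comm.mp e2) (inv _ (hs δ hδ))]
      exact zc_of hb
  · rw [e, ← qc_one]
    exact (Matrix.map_neg _ Rat.cast_neg _).symm

end

end Pool.Agent.Lib.MP_5591bc_ag.A
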