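import Pool.Agent.Lib.MP_5591bc_ag.A.BrD
import Pool.Agent.Lib.MP_5591bc_ag.A.Fix
import Pool.Agent.Lib.MP_5591bc_ag.A.Chev
import Pool.Agent.Lib.MP_5591bc_ag.A.Zar
import Pool.Agent.Lib.MP_5591bc_ag.A.Null
import Pool.Agent.Lib.MP_5591bc_ag.J.DefP
import Pool.Agent.Lib.MP_5591bc_ag.Z.Fund

/-! Full monodromy along every algebraic arc through a point with big Mumford-Tate group. -/

namespace Pool.Agent.Lib.MP_5591bc_ag.A

open Matrix Filter Topology Metric G R W M E Z J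

noncomputable section

variable {ι ν : Type*} [Fintype ι] [DecidableEq ι] [Fintype ν] [DecidableEq ν]

omit [Fintype ι] [DecidableEq ι] [DecidableEq ν] in
theorem end_sub (Y : Matrix ν ν ℂ) (γ : Matrix ν ν ℚ) (r : ι → ν) :
    (Y * qc γ).submatrix r id = Y.submatrix r id * cx (qr γ) := by
  ext i j
  simp [mul_apply]

omit [Fintype ν] [DecidableEq ν] in
theorem end_cx (γ : Matrix ν ν ℚ) : cx (qr γ) = qc γ := by
  ext i j
  simp

/-- the Zariski closure of the monodromy group contains the symplectic group -/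
theorem end_zar {J : Matrix ν ν ℝ} (hJ : Jᵀ = -J) (hc : Fintype.card ν = 2 * Fintype.card ι)
    {Z : Finset ℂ} {Γ : Set (Matrix ν ν ℚ)} {𝓑 : Set (Set ℂ × (ℂ → Matrix ι ν ℂ))} {D : Set ℂ}
    (hΓ : Grp Γ) (hF : Fam J Z (qr '' Γ) 𝓑) (D0 : (0 : ℂ) ∈ D) {Ω : ℂ → Matrix ι ν ℂ}
    (hb : ∀ γ ∈ Γ, (D, fun u => Ω u * cx (qr γ)) ∈ 𝓑) (hM : BigMT J (Ω 0))
    (hI : ¬ ∀ᶠ u in 𝓝 (0 : ℂ), ∃ A : Matrix ι ι ℂ, Ω u = A * Ω 0) :
    ∀ g, g * cx J * gᵀ = cx J → g ∈ Zc Γ := by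
  have q1 : qr (1 : Matrix ν ν ℚ) = 1 := Matrix.map_one _ Rat.cast_zero Rat.cast_one
  have c1 : cx (1 : Matrix ν ν ℝ) = 1 := Matrix.map_one _ Complex.ofReal_zero Complex.ofReal_one
  have b1 : (D, Ω) ∈ 𝓑 := by simpa only [q1, c1, Matrix.mul_one] using hb 1 hΓ.one
  have h0 : Rie J (Ω 0) := hF.rie _ b1 0 D0
  have sp : ∀ γ ∈ Γ, qr γ * J * (qr γ)ᵀ = J := fun γ h => hF.sp _ ⟨γ, h, rfl⟩
  have cm : ∀ A B : Matrix ν ν ℝ, cx (A * B) = cx A * cx B := fun A B =>
    Matrix.map_mul (f := Complex.ofRealHom)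
  refine zc_all hΓ ?_ ?_ (fun γ h => ?_) (fun g g' hg e => chev hJ hc h0 hΓ ?_ g (hM g hg) g' e) ?_
  · ext i j
    simpa using congrArg Complex.ofReal (congrFun₂ hJ i j)
  · exact (Complex.ofRealHom.map_det J).symm.trans_ne (by simpa using cx_det hJ hc h0)
  · rw [← end_cx, ← transpose_map, ← cm, ← cm, sp γ h]
  · intro r δ e he z z0 γ hγ k hk
    obtain ⟨m, d, hρ⟩ := rep_rW (ν := ν) r δ
    obtain ⟨w, hw⟩ := fix hJ hc hF hρ (e := e) (by rintro _ ⟨γ, h, rfl⟩; exact he γ h) z0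
    obtain ⟨γ', -, e'⟩ := hΓ.inv γ hγ
    have e2 : qr γ' * qr γ = 1 := by
      rw [← q1, ← mul_eq_one_comm.1 e']
      exact (Matrix.map_mul (f := Rat.castHom ℝ)).symm
    have : k = hz J (Ω 0 * cx (qr γ)) z := by
      rw [← Matrix.one_mul k, ← e2, Matrix.mul_assoc, hk, ← cx_hz (sp γ hγ), ← Matrix.mul_assoc, e2,
        Matrix.one_mul]
    rw [this]
    exact (hw _ (hb γ hγ) 0 D0).trans (hw _ b1 0 D0).symm
  · by_contra hn
    push Not at hn
    refine hI ?_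
    have k : ∀ e : ν → ℝ, ∀ u ∈ D, Cs J (Ω u) *ᵥ e = Cs J (Ω 0) *ᵥ e := fun e u hu => by
      obtain ⟨w, hw⟩ := fix hJ hc hF rep_id (e := e) (by
        rintro _ ⟨γ, h, rfl⟩
        by_cases h1 : γ = 1
        · exact .inl (by rw [h1, q1, one_mulVec])
        · refine .inr ?_
          have : qr (-1 : Matrix ν ν ℚ) = -1 := by
            rw [← q1]
            exact Matrix.map_neg _ Rat.cast_neg _
          rw [hn γ h h1, this, neg_mulVec, one_mulVec]) Complex.I_ne_zero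
      simpa [hz] using (hw _ b1 u hu).trans (hw _ b1 0 D0).symm
    filter_upwards [(hF.op _ b1).mem_nhds D0] with u hu
    exact cx_row hJ hc h0 (hF.rie _ b1 u hu) (Matrix.ext_of_mulVec_single fun i => k _ u hu)

theorem end_dj : ∃ f : Option (ν × ν) → MvPolynomial (ν × ν) ℂ, ∀ (Y : Matrix ν ν ℂ) o,
    MvPolynomial.eval (fun a => Y a.1 a.2) (f o) = dj 1 Y o := by
  refine ⟨fun o => o.elim (Xm ν).det fun a => (Xm ν).adjugate a.1 a.2, fun Y o => ?_⟩
  have e : (MvPolynomial.eval fun a : ν × ν => Y a.1 a.2).mapMatrix (Xm ν) = Y := by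
    ext i j
    simp [Xm]
  rcases o with _ | a
  · exact (RingHom.map_det _ _).trans (congrArg det e)
  · have := RingHom.map_adjugate (MvPolynomial.eval fun a : ν × ν => Y a.1 a.2) (Xm ν)
    rw [e] at this
    simpa [dj] using congrFun₂ this a.1 a.2

theorem end_ev {α β : Type*} (f : α → MvPolynomial β ℂ) (v : β → ℂ) (H : MvPolynomial α ℂ) :
    MvPolynomial.eval v (MvPolynomial.aeval f H) =
      MvPolynomial.eval (fun a => MvPolynomial.eval v (f a)) H := by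
  induction H using MvPolynomial.induction_on with
  | C a => simp
  | add p q hp hq => simp only [map_add, hp, hq]
  | mul_X p a hp => simp only [map_mul, hp, MvPolynomial.aeval_X, MvPolynomial.eval_X]

theorem pol_cont {σ K ν : Type*} [Fintype σ] [DecidableEq σ] [Field K] [Algebra K ℂ] [Fintype ν]
    {T : MvPolynomial σ K} {U V : Set (σ → ℂ)} {P Q : (σ → ℂ) → Matrix ν ν ℂ} (ho : IsOpen U)
    {J : Matrix ν ν ℂ} {N : ℕ} {Λ : Matrix ν ν (MvPolynomial σ ℂ)} (h : ∀ t ∈ U,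
      MvPolynomial.aeval t T ^ N • (P t * J * (P t)ᵀ) = Λ.map (MvPolynomial.eval t))
    (k : ContM U P V Q) : ∀ t ∈ V,
      MvPolynomial.aeval t T ^ N • (Q t * J * (Q t)ᵀ) = Λ.map (MvPolynomial.eval t) := by
  intro t ht
  ext i j
  let H : MvPolynomial (σ ⊕ ν × ν) ℂ :=
    MvPolynomial.rename Sum.inl (T.map (algebraMap K ℂ)) ^ N * (∑ b, (∑ a,
      MvPolynomial.X (Sum.inr (i, a)) * MvPolynomial.C (J a b)) * MvPolynomial.X (Sum.inr (j, b))) -
      MvPolynomial.rename Sum.inl (Λ i j)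
  have e : ∀ (t : σ → ℂ) (Y : Matrix ν ν ℂ),
      MvPolynomial.aeval (Sum.elim t fun a => Y a.1 a.2) H =
      (MvPolynomial.aeval t T ^ N • (Y * J * Yᵀ)) i j - Λ.map (MvPolynomial.eval t) i j :=
    fun t Y => by
      simp [H, MvPolynomial.eval_rename, mul_apply, MvPolynomial.eval_map, MvPolynomial.aeval_def,
        MvPolynomial.eval₂_rename]
  exact sub_eq_zero.1 ((e t _).symm.trans
    ((goodV_cont ho H (fun t ht => by rw [e, h t ht, sub_self]) k).2 t ht))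

theorem fullP_of {σ K ι ν : Type} [Fintype σ] [DecidableEq σ] [Field K] [Algebra K ℂ] [Fintype ι]
    [DecidableEq ι] [Fintype ν] [DecidableEq ν] {T : MvPolynomial σ K} (T0 : T ≠ 0)
    {B : σ → Matrix ν ν (MvPolynomial σ K)} {U U' : Set (σ → ℂ)} {P P' : (σ → ℂ) → Matrix ν ν ℂ}
    (ho : IsOpen U) (hU : IsPreconnected U) (hP : FundM T B U P) (hC : ConnM U P) {r : ι → ν}
    {J : Matrix ν ν ℝ} (hc : Fintype.card ν = 2 * Fintype.card ι) (hp : Pol T U P r J)
    (k : ContM U P U' P') {x : σ → ℂ} (hx : x ∈ U') (hT : MvPolynomial.aeval x T ≠ 0)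
    (hM : BigMT J ((P' x).submatrix r id)) (hI : Iso (fun t => (P' t).submatrix r id) x) :
    FullP P' 0 1 x := by
  have an := fun i j t ht => ((hP t ht).2 i j).1
  obtain ⟨V, v1, v2, v3, -, v5⟩ := cont_fund T0 ho hU hP k hx hT
  have k' : ContM U P V P' := .step _ _ _ _ _ k v1 v2 (fun i j t ht => ((v5 t ht).2 i j).1) hx v3
    (.of_forall fun _ => rfl)
  rintro y hy rfl hn hq H hH
  obtain ⟨Z, Γ, 𝓑, D, hΓ, hF, D0, hb, hz⟩ := br_fam ho hp k' v1 v2 v5 hy v3 hT hq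
  simp only [end_sub] at hb
  have all := end_zar hp.1 hc hΓ hF D0 hb hM fun h => hn (by
    have := hy.continuousAt.tendsto.eventually (eventually_nhdsWithin_iff.1 hI)
    filter_upwards [h, this] with u h1 h2
    by_contra h3
    exact h2 h3 h1)
  obtain ⟨f, hf⟩ := end_dj (ν := ν)
  obtain ⟨N, Λ, hΛ⟩ := hp.2.1
  let F : MvPolynomial (ν × ν) ℂ :=
    MvPolynomial.aeval (Sum.elim (fun o : Option σ => MvPolynomial.C (o.elim 0 (y 0))) f) H
  have eF : ∀ Y : Matrix ν ν ℂ, MvPolynomial.eval (fun a => Y a.1 a.2) F =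
      MvPolynomial.eval (Sum.elim (fun o => o.elim 0 (y 0)) (dj 1 Y)) H := fun Y => by
    rw [end_ev]
    congr 2
    ext (o | o) <;> simp [hf]
  have e2 : ∀ (v : Option σ → ℂ) (Y : Matrix ν ν ℂ),
      MvPolynomial.eval (Sum.elim v fun a => Y a.1 a.2) (MvPolynomial.aeval (Sum.elim
        (fun o => MvPolynomial.X (Sum.inl o)) fun o => MvPolynomial.rename Sum.inr (f o)) H) =
      MvPolynomial.eval (Sum.elim v (dj 1 Y)) H := fun v Y => by
    rw [end_ev]
    congr 2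
    ext (o | o) <;> simp [MvPolynomial.eval_rename, hf]
  have e3 : ∀ g : Matrix ν ν ℂ, MvPolynomial.eval (fun a => g a.1 a.2) (MvPolynomial.aeval
      (fun a : ν × ν => ∑ c, MvPolynomial.C (P' (y 0) a.1 c) * MvPolynomial.X (c, a.2)) F) =
      MvPolynomial.eval (fun a => (P' (y 0) * g) a.1 a.2) F := fun g => by
    rw [end_ev]
    congr 2
    ext a
    simp [mul_apply]
  obtain ⟨H', h1, h2⟩ := null_fib v1 v2 v5 (conn_cont ho hU an k' hC) (pol_cont ho hΛ k') v3 hT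
    (F := F) fun g hg => by
      rw [← e3]
      refine all g hg _ fun γ hγ => ?_
      rw [e3, eF, ← e2]
      exact hz _ (hH.mono fun u hu => (e2 _ _).trans hu) γ hγ
  have e4 : ∀ (t : σ → ℂ) (v w : ν × ν → ℂ), MvPolynomial.eval (Sum.elim t (Sum.elim v w))
      (MvPolynomial.rename (Sum.map id Sum.inr) H') = MvPolynomial.eval (Sum.elim t w) H' :=
    fun t v w => by
      rw [MvPolynomial.eval_rename]
      congr 2
      ext (l | a) <;> rfl
  refine ⟨MvPolynomial.rename (Sum.map id Sum.inr) H', h1.mono fun t ht => (e4 _ _ _).trans ht,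
    fun Y => ?_⟩
  rw [e4, ← eF, ← h2, end_ev]
  congr 2
  ext (l | a) <;> simp

end

end Pool.Agent.Lib.MP_5591bc_ag.A
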