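import Pool.Agent.Lib.MP_5591bc_ag.A.End
import Pool.Agent.Lib.MP_5591bc_ag.J.Fin

/-! The count of the exceptional points with big Mumford-Tate group. -/

namespace Pool.Agent.Lib.MP_5591bc_ag.A

open Matrix Filter Topology G R W M N E Z J

noncomputable section

theorem pol_finMon {σ K ι ν : Type*} [Fintype σ] [DecidableEq σ] [Field K] [CharZero K]
    [Algebra K ℂ] [Fintype ι] [Fintype ν] [DecidableEq ν] {T : MvPolynomial σ K}
    {B : σ → Matrix ν ν (MvPolynomial σ K)} {U : Set (σ → ℂ)} {P : (σ → ℂ) → Matrix ν ν ℂ}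
    (ho : IsOpen U) (hU : IsPreconnected U) (hP : FundM T B U P) {r : ι → ν} {J : Matrix ν ν ℝ}
    (hp : Pol T U P r J) : FinMon K U P 0 1 1 := by
  intro t V Q h
  obtain ⟨D, D0, hD⟩ := (hp.2.2 _ _ (h 0).1 t (h 0).2).2
  obtain ⟨γ, hγ⟩ := hD _ _ (h 1).1 (h 1).2
  have D1 : (D : ℂ) ≠ 0 := Nat.cast_ne_zero.2 D0.ne'
  have e : ((D : K)⁻¹ • γ.map (Int.cast : ℤ → K)).map (algebraMap K ℂ) =
      (D : ℂ)⁻¹ • γ.map Int.cast := by
    ext i j
    simp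
  have k : ∀ᶠ z in 𝓝 t,
      Q 1 z = Q 0 z * ((D : K)⁻¹ • γ.map (Int.cast : ℤ → K)).map (algebraMap K ℂ) :=
    hγ.mono fun z hz => by rw [e, Matrix.mul_smul, ← hz, smul_smul, inv_mul_cancel₀ D1, one_smul]
  refine ⟨0, 1, by decide, _, fun h0 => (fund_inv ho hU hP (h 1).1).2 t (h 1).2
    (k.mono fun z hz => ?_), k.mono fun z hz => ⟨by simp, by simpa only [Matrix.mul_one] using hz⟩⟩
  rw [hz, det_mul, ← RingHom.mapMatrix_apply, ← RingHom.map_det, h0, map_zero, mul_zero]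

theorem cntA {σ K ι : Type} [Fintype σ] [DecidableEq σ] [Field K] [NumberField K] [Algebra K ℂ]
    [Fintype ι] [DecidableEq ι] {n : ℕ} (hn : n = 2 * Fintype.card ι) {T : MvPolynomial σ K}
    {B : σ → Matrix (Fin n) (Fin n) (MvPolynomial σ K)} (T0 : T ≠ 0) (h : GalM T B) :
    ∃ C : ℕ, ∀ (δ : ℕ) (U : Set (σ → ℂ)) (P : (σ → ℂ) → Matrix (Fin n) (Fin n) ℂ) (r : ι → Fin n)
      (J : Matrix (Fin n) (Fin n) ℝ), IsOpen U → IsPreconnected U → FundM T B U P → ConnM U P →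
      Pol T U P r J → ∀ (d : ℕ) (H : ℝ), 2 ≤ H → ∀ S : Finset (σ → ℂ),
      (∀ t ∈ S, MvPolynomial.aeval t T ≠ 0 ∧
        (∀ j, ∃ q : Polynomial ℤ, q ≠ 0 ∧ (∀ i, |(q.coeff i : ℝ)| ≤ H) ∧
          Polynomial.aeval (t j) q = 0) ∧
        ∃ U' P', ContM U P U' P' ∧ t ∈ U' ∧ BigMT J ((P' t).submatrix r id) ∧
          Iso (fun s => (P' s).submatrix r id) t ∧
          ∃ (E : IntermediateField K ℂ) (x : σ → E), (∀ j, (x j : ℂ) = t j) ∧
            FiniteDimensional ℚ E ∧ Module.finrank ℚ E ≤ d ∧ ¬ GoodV U' P' δ x) →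
        (S.card : ℝ) ≤ (C * (δ + 2) * d * Real.log H) ^
          (C * (δ + 1) ^ (Fintype.card σ * n ^ 2)) := by
  obtain ⟨C, hC⟩ := cntR T0 h
  refine ⟨C, fun δ U P r J ho hU hP hc hp d H H2 S hS => le_of_le_of_eq
    (hC δ 1 U P 0 1 ho hU hP (connRM_zero ho hc) ⟨mul_one 1, 0, 1, fun t _ => by simp⟩
      (pol_finMon ho hU hP hp) d H H2 S fun t ht => ?_) (by norm_num [add_assoc])⟩
  obtain ⟨e, b, U', P', k, m, h1, h2, E, x, hx, f, hd, hb⟩ := hS t ht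
  exact ⟨e, b, U', P', k, m, fullP_of T0 ho hU hP hc (by simpa using hn) hp k m e h1 h2, E, x, 0,
    hx, by simp, f, hd, fun g => hb g.goodV⟩

end

end Pool.Agent.Lib.MP_5591bc_ag.A
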