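import Pool.Agent.Lib.MP_5591bc_ag.A.Set

/-! A maximum principle on the punctured plane. -/

namespace Pool.Agent.Lib.MP_5591bc_ag.A

open Matrix Filter Topology Metric G R W M

noncomputable section

/-- first derivative `b` and second derivative `a` at `0` -/
def MxD (f : ℝ → ℝ) (b a : ℝ) : Prop :=
  ∃ f' : ℝ → ℝ, (∀ᶠ t in 𝓝 (0 : ℝ), HasDerivAt f (f' t) t) ∧ HasDerivAt f' a 0 ∧ f' 0 = b

theorem MxD.max {f : ℝ → ℝ} {b a : ℝ} (h : MxD f b a) (hm : IsLocalMax f 0) : a ≤ 0 := by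
  obtain ⟨f', h1, h2, -⟩ := h
  have e : deriv f =ᶠ[𝓝 0] f' := h1.mono fun t ht => ht.deriv
  have e2 : deriv (deriv f) 0 = a := e.deriv_eq.trans h2.deriv
  by_contra c
  have k := isLocalMin_of_deriv_deriv_pos (f := f) (x₀ := 0) (by rw [e2]; exact not_le.1 c)
    hm.deriv_eq_zero h1.self_of_nhds.continuousAt
  have z : f =ᶠ[𝓝 0] fun _ => f 0 := (hm.and k).mono fun t ht => le_antisymm ht.1 ht.2
  rw [z.deriv.deriv_eq] at e2
  simp at e2
  exact c e2.ge

theorem MxD.add {f g : ℝ → ℝ} {b a b' a' : ℝ} (h : MxD f b a) (h' : MxD g b' a') (c : ℝ) :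
    MxD (fun t => f t + c * g t) (b + c * b') (a + c * a') := by
  obtain ⟨f', h1, h2, rfl⟩ := h
  obtain ⟨g', k1, k2, rfl⟩ := h'
  exact ⟨fun t => f' t + c * g' t, (h1.and k1).mono fun t ht => ht.1.add (ht.2.const_mul c),
    h2.add (k2.const_mul c), rfl⟩

theorem MxD.log {f : ℝ → ℝ} {b a : ℝ} (h : MxD f b a) (h0 : f 0 ≠ 0) :
    MxD (fun t => Real.log (f t)) (b / f 0) ((a * f 0 - b * b) / f 0 ^ 2) := by
  obtain ⟨f', h1, h2, rfl⟩ := h
  exact ⟨fun t => f' t / f t, (h1.and (h1.self_of_nhds.continuousAt.eventually_ne h0)).mono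
    fun t ht => ht.1.log ht.2, h2.fun_div h1.self_of_nhds h0, rfl⟩

theorem max_line {φ : ℂ → ℝ} {u v : ℂ} {t : ℝ} (h : AnalyticAt ℝ φ (u + t • v)) :
    HasDerivAt (fun s : ℝ => φ (u + s • v)) (pv v φ (u + t • v)) t := by
  simpa [pv, Function.comp_def] using h.differentiableAt.hasFDerivAt.comp_hasDerivAt t
    (((hasDerivAt_id t).smul_const v).const_add u)

theorem max_an {φ : ℂ → ℝ} {u : ℂ} (h : AnalyticAt ℝ φ u) (v : ℂ) :
    MxD (fun t => φ (u + t • v)) (pv v φ u) (pv v (pv v φ) u) := by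
  have c : Tendsto (fun t : ℝ => u + t • v) (𝓝 0) (𝓝 u) :=
    Continuous.tendsto' (by fun_prop) _ _ (by simp)
  have a : AnalyticAt ℝ (pv v φ) u :=
    ((ContinuousLinearMap.apply ℝ ℝ v).analyticAt _).comp h.fderiv
  refine ⟨fun t => pv v φ (u + t • v), (c.eventually h.eventually_analyticAt).mono
    fun t ht => max_line ht, ?_, by simp⟩
  simpa using max_line (u := u) (v := v) (t := 0) (by simpa using a)

theorem max_sq (a : ℝ) (s u v : ℂ) : MxD (fun t => a + ‖u + t • v - s‖ ^ 2)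
    (2 * ((u - s).re * v.re + (u - s).im * v.im)) (2 * (v.re * v.re + v.im * v.im)) := by
  have l : ∀ x y t : ℝ, HasDerivAt (fun t => x + t * y) y t := fun x y t => by
    simpa using ((hasDerivAt_id t).mul_const y).const_add x
  refine ⟨fun t => 2 * (((u - s).re + t * v.re) * v.re + ((u - s).im + t * v.im) * v.im),
    .of_forall fun t => ?_, (((l _ _ 0).mul_const _).add ((l _ _ 0).mul_const _)).const_mul 2,
    by simp⟩
  have e : (fun t : ℝ => a + ‖u + t • v - s‖ ^ 2) = fun t => a + (((u - s).re + t * v.re) *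
      ((u - s).re + t * v.re) + ((u - s).im + t * v.im) * ((u - s).im + t * v.im)) := by
    funext t
    rw [Complex.sq_norm, Complex.normSq_apply]
    simp
    ring
  rw [e]
  refine ((((l _ _ t).fun_mul (l _ _ t)).add ((l _ _ t).fun_mul (l _ _ t))).const_add
    a).congr_deriv ?_
  ring

/-- the Laplacian at `u` is `l` -/
def MxL (ψ : ℂ → ℝ) (u : ℂ) (l : ℝ) : Prop :=
  ∃ b a b' a', MxD (fun t => ψ (u + t • 1)) b a ∧ MxD (fun t => ψ (u + t • Complex.I)) b' a' ∧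
    a + a' = l

theorem MxL.max {ψ : ℂ → ℝ} {u : ℂ} {l : ℝ} (h : MxL ψ u l) (hm : IsLocalMax ψ u) : l ≤ 0 := by
  obtain ⟨b, a, b', a', h1, h2, rfl⟩ := h
  have k : ∀ v : ℂ, IsLocalMax (fun t : ℝ => ψ (u + t • v)) 0 := fun v =>
    IsLocalMax.comp_continuous (g := fun t : ℝ => u + t • v) (by simpa using hm) (by fun_prop)
  exact add_nonpos (h1.max (k _)) (h2.max (k _))

theorem MxL.add {ψ χ : ℂ → ℝ} {u : ℂ} {l l' : ℝ} (h : MxL ψ u l) (h' : MxL χ u l') (c : ℝ) :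
    MxL (fun w => ψ w + c * χ w) u (l + c * l') := by
  obtain ⟨_, _, _, _, h1, h2, rfl⟩ := h
  obtain ⟨_, _, _, _, k1, k2, rfl⟩ := h'
  exact ⟨_, _, _, _, h1.add k1 c, h2.add k2 c, by ring⟩

theorem max_test {φ : ℂ → ℝ} {u : ℂ} (h : AnalyticAt ℝ φ u) (hm : IsLocalMax φ u) :
    pv 1 (pv 1 φ) u + pv Complex.I (pv Complex.I φ) u ≤ 0 :=
  MxL.max ⟨_, _, _, _, max_an h 1, max_an h Complex.I, rfl⟩ hm

theorem max_ls {φ : ℂ → ℝ} {u : ℂ} (h : AnalyticAt ℝ φ u) (h0 : φ u ≠ 0) (hl : LS φ u) :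
    ∃ l, 0 ≤ l ∧ MxL (fun w => Real.log (φ w)) u l := by
  refine ⟨_, ?_, _, _, _, _, (max_an h 1).log (by simpa using h0),
    (max_an h Complex.I).log (by simpa using h0), rfl⟩
  rw [zero_smul, zero_smul, add_zero, ← add_div]
  refine div_nonneg ?_ (sq_nonneg _)
  unfold LS at hl
  linarith

/-- the potentials -/
def mxq (a : ℝ) (s u : ℂ) : ℝ := Real.log (a + ‖u - s‖ ^ 2)

theorem max_lq {a : ℝ} {s u : ℂ} (h : a + ‖u - s‖ ^ 2 ≠ 0) :
    MxL (mxq a s) u (4 * a / (a + ‖u - s‖ ^ 2) ^ 2) := by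
  refine ⟨_, _, _, _, (max_sq a s u 1).log (by simpa using h),
    (max_sq a s u Complex.I).log (by simpa using h), ?_⟩
  rw [zero_smul, zero_smul, add_zero, ← add_div, Complex.sq_norm, Complex.normSq_apply]
  congr 1
  simp
  ring

theorem max_sum {Z : Finset ℂ} {u : ℂ} (h : u ∉ Z) : MxL (fun w => ∑ s ∈ Z, mxq 0 s w) u 0 := by
  classical
  induction Z using Finset.induction_on with
  | empty =>
    have : MxD (fun _ => 0) 0 0 := ⟨fun _ => 0, .of_forall fun t => hasDerivAt_const t 0,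
      hasDerivAt_const 0 0, rfl⟩
    exact ⟨0, 0, 0, 0, this, this, add_zero 0⟩
  | insert s Z hs ih =>
    rw [Finset.mem_insert, not_or] at h
    simpa [Finset.sum_insert hs] using (max_lq (a := 0) (s := s) (u := u)
      (by simpa [sub_eq_zero] using h.1)).add (ih h.2) 1

theorem max_cq {a : ℝ} {s u : ℂ} (h : a + ‖u - s‖ ^ 2 ≠ 0) : ContinuousAt (mxq a s) u :=
  ContinuousAt.log (by fun_prop) h

theorem max_le {Z : Finset ℂ} {F : ℂ → ℝ} (hc : ContinuousOn F (↑Z)ᶜ) (h0 : ∀ u ∉ Z, 0 < F u)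
    (hs : ∀ u ∉ Z, ∃ φ : ℂ → ℝ, AnalyticAt ℝ φ u ∧ φ u = F u ∧ (∀ᶠ w in 𝓝 u, φ w ≤ F w) ∧ LS φ u)
    (h1 : ∀ s ∈ Z, ∀ η > (0 : ℝ), ∀ᶠ u in 𝓝[≠] s, F u ≤ ‖u - s‖ ^ (-η))
    (h2 : ∀ η > (0 : ℝ), ∀ᶠ u in cocompact ℂ, F u ≤ ‖u‖ ^ η) {w c : ℂ} (hw : w ∉ Z) (cZ : c ∉ Z) :
    F w ≤ F c := by
  classical
  by_contra hlt
  have oZ : IsOpen (↑Z : Set ℂ)ᶜ := Z.finite_toSet.isClosed.isOpen_compl
  have cF : ∀ u ∉ Z, ContinuousAt (fun u => Real.log (F u)) u := fun u hu =>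
    (hc.continuousAt (oZ.mem_nhds hu)).log (h0 u hu).ne'
  obtain ⟨m, m1, m2⟩ := exists_between (Real.log_lt_log (h0 c cZ) (not_le.1 hlt))
  have wc : w ≠ c := by
    rintro rfl
    exact hlt le_rfl
  obtain ⟨r, r0, hr⟩ := nhds_basis_closedBall.eventually_iff.1 (((cF c cZ).eventually_lt
    continuousAt_const m1).and ((oZ.eventually_mem cZ).and (eventually_ne_nhds wc.symm)))
  set ψ : ℂ → ℝ := fun u => mxq 1 0 u + 1 * ∑ s ∈ Z, mxq 0 s u + -((Z.card : ℝ) + 2) * mxq 0 c u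
    with hψ
  have n1 : ∀ u : ℂ, (1 : ℝ) + ‖u - 0‖ ^ 2 ≠ 0 := fun u => by positivity
  have n0 : ∀ {u s : ℂ}, u ≠ s → (0 : ℝ) + ‖u - s‖ ^ 2 ≠ 0 := fun h => by
    simpa [sub_eq_zero] using h
  have cψ : ∀ u ∉ Z, u ≠ c → ContinuousAt ψ u := fun u hu uc =>
    ((max_cq (n1 u)).add (continuousAt_const.mul (tendsto_finsetSum _ fun s hs => max_cq
      (n0 fun e => hu (e ▸ hs))))).add (continuousAt_const.mul (max_cq (n0 uc)))
  have sc : ∀ u, r ≤ dist u c → u ≠ c := fun u hu e => by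
    rw [e, dist_self] at hu
    linarith
  obtain ⟨k, hk⟩ := (isCompact_sphere c r).exists_bound_of_continuousOn (f := ψ) fun u hu =>
    (cψ u (hr (sphere_subset_closedBall hu)).2.1 (sc u (mem_sphere.1 hu).ge)).continuousWithinAt
  obtain ⟨ε, ε0, hε⟩ : ∃ ε > (0 : ℝ), ε * (k - ψ w) < Real.log (F w) - m := by
    have : Tendsto (fun ε : ℝ => ε * (k - ψ w)) (𝓝[>] 0) (𝓝 0) :=
      (Continuous.tendsto' (by fun_prop) _ _ (by simp)).mono_left nhdsWithin_le_nhds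
    exact ((eventually_mem_nhdsWithin.and (this.eventually_lt_const (sub_pos.2 m2))).exists)
  set g : ℂ → ℝ := fun u => Real.log (F u) + ε * ψ u with hg
  have cg : ∀ u ∉ Z, u ≠ c → ContinuousAt g u := fun u hu uc =>
    (cF u hu).add (continuousAt_const.mul (cψ u hu uc))
  have lq : ∀ s u : ℂ, mxq 0 s u = 2 * Real.log ‖u - s‖ := fun s u => by simp [mxq]
  have g1 : ∀ s ∈ Z, ∀ᶠ u in 𝓝[≠] s, u ∉ Z → g u < g w := fun s hs => by
    have sc : s ≠ c := fun e => cZ (e ▸ hs)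
    have t := ((Real.tendsto_log_nhdsGT_zero.comp (tendsto_norm_sub_self_nhdsNE s)).atBot_add
      ((((max_cq (n1 s)).add (tendsto_finsetSum (Z.erase s) fun s' hs' => max_cq
        (n0 (Finset.ne_of_mem_erase hs').symm))).add ((max_cq (n0 sc)).const_mul
          (-((Z.card : ℝ) + 2)))).mono_left nhdsWithin_le_nhds)).const_mul_atBot ε0
    filter_upwards [t.eventually_lt_atBot (g w), h1 s hs ε ε0, self_mem_nhdsWithin] with u a b n hu
    have := Real.log_le_log (h0 u hu) b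
    rw [Real.log_rpow (norm_pos_iff.2 (sub_ne_zero.2 n))] at this
    refine lt_of_le_of_lt ?_ a
    simp only [hg, hψ, ← Finset.add_sum_erase Z _ hs, lq s, Function.comp, Pi.add_apply]
    linarith
  have g2 : ∀ᶠ u in cocompact ℂ, u ∉ Z → g u < g w := by
    have nt := tendsto_norm_cocompact_atTop (E := ℂ)
    have t := (tendsto_atBot_add_const_right _ ((2 * (Z.card : ℝ) + 3) * (2 * Real.log 2))
      (tendsto_neg_atTop_atBot.comp (Real.tendsto_log_atTop.comp nt))).const_mul_atBot ε0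
    filter_upwards [t.eventually_lt_atBot (g w), h2 ε ε0, nt.eventually_ge_atTop 1,
      nt.eventually_ge_atTop (2 * ‖c‖), (eventually_all_finset Z).2 fun s _ =>
        nt.eventually_ge_atTop ‖s‖] with u a b u1 uc us hu
    have u0 : 0 < ‖u‖ := by linarith
    have l2 : Real.log (2 * ‖u‖) = Real.log 2 + Real.log ‖u‖ := Real.log_mul two_ne_zero u0.ne'
    have b1 := Real.log_le_log (h0 u hu) b
    rw [Real.log_rpow u0] at b1
    have b2 : mxq 1 0 u ≤ 2 * (Real.log 2 + Real.log ‖u‖) := by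
      have := Real.log_le_log (by positivity) (show 1 + ‖u‖ ^ 2 ≤ (2 * ‖u‖) ^ 2 by nlinarith)
      rw [Real.log_pow, l2] at this
      simpa [mxq] using this
    have b3 : ∑ s ∈ Z, mxq 0 s u ≤ Z.card * (2 * (Real.log 2 + Real.log ‖u‖)) := by
      rw [← nsmul_eq_mul]
      refine Finset.sum_le_card_nsmul _ _ _ fun s hs => ?_
      rw [lq, ← l2]
      have := Real.log_le_log (norm_pos_iff.2 (sub_ne_zero.2 fun e : u = s => hu (e ▸ hs)))
        (show ‖u - s‖ ≤ 2 * ‖u‖ by linarith [norm_sub_le u s, us s hs])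
      linarith
    have b4 : 2 * (Real.log ‖u‖ - Real.log 2) ≤ mxq 0 c u := by
      rw [lq, ← Real.log_div u0.ne' two_ne_zero]
      have := Real.log_le_log (half_pos u0)
        (show ‖u‖ / 2 ≤ ‖u - c‖ by linarith [norm_sub_norm_le u c])
      linarith
    have b5 := mul_le_mul_of_nonneg_left b4 (show 0 ≤ (Z.card : ℝ) + 2 by positivity)
    have b6 : ψ u ≤ -(2 * Real.log ‖u‖) + (2 * (Z.card : ℝ) + 3) * (2 * Real.log 2) := by
      simp only [hψ]
      linarith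
    have b7 := mul_le_mul_of_nonneg_left b6 ε0.le
    refine lt_of_le_of_lt ?_ a
    simp only [hg, Function.comp]
    linarith
  set S : Set ℂ := {u | r ≤ dist u c ∧ u ∉ Z ∧ g w ≤ g u} with hS
  have clS : IsClosed S := by
    rw [← isOpen_compl_iff, isOpen_iff_mem_nhds]
    intro u hu
    by_cases a : r ≤ dist u c
    · by_cases b : u ∈ Z
      · have := eventually_nhdsWithin_iff.1 (g1 u b)
        filter_upwards [this] with v hv k
        exact (hv (fun e : v = u => k.2.1 (e ▸ b)) k.2.1).not_ge k.2.2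
      · filter_upwards [(cg u b (sc u a)).eventually_lt continuousAt_const
          (not_le.1 fun k => hu ⟨a, b, k⟩)] with v hv k using hv.not_ge k.2.2
    · filter_upwards [isOpen_ball.mem_nhds (not_le.1 a)] with v hv k using k.1.not_gt hv
  obtain ⟨K, cK, hK⟩ := mem_cocompact.1 g2
  obtain ⟨u, uS, hu⟩ := (cK.of_isClosed_subset clS fun u hu => by_contra fun k =>
    (hK k hu.2.1).not_ge hu.2.2).exists_isMaxOn ⟨w, not_lt.1 fun k => (hr k.le).2.2 rfl, hw, le_rfl⟩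
      fun u hu => (cg u hu.2.1 (sc u hu.1)).continuousWithinAt
  have ur : r < dist u c := uS.1.lt_of_ne fun e => by
    have a := (hr (mem_closedBall.2 e.ge)).1
    have b := mul_le_mul_of_nonneg_left ((le_abs_self _).trans (hk u (mem_sphere.2 e.symm))) ε0.le
    have := uS.2.2
    simp only [hg] at this
    linarith
  obtain ⟨φ, a1, a2, a3, a4⟩ := hs u uS.2.1
  have φ0 : 0 < φ u := a2 ▸ h0 u uS.2.1
  obtain ⟨l, l0, hl⟩ := max_ls a1 φ0.ne' a4
  have := (hl.add (((max_lq (n1 u)).add (max_sum uS.2.1) 1).add (max_lq (n0 (sc u uS.1)))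
    (-((Z.card : ℝ) + 2))) ε).max (by
      filter_upwards [a3, continuousAt_const.eventually_lt a1.continuousAt φ0,
        oZ.mem_nhds uS.2.1, continuousAt_const.eventually_lt
          (show ContinuousAt (fun v => dist v c) u by fun_prop) ur] with v v1 v2 v3 v4
      have a := Real.log_le_log v2 v1
      have b : g v ≤ g u := (le_total (g w) (g v)).elim (fun k => hu ⟨v4.le, v3, k⟩)
        fun k => k.trans uS.2.2
      rw [a2]
      simp only [hg, hψ] at b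
      linarith)
  have p : 0 < ε * (4 * 1 / (1 + ‖u - 0‖ ^ 2) ^ 2) := by positivity
  simp only [mul_zero, zero_div, add_zero] at this
  linarith

/-- apply `max_test` to `log φ - ε ψ`, `ψ = - ∑ log ‖u - s‖² + N log ‖u - c‖² - log (1 + ‖u‖²)`,
outside a small disc around `c` -/
theorem max_const {Z : Finset ℂ} {F : ℂ → ℝ} (hc : ContinuousOn F (↑Z)ᶜ) (h0 : ∀ u ∉ Z, 0 < F u)
    (hs : ∀ u ∉ Z, ∃ φ : ℂ → ℝ, AnalyticAt ℝ φ u ∧ φ u = F u ∧ (∀ᶠ w in 𝓝 u, φ w ≤ F w) ∧ LS φ u)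
    (h1 : ∀ s ∈ Z, ∀ η > (0 : ℝ), ∀ᶠ u in 𝓝[≠] s, F u ≤ ‖u - s‖ ^ (-η))
    (h2 : ∀ η > (0 : ℝ), ∀ᶠ u in cocompact ℂ, F u ≤ ‖u‖ ^ η) :
    ∀ u ∉ Z, ∀ v ∉ Z, F u = F v := fun _ hu _ hv =>
  le_antisymm (max_le hc h0 hs h1 h2 hu hv) (max_le hc h0 hs h1 h2 hv hu)

end

end Pool.Agent.Lib.MP_5591bc_ag.A
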