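import Pool.Agent.Lib.MP_5591bc_ag.A.Rep
import Pool.Agent.Lib.MP_5591bc_ag.A.Max

/-! The Laplacian of the Hodge norm. -/

namespace Pool.Agent.Lib.MP_5591bc_ag.A

open Matrix Filter Topology Metric G R W M

noncomputable section

variable {ι ν α : Type*} [Fintype ι] [DecidableEq ι] [Fintype ν] [DecidableEq ν] [Fintype α]
  [DecidableEq α] {J : Matrix ν ν ℝ} {Ω : ℂ → Matrix ι ν ℂ} {u : ℂ} {m : ℕ}
  {ρ : Matrix ν ν ℝ → Matrix α α ℝ} {d : Matrix ν ν ℝ →ₗ[ℝ] Matrix α α ℝ}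

/-- a quadratic form as a linear map of the matrix -/
def lapQ (e : α → ℝ) : Matrix α α ℝ →ₗ[ℝ] Matrix Unit Unit ℝ where
  toFun A := of fun _ _ => e ⬝ᵥ A *ᵥ e
  map_add' A B := by ext; simp [add_mulVec]
  map_smul' c A := by ext; simp [smul_mulVec]

/-- the image of a vector as a linear map of the matrix -/
def lapC (e : α → ℝ) : Matrix α α ℝ →ₗ[ℝ] Matrix α Unit ℝ where
  toFun A := of fun a _ => (A *ᵥ e) a
  map_add' A B := by ext; simp [add_mulVec]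
  map_smul' c A := by ext; simp [smul_mulVec]

omit [DecidableEq α] in
theorem lap_qa {A : ℂ → Matrix α α ℝ} (h : AnM A u) (e : α → ℝ) :
    AnalyticAt ℝ (fun w => e ⬝ᵥ A w *ᵥ e) u := h.lin (lapQ e) () ()

omit [DecidableEq α] in
theorem lap_pv {A : ℂ → Matrix α α ℝ} (h : AnM A u) (e : α → ℝ) (v : ℂ) :
    pv v (fun w => e ⬝ᵥ A w *ᵥ e) u = e ⬝ᵥ pM v A u *ᵥ e :=
  congrFun (congrFun (pM_lin (v := v) h (lapQ e)) ()) ()

omit [DecidableEq α] in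
theorem lap_nn {A : Matrix α α ℝ} (h : A.PosSemidef) (x : α → ℝ) : 0 ≤ x ⬝ᵥ A *ᵥ x := by
  simpa using h.dotProduct_mulVec_nonneg x

omit [DecidableEq α] in
theorem lap_z {A : Matrix α α ℝ} (h : A.PosDef) {x : α → ℝ} (hx : x ⬝ᵥ A *ᵥ x ≤ 0) : x = 0 := by
  by_contra k
  have := h.dotProduct_mulVec_pos k
  rw [star_trivial] at this
  linarith

omit [DecidableEq α] in
theorem lap_cs {A : Matrix α α ℝ} (h : A.PosSemidef) (x y : α → ℝ) :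
    (x ⬝ᵥ A *ᵥ y) ^ 2 ≤ (x ⬝ᵥ A *ᵥ x) * (y ⬝ᵥ A *ᵥ y) := by
  have s : y ⬝ᵥ A *ᵥ x = x ⬝ᵥ A *ᵥ y := by
    have := h.1.eq
    rw [conjTranspose_eq_transpose_of_trivial] at this
    rw [dotProduct_mulVec, ← mulVec_transpose, this, dotProduct_comm]
  have := discrim_le_zero (a := y ⬝ᵥ A *ᵥ y) (b := 2 * (x ⬝ᵥ A *ᵥ y)) (c := x ⬝ᵥ A *ᵥ x)
    fun t => by
      have := lap_nn h (x + t • y)
      simp only [mulVec_add, mulVec_smul, add_dotProduct, dotProduct_add, smul_dotProduct,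
        dotProduct_smul, smul_eq_mul, s] at this
      linarith
  rw [discrim] at this
  linarith

theorem lap_hz (hΩ : ∀ i j, AnalyticAt ℂ (Ω · i j) u) (h : Rie J (Ω u)) (z : ℂ) :
    AnM (fun w => hz J (Ω w) z) u := (AnM.const _).add ((cr_anI hΩ h).smul _)

theorem lap_S (hJ : Jᵀ = -J) (hc : Fintype.card ν = 2 * Fintype.card ι)
    (hΩ : ∀ i j, AnalyticAt ℂ (Ω · i j) u) (h : ∀ᶠ w in 𝓝 u, Rie J (Ω w)) :
    pM 1 (fun w => Sm J (Ω w)) u = Sm J (Ω u) * -pM Complex.I (fun w => Cs J (Ω w)) u ∧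
      pM Complex.I (fun w => Sm J (Ω w)) u = Sm J (Ω u) * pM 1 (fun w => Cs J (Ω w)) u := by
  have h0 := h.self_of_nhds
  have k : ∀ v, J * pM v (fun w => Sm J (Ω w)) u = pM v (fun w => Cs J (Ω w)) u := fun v => by
    simp only [Cs]
    rw [pM_mul (AnM.const J) (cr_an hΩ h0), pM_const, Matrix.zero_mul, zero_add]
  have q := cr_eq hJ hc hΩ h
  have c : ∀ {X Y : Matrix ν ν ℝ}, J * X = J * Y → X = Y := fun e =>
    ((isUnit_iff_isUnit_det J).2 (cx_det hJ hc h0).isUnit).mul_left_cancel e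
  refine ⟨c ?_, c ?_⟩
  · rw [k, ← Matrix.mul_assoc, q, Matrix.mul_neg, ← Matrix.mul_assoc]
    change _ = -(Cs J (Ω u) * Cs J (Ω u) * _)
    rw [cx_sq hJ hc h0]
    simp
  · rw [k, ← Matrix.mul_assoc, q]
    rfl

/-- first and second derivative in one direction -/
theorem lap_dir (hρ : RepD m ρ d) {S A : ℂ → Matrix ν ν ℝ} {v : ℂ} (hS : AnM S u) (hA : AnM A u)
    (sy : ∀ᶠ w in 𝓝 u, (S w)ᵀ = S w) (h : ∀ᶠ w in 𝓝 u, pM v S w = S w * A w) (e : α → ℝ) :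
    pv v (fun w => e ⬝ᵥ ρ (S w) *ᵥ e) u = e ⬝ᵥ ρ (S u) *ᵥ (d (A u) *ᵥ e) ∧
      pv v (pv v fun w => e ⬝ᵥ ρ (S w) *ᵥ e) u = (d (A u) *ᵥ e) ⬝ᵥ ρ (S u) *ᵥ (d (A u) *ᵥ e) +
        e ⬝ᵥ ρ (S u) *ᵥ (d (pM v A u) *ᵥ e) := by
  have aR := hρ.an _ u hS
  have k : ∀ᶠ w in 𝓝 u, pM v (fun w => ρ (S w)) w = ρ (S w) * d (A w) := by
    filter_upwards [h, hS.ev] with w w1 w2
    exact hρ.der _ w v _ w2 w1
  have k1 : pv v (fun w => e ⬝ᵥ ρ (S w) *ᵥ e) =ᶠ[𝓝 u]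
      fun w => e ⬝ᵥ (ρ (S w) * d (A w)) *ᵥ e := by
    filter_upwards [k, aR.ev] with w w1 w2
    rw [lap_pv w2, w1]
  have s0 : (ρ (S u))ᵀ = ρ (S u) := by rw [← hρ.tr, sy.self_of_nhds]
  have s1 : (ρ (S u) * d (A u))ᵀ = ρ (S u) * d (A u) := by
    rw [← k.self_of_nhds]
    have : (fun w => (ρ (S w))ᵀ) =ᶠ[𝓝 u] fun w => ρ (S w) :=
      sy.mono fun w hw => by simp only [← hρ.tr, hw]
    exact (pM_congr (v := v) this).self_of_nhds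
  refine ⟨by rw [k1.self_of_nhds, mulVec_mulVec], ?_⟩
  have k2 : pv v (pv v fun w => e ⬝ᵥ ρ (S w) *ᵥ e) u =
      pv v (fun w => e ⬝ᵥ (ρ (S w) * d (A w)) *ᵥ e) u := by
    rw [pv, k1.fderiv_eq]
    rfl
  rw [k2, lap_pv (aR.mul (hA.lin d)), pM_mul aR (hA.lin d), pM_lin hA, k.self_of_nhds, add_mulVec,
    dotProduct_add, ← mulVec_mulVec e (ρ (S u)) (d (pM v A u)), ← s1, transpose_mul, s0,
    Matrix.mul_assoc, ← mulVec_mulVec, dotProduct_mulVec e, vecMul_transpose,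
    ← mulVec_mulVec e (ρ (S u)) (d (A u))]

theorem lap_form (hJ : Jᵀ = -J) (hc : Fintype.card ν = 2 * Fintype.card ι) (hρ : RepD m ρ d)
    (hΩ : ∀ i j, AnalyticAt ℂ (Ω · i j) u) (h : ∀ᶠ w in 𝓝 u, Rie J (Ω w)) (e : α → ℝ) :
    pv 1 (fun w => e ⬝ᵥ ρ (Sm J (Ω w)) *ᵥ e) u = e ⬝ᵥ ρ (Sm J (Ω u)) *ᵥ
      (d (-pM Complex.I (fun w => Cs J (Ω w)) u) *ᵥ e) ∧
    pv Complex.I (fun w => e ⬝ᵥ ρ (Sm J (Ω w)) *ᵥ e) u = e ⬝ᵥ ρ (Sm J (Ω u)) *ᵥ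
      (d (pM 1 (fun w => Cs J (Ω w)) u) *ᵥ e) ∧
    pv 1 (pv 1 fun w => e ⬝ᵥ ρ (Sm J (Ω w)) *ᵥ e) u +
      pv Complex.I (pv Complex.I fun w => e ⬝ᵥ ρ (Sm J (Ω w)) *ᵥ e) u =
      (d (-pM Complex.I (fun w => Cs J (Ω w)) u) *ᵥ e) ⬝ᵥ ρ (Sm J (Ω u)) *ᵥ
        (d (-pM Complex.I (fun w => Cs J (Ω w)) u) *ᵥ e) +
      (d (pM 1 (fun w => Cs J (Ω w)) u) *ᵥ e) ⬝ᵥ ρ (Sm J (Ω u)) *ᵥ
        (d (pM 1 (fun w => Cs J (Ω w)) u) *ᵥ e) := by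
  have h0 := h.self_of_nhds
  have aS := cr_an hΩ h0
  have aI := cr_anI hΩ h0
  have sy : ∀ᶠ w in 𝓝 u, (Sm J (Ω w))ᵀ = Sm J (Ω w) := h.mono fun w hw => cx_sym hw
  have ev : ∀ᶠ w in 𝓝 u, ∀ i j, AnalyticAt ℂ (Ω · i j) w :=
    eventually_all.2 fun i => eventually_all.2 fun j => (hΩ i j).eventually_analyticAt
  have q := (ev.and h.eventually_nhds).mono fun w hw => lap_S hJ hc hw.1 hw.2
  obtain ⟨a1, a2⟩ := lap_dir hρ (A := fun w => (-1 : ℝ) • pM Complex.I (fun w => Cs J (Ω w)) w)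
    (v := 1) aS ((aI.pM _).smul _) sy (q.mono fun w hw => by rw [hw.1, neg_one_smul]) e
  obtain ⟨b1, b2⟩ := lap_dir hρ (v := Complex.I) aS (aI.pM 1) sy (q.mono fun w hw => hw.2) e
  rw [pM_smul (aI.pM _), pM_comm aI] at a2
  simp only [neg_one_smul] at a1 a2
  refine ⟨a1, b1, ?_⟩
  rw [a2, b2, map_neg d (pM Complex.I (pM 1 _) u), neg_mulVec _ (d (pM Complex.I (pM 1 _) u)),
    mulVec_neg, dotProduct_neg]
  ring

theorem lap_an (hρ : RepD m ρ d) (hΩ : ∀ i j, AnalyticAt ℂ (Ω · i j) u) (h : Rie J (Ω u))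
    (e : α → ℝ) : AnalyticAt ℝ (fun w => e ⬝ᵥ ρ (Sm J (Ω w)) *ᵥ e) u := by
  exact lap_qa (hρ.an _ u (cr_an hΩ h)) e

/-- `S_x = S * (- I_y)`, `S_y = S * I_x`; the Laplacian is a sum of two squares -/
theorem lap_ls (hJ : Jᵀ = -J) (hc : Fintype.card ν = 2 * Fintype.card ι) (hρ : RepD m ρ d)
    (hΩ : ∀ i j, AnalyticAt ℂ (Ω · i j) u) (h : ∀ᶠ w in 𝓝 u, Rie J (Ω w)) (e : α → ℝ) :
    LS (fun w => e ⬝ᵥ ρ (Sm J (Ω w)) *ᵥ e) u := by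
  obtain ⟨k1, k2, k3⟩ := lap_form hJ hc hρ hΩ h e
  have p := hρ.psd (cx_pd hJ hc h.self_of_nhds).posSemidef
  rw [LS, k1, k2, k3, mul_add]
  exact add_le_add (lap_cs p _ _) (lap_cs p _ _)

theorem lap_max (hJ : Jᵀ = -J) (hc : Fintype.card ν = 2 * Fintype.card ι) (hρ : RepD m ρ d)
    (hΩ : ∀ i j, AnalyticAt ℂ (Ω · i j) u) (h : ∀ᶠ w in 𝓝 u, Rie J (Ω w)) {e : α → ℝ}
    (hm : IsLocalMax (fun w => e ⬝ᵥ ρ (Sm J (Ω w)) *ᵥ e) u) :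
    d (pM 1 (fun w => Cs J (Ω w)) u) *ᵥ e = 0 ∧
      d (pM Complex.I (fun w => Cs J (Ω w)) u) *ᵥ e = 0 := by
  obtain ⟨-, -, k3⟩ := lap_form hJ hc hρ hΩ h e
  have p := hρ.pd (cx_pd hJ hc h.self_of_nhds)
  have t := max_test (lap_an hρ hΩ h.self_of_nhds e) hm
  rw [k3] at t
  have n1 := lap_nn p.posSemidef (d (-pM Complex.I (fun w => Cs J (Ω w)) u) *ᵥ e)
  have n2 := lap_nn p.posSemidef (d (pM 1 (fun w => Cs J (Ω w)) u) *ᵥ e)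
  refine ⟨lap_z p (by linarith), ?_⟩
  have := lap_z p (x := d (-pM Complex.I (fun w => Cs J (Ω w)) u) *ᵥ e) (by linarith)
  rwa [map_neg, neg_mulVec, neg_eq_zero] at this

theorem lap_anh (hρ : RepD m ρ d) (hΩ : ∀ i j, AnalyticAt ℂ (Ω · i j) u) (h : Rie J (Ω u))
    (e : α → ℝ) (z : ℂ) (a : α) : AnalyticAt ℝ (fun w => (ρ (hz J (Ω w) z) *ᵥ e) a) u := by
  exact (hρ.an _ u (lap_hz hΩ h z)).lin (lapC e) a ()

theorem lap_const (hJ : Jᵀ = -J) (hc : Fintype.card ν = 2 * Fintype.card ι) (hρ : RepD m ρ d)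
    {c : ℂ} {r : ℝ} (hΩ : ∀ i j, AnalyticOnNhd ℂ (Ω · i j) (ball c r))
    (h : ∀ w ∈ ball c r, Rie J (Ω w)) {e : α → ℝ}
    (h0 : ∀ u ∈ ball c r, d (pM 1 (fun w => Cs J (Ω w)) u) *ᵥ e = 0 ∧
      d (pM Complex.I (fun w => Cs J (Ω w)) u) *ᵥ e = 0) {z : ℂ} (z0 : z ≠ 0) :
    ∀ u ∈ ball c r, ρ (hz J (Ω u) z) *ᵥ e = ρ (hz J (Ω c) z) *ᵥ e := by
  intro u hu
  have an : ∀ w ∈ ball c r, AnM (fun w => hz J (Ω w) z) w := fun w hw =>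
    lap_hz (fun i j => hΩ i j w hw) (h w hw) z
  have key : ∀ w ∈ ball c r, ∀ v : ℂ, d (pM v (fun w => Cs J (Ω w)) w) *ᵥ e = 0 →
      d (Cs J (Ω w) * pM v (fun w => Cs J (Ω w)) w) *ᵥ e = 0 →
      pM v (fun w => lapC e (ρ (hz J (Ω w) z))) w = 0 := by
    intro w hw v q1 q2
    have aI := cr_anI (fun i j => hΩ i j w hw) (h w hw)
    have e1 : pM v (fun w => hz J (Ω w) z) w = hz J (Ω w) z *
        (z.im • (hz J (Ω w) z⁻¹ * pM v (fun w => Cs J (Ω w)) w)) := by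
      rw [Matrix.mul_smul, ← Matrix.mul_assoc, cx_hz_mul hJ hc (h w hw), mul_inv_cancel₀ z0]
      simp only [hz]
      rw [pM_add (AnM.const _) (aI.smul _), pM_const, pM_smul aI]
      simp
    rw [pM_lin (hρ.an _ w (an w hw)), hρ.der _ w v _ (an w hw) e1]
    ext a b
    simp only [lapC, LinearMap.coe_mk, AddHom.coe_mk, of_apply, ← mulVec_mulVec, hz,
      Matrix.add_mul, Matrix.smul_mul, Matrix.one_mul, map_smul, map_add, smul_mulVec, add_mulVec,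
      q1, q2, smul_zero, add_zero, mulVec_zero, Pi.zero_apply, Matrix.zero_apply]
  have := pM_zero (A := fun w => lapC e (ρ (hz J (Ω w) z)))
    (fun w hw => (hρ.an _ w (an w hw)).lin _) (fun w hw => ?_) u hu
  · exact funext fun a => congrFun (congrFun this a) ()
  have q := cr_eq hJ hc (fun i j => hΩ i j w hw) (mem_of_superset (isOpen_ball.mem_nhds hw) h)
  refine ⟨key w hw 1 (h0 w hw).1 (q ▸ (h0 w hw).2), key w hw _ (h0 w hw).2 ?_⟩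
  rw [q, ← Matrix.mul_assoc, cx_sq hJ hc (h w hw), Matrix.neg_mul, Matrix.one_mul, map_neg,
    neg_mulVec, (h0 w hw).1, neg_zero]

end

end Pool.Agent.Lib.MP_5591bc_ag.A
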