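import Pool.Agent.Lib.MP_5591bc_ag.A.Cr

/-! Representations. -/

namespace Pool.Agent.Lib.MP_5591bc_ag.A

open Matrix Filter Topology Metric G R W M

noncomputable section

variable {ν α : Type*} [Fintype ν] [DecidableEq ν] [Fintype α] [DecidableEq α] {m : ℕ}
  {ρ : Matrix ν ν ℝ → Matrix α α ℝ} {d : Matrix ν ν ℝ →ₗ[ℝ] Matrix α α ℝ}

open scoped MatrixOrder in
theorem rep_sq {A : Matrix ν ν ℝ} (hA : A.PosSemidef) : ∃ B : Matrix ν ν ℝ, A = Bᵀ * B := by
  obtain ⟨B, rfl⟩ := CStarAlgebra.nonneg_iff_eq_star_mul_self.mp hA.nonneg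
  exact ⟨B, rfl⟩

omit [DecidableEq ν] in
theorem rep_tm (B : Matrix ν ν ℝ) : (Bᵀ * B).PosSemidef := posSemidef_conjTranspose_mul_self B

theorem RepD.psd (h : RepD m ρ d) {A : Matrix ν ν ℝ} (hA : A.PosSemidef) : (ρ A).PosSemidef := by
  obtain ⟨B, rfl⟩ := rep_sq hA
  rw [h.mul, h.tr]
  exact rep_tm _

theorem RepD.pd (h : RepD m ρ d) {A : Matrix ν ν ℝ} (hA : A.PosDef) : (ρ A).PosDef := by
  refine (h.psd hA.posSemidef).posDef_iff_isUnit.2 (IsUnit.of_mul_eq_one (ρ A⁻¹) ?_)
  rw [← h.mul, mul_nonsing_inv _ ((isUnit_iff_isUnit_det _).1 hA.isUnit), h.one]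

theorem rep_id : RepD 1 (fun A : Matrix ν ν ℝ => A) LinearMap.id :=
  ⟨rfl, fun _ _ => rfl, fun _ => rfl, fun _ _ h => h, fun _ _ _ _ _ h => h,
    fun _ _ _ _ _ h => by rwa [pow_one]⟩

omit [Fintype ν] in
theorem rep_exg_add (ε ε' : ℝ) (Y Y' : Matrix ν ν ℝ) :
    exg (ε + ε') (Y + Y') = exg ε Y + exg ε' Y' := by
  ext (_ | ⟨p, q⟩) (_ | ⟨p', q'⟩) <;> simp [exg]
  split_ifs <;> simp

omit [Fintype ν] in
theorem rep_exg_tr (ε : ℝ) (Y : Matrix ν ν ℝ) : exg ε Yᵀ = (exg ε Y)ᵀ := by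
  ext (_ | ⟨p, q⟩) (_ | ⟨p', q'⟩) <;> simp [exg, eq_comm]

/-- `d = exg 0` -/
theorem rep_exg : ∃ d, RepD 1 (fun A : Matrix ν ν ℝ => exg 1 A) d := by
  let d : Matrix ν ν ℝ →ₗ[ℝ] Matrix (Option (ν × ν)) (Option (ν × ν)) ℝ :=
    { toFun := exg 0
      map_add' := fun Y Y' => by rw [← rep_exg_add, add_zero]
      map_smul' := fun a Y => by rw [RingHom.id_apply, exg_smul, mul_zero] }
  have e : ∀ A : Matrix ν ν ℝ, exg 1 A = exg 1 0 + d A := fun A => by
    change _ = _ + exg 0 A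
    rw [← rep_exg_add, add_zero, zero_add]
  refine ⟨d, exg_one, fun A B => by rw [exg_mul, one_mul], rep_exg_tr 1, fun A u h => ?_,
    fun A u v X h hX => ?_, fun A B κ hκ _ h => ?_⟩
  · rw [funext fun w => e (A w)]
    exact (AnM.const _).add (h.lin d)
  · rw [funext fun w => e (A w), pM_add (AnM.const _) (h.lin d), pM_const, pM_lin h, zero_add, hX]
    change exg 0 _ = _ * exg 0 X
    rw [exg_mul, mul_zero]
  · obtain ⟨C, hC⟩ := rep_sq h
    have : κ ^ 1 • exg 1 B - exg 1 A = (exg √(κ - 1) C)ᵀ * exg √(κ - 1) C := by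
      rw [← rep_exg_tr, exg_mul, Real.mul_self_sqrt (sub_nonneg.2 hκ), ← hC, sub_eq_iff_eq_add,
        ← rep_exg_add, pow_one, exg_smul, sub_add_cancel, sub_add_cancel, mul_one]
    exact this ▸ rep_tm _

theorem rep_pi_psd {L : Type*} [Fintype L] [DecidableEq L] {A : L → Matrix α α ℝ}
    (h : ∀ l, (A l).PosSemidef) : (piM A).PosSemidef := by
  choose B hB using fun l => rep_sq (h l)
  rw [funext hB, ← piM_mul]
  exact rep_tm (piM B)

theorem rep_tB {L : Type*} [Fintype L] [DecidableEq L] (A X : Matrix α α ℝ) (μ μ' : L → α) :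
    (piM (fun _ : L => A) * tB L X :) μ μ' =
      ∑ l, (∏ j ∈ Finset.univ.erase l, A (μ j) (μ' j)) * (A * X) (μ l) (μ' l) := by
  rw [tB, Finset.mul_sum, Matrix.sum_apply]
  refine Finset.sum_congr rfl fun l _ => ?_
  rw [piM_mul, piM, of_apply, ← Finset.prod_erase_mul _ _ (Finset.mem_univ l),
    Function.update_self]
  congr 1
  exact Finset.prod_congr rfl fun j hj => by
    rw [Function.update_of_ne (Finset.ne_of_mem_erase hj), mul_one]

/-- `d' = tB L ∘ d`; for `mono` expand the product of `a + b` over subsets -/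
theorem rep_pi (h : RepD m ρ d) (L : Type*) [Fintype L] [DecidableEq L] :
    ∃ d', RepD (Fintype.card L * m) (fun A => piM fun _ : L => ρ A) d' := by
  let t : Matrix α α ℝ →ₗ[ℝ] Matrix (L → α) (L → α) ℝ :=
    { toFun := tB L
      map_add' := fun Y Y' => by
        ext μ μ'
        simp only [tB_apply, Matrix.add_apply, mul_add, Finset.sum_add_distrib]
      map_smul' := fun a Y => by
        ext μ μ'
        simp only [tB_apply, Matrix.smul_apply, smul_eq_mul, RingHom.id_apply, Finset.mul_sum,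
          mul_left_comm a] }
  refine ⟨t ∘ₗ d, by simp only [h.one, piM_one], fun A B => by simp only [h.mul, piM_mul],
    fun A => by simp only [h.tr]; rfl, fun A u hA μ μ' => ?_, fun A u v X hA hX => ?_,
    fun A B κ hκ hA hB => ?_⟩
  · exact Finset.analyticAt_fun_prod _ fun j _ => h.an A u hA _ _
  · ext μ μ'
    change fderiv ℝ (fun w => ∏ j, ρ (A w) (μ j) (μ' j)) u v =
      (piM (fun _ : L => ρ (A u)) * tB L (d X) :) μ μ'
    rw [fderiv_finsetProd fun j _ => (h.an A u hA _ _).differentiableAt, rep_tB,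
      ← h.der A u v X hA hX]
    simp only [_root_.sum_apply, _root_.smul_apply, smul_eq_mul]
    rfl
  · have e : κ ^ (Fintype.card L * m) • piM (fun _ : L => ρ B) - piM (fun _ : L => ρ A) =
        ∑ s ∈ Finset.univ.erase (∅ : Finset L),
          piM fun j => if j ∈ s then κ ^ m • ρ B - ρ A else ρ A := by
      rw [Finset.sum_erase_eq_sub (Finset.mem_univ _)]
      simp only [Finset.notMem_empty, if_false]
      congr 1
      ext μ μ'
      have := Fintype.prod_add (fun j => (κ ^ m • ρ B - ρ A) (μ j) (μ' j))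
        fun j => ρ A (μ j) (μ' j)
      simp only [← Matrix.add_apply, sub_add_cancel] at this
      simp only [Matrix.smul_apply, smul_eq_mul, Finset.prod_mul_distrib, Finset.prod_const,
        Finset.card_univ, ← pow_mul, mul_comm m] at this
      rw [Matrix.smul_apply, smul_eq_mul, piM, of_apply, this, Matrix.sum_apply]
      refine Finset.sum_congr rfl fun s _ => ?_
      rw [piM, of_apply, ← Finset.prod_mul_prod_compl s]
      congr 1
      · exact Finset.prod_congr rfl fun j hj => by rw [if_pos hj]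
      · exact Finset.prod_congr rfl fun j hj => by rw [if_neg (Finset.mem_compl.1 hj)]
    rw [e]
    refine posSemidef_sum _ fun s _ => rep_pi_psd fun j => ?_
    split_ifs
    exacts [h.mono A B κ hκ hA hB, h.psd hA]

theorem rep_rW (r δ : ℕ) : ∃ m d, RepD m (fun A : Matrix ν ν ℝ => rW r δ A) d := by
  obtain ⟨d, h⟩ := rep_exg (ν := ν)
  obtain ⟨d, h⟩ := rep_pi h (Fin δ)
  obtain ⟨d, h⟩ := rep_pi h (Fin r)
  exact ⟨_, d, h⟩

end

end Pool.Agent.Lib.MP_5591bc_ag.A
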