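import Pool.Agent.Lib.MP_5591bc_ag.A.Defs
import Pool.Agent.Lib.MP_5591bc_ag.E.Set

/-! Shared definitions for the theorem of the fixed part. -/

namespace Pool.Agent.Lib.MP_5591bc_ag.A

open Matrix Filter Topology Metric G R W M

noncomputable section

variable {ι ν α β σ K : Type*}

/-- a real matrix as a complex matrix -/
abbrev cx (A : Matrix α β ℝ) : Matrix α β ℂ := A.map Complex.ofReal

/-- a rational matrix as a real matrix -/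
abbrev qr (A : Matrix α β ℚ) : Matrix α β ℝ := A.map Rat.cast

/-- a rational matrix as a complex matrix -/
abbrev qc (A : Matrix α β ℚ) : Matrix α β ℂ := A.map Rat.cast

/-- partial derivative in the direction `v` -/
def pv (v : ℂ) (g : ℂ → ℝ) (u : ℂ) : ℝ := fderiv ℝ g u v

/-- the same for matrices -/
def pM (v : ℂ) (A : ℂ → Matrix α β ℝ) (u : ℂ) : Matrix α β ℝ := of fun i j => pv v (A · i j) u

/-- real analytic entries -/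
def AnM (A : ℂ → Matrix α β ℝ) (u : ℂ) : Prop := ∀ i j, AnalyticAt ℝ (A · i j) u

/-- the logarithm of `φ` has non negative Laplacian at `u` -/
def LS (φ : ℂ → ℝ) (u : ℂ) : Prop :=
  pv 1 φ u ^ 2 + pv Complex.I φ u ^ 2 ≤
    φ u * (pv 1 (pv 1 φ) u + pv Complex.I (pv Complex.I φ) u)

variable [Fintype ι] [DecidableEq ι] [Fintype ν] [DecidableEq ν]

/-- the Hermitian form on `H^{1,0}` -/
def Hm (J : Matrix ν ν ℝ) (Ω : Matrix ι ν ℂ) : Matrix ι ι ℂ := (-Complex.I) • (Ω * cx J * Ωᴴ)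

/-- the Hodge metric -/
def Sm (J : Matrix ν ν ℝ) (Ω : Matrix ι ν ℂ) : Matrix ν ν ℝ :=
  of fun i j => 2 * ((Ωᴴ * (Hm J Ω)⁻¹ * Ω) i j).re

/-- the complex structure -/
def Cs (J : Matrix ν ν ℝ) (Ω : Matrix ι ν ℂ) : Matrix ν ν ℝ := J * Sm J Ω

/-- the action of `z` -/
def hz (J : Matrix ν ν ℝ) (Ω : Matrix ι ν ℂ) (z : ℂ) : Matrix ν ν ℝ :=
  z.re • (1 : Matrix ν ν ℝ) + z.im • Cs J Ω

/-- a representation of the monoid of real matrices of degree at most `m`, with derivative `d` -/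
structure RepD [Fintype α] [DecidableEq α] (m : ℕ) (ρ : Matrix ν ν ℝ → Matrix α α ℝ)
    (d : Matrix ν ν ℝ →ₗ[ℝ] Matrix α α ℝ) : Prop where
  one : ρ 1 = 1
  mul : ∀ A B, ρ (A * B) = ρ A * ρ B
  tr : ∀ A, ρ Aᵀ = (ρ A)ᵀ
  an : ∀ (A : ℂ → Matrix ν ν ℝ) u, AnM A u → AnM (fun w => ρ (A w)) u
  der : ∀ (A : ℂ → Matrix ν ν ℝ) u v X, AnM A u → pM v A u = A u * X →
    pM v (fun w => ρ (A w)) u = ρ (A u) * d X
  mono : ∀ (A B : Matrix ν ν ℝ) (κ : ℝ), 1 ≤ κ → A.PosSemidef → (κ • B - A).PosSemidef →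
    (κ ^ m • ρ B - ρ A).PosSemidef

/-- the action on tensor powers of the monomials -/
def rW {S : Type*} [CommRing S] (r δ : ℕ) (g : Matrix ν ν S) :
    Matrix (Fin r → Mo δ ν) (Fin r → Mo δ ν) S :=
  piM fun _ : Fin r => piM fun _ : Fin δ => exg 1 g

/-- a multivalued polarised period map on the complement of `Z`, with monodromy `Γ` -/
structure Fam (J : Matrix ν ν ℝ) (Z : Finset ℂ) (Γ : Set (Matrix ν ν ℝ))
    (𝓑 : Set (Set ℂ × (ℂ → Matrix ι ν ℂ))) : Prop where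
  op : ∀ b ∈ 𝓑, IsOpen b.1
  an : ∀ b ∈ 𝓑, ∀ i j, AnalyticOnNhd ℂ (b.2 · i j) b.1
  rie : ∀ b ∈ 𝓑, ∀ u ∈ b.1, Rie J (b.2 u)
  sp : ∀ γ ∈ Γ, γ * J * γᵀ = J
  fin : ∀ c ∉ Z, ∃ ρ > 0, ∃ 𝒥 : Set (ℂ → Matrix ι ν ℂ), 𝒥.Finite ∧ 𝒥.Nonempty ∧
    (∀ Ω ∈ 𝒥, (ball c ρ, Ω) ∈ 𝓑) ∧
      ∀ b ∈ 𝓑, ∀ u ∈ b.1, u ∈ ball c ρ → ∃ Ω ∈ 𝒥, ∃ γ ∈ Γ, b.2 u = Ω u * cx γ
  ext : ∀ b ∈ 𝓑, ∀ u ∈ b.1, ∀ (s : ℂ) (R : ℝ), u ≠ s →
    (∀ ζ ∈ ball (0 : ℂ) R, s + (u - s) * Complex.exp ζ ∉ Z) → ∃ Ω : ℂ → Matrix ι ν ℂ,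
      (∀ i j, AnalyticOnNhd ℂ (Ω · i j) (ball 0 R)) ∧ Ω 0 = b.2 u ∧ ∀ ζ ∈ ball (0 : ℂ) R,
        ∃ b' ∈ 𝓑, s + (u - s) * Complex.exp ζ ∈ b'.1 ∧ Ω ζ = b'.2 (s + (u - s) * Complex.exp ζ)
  conn : ∀ w : Matrix ι ν ℂ → ℝ, (∀ b ∈ 𝓑, AnalyticOnNhd ℝ (fun u => w (b.2 u)) b.1) →
    ∀ b ∈ 𝓑, ∀ b' ∈ 𝓑, ∀ u ∈ b.1, (∀ᶠ v in 𝓝 u, w (b.2 v) = 0) → ∀ v ∈ b'.1, w (b'.2 v) = 0

/-- a group of rational matrices with a common denominator -/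
structure Grp (Γ : Set (Matrix ν ν ℚ)) : Prop where
  one : 1 ∈ Γ
  mul : ∀ a ∈ Γ, ∀ b ∈ Γ, a * b ∈ Γ
  inv : ∀ a ∈ Γ, ∃ b ∈ Γ, a * b = 1
  den : ∃ D : ℕ, 0 < D ∧ ∀ a ∈ Γ, ∀ i j, ∃ n : ℤ, (D : ℚ) * a i j = n

/-- the Zariski closure over `ℂ` -/
def Zc (Γ : Set (Matrix ν ν ℚ)) : Set (Matrix ν ν ℂ) :=
  {g | ∀ p : MvPolynomial (ν × ν) ℂ, (∀ γ ∈ Γ, MvPolynomial.eval (fun a => qc γ a.1 a.2) p = 0) →
    MvPolynomial.eval (fun a => g a.1 a.2) p = 0}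

/-- a domain, an arc and a matrix along the arc -/
abbrev Bc (σ ν : Type*) := Set ℂ × (ℂ → σ → ℂ) × (ℂ → Matrix ν ν ℂ)

/-- right multiplication by a constant matrix -/
def mulB (b : Bc σ ν) (g : Matrix ν ν ℂ) : Bc σ ν := (b.1, b.2.1, fun u => b.2.2 u * g)

variable [Field K] [Algebra K ℂ] [Fintype σ] [DecidableEq σ]

/-- a fundamental matrix along an arc -/
def IsBr (T : MvPolynomial σ K) (B : σ → Matrix ν ν (MvPolynomial σ K)) (b : Bc σ ν) : Prop :=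
  IsOpen b.1 ∧ IsPreconnected b.1 ∧ AnalyticOnNhd ℂ b.2.1 b.1 ∧ ∀ u ∈ b.1,
    MvPolynomial.aeval (b.2.1 u) T ≠ 0 ∧ ∃ V Q, IsOpen V ∧ IsPreconnected V ∧ FundM T B V Q ∧
      b.2.1 u ∈ V ∧ ∀ᶠ v in 𝓝 u, b.2.2 v = Q (b.2.1 v)

/-- two branches with a common germ -/
def Nb (T : MvPolynomial σ K) (B : σ → Matrix ν ν (MvPolynomial σ K)) (b b' : Bc σ ν) : Prop :=
  IsBr T B b ∧ IsBr T B b' ∧ ∃ u ∈ b.1, u ∈ b'.1 ∧
    ∀ᶠ v in 𝓝 u, b.2.1 v = b'.2.1 v ∧ b.2.2 v = b'.2.2 v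

/-- continuation along chains -/
def Rch (T : MvPolynomial σ K) (B : σ → Matrix ν ν (MvPolynomial σ K)) : Bc σ ν → Bc σ ν → Prop :=
  Relation.ReflTransGen (Nb T B)

/-- off `Z` the equations `g l` have simple roots and `0` is not a root of `p` -/
structure AlgD (Z : Finset ℂ) (g : σ → Polynomial (Polynomial ℂ))
    (p : Polynomial (Polynomial ℂ)) : Prop where
  deg : ∀ l, ∀ u ∉ Z, ((g l).map (Polynomial.evalRingHom u)).natDegree = (g l).natDegree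
  sep : ∀ l, ∀ u ∉ Z, ∀ a, (g l).evalEval u a = 0 → (Polynomial.derivative (g l)).evalEval u a ≠ 0
  nz : ∀ u ∉ Z, p.evalEval u 0 ≠ 0

/-- the point `(u, y)` satisfies the equations -/
def OnC (T : MvPolynomial σ K) (g : σ → Polynomial (Polynomial ℂ)) (p : Polynomial (Polynomial ℂ))
    (u : ℂ) (y : σ → ℂ) : Prop :=
  (∀ l, (g l).evalEval u (y l) = 0) ∧ p.evalEval u (MvPolynomial.aeval y T) = 0

end

end Pool.Agent.Lib.MP_5591bc_ag.A
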