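import Mathlib

/-! A normal subgroup of the complex symplectic group is central or everything. -/

namespace Pool.Agent.Lib.MP_5591bc_ag.A

open Matrix

noncomputable section

variable {ν : Type*} [Fintype ν] [DecidableEq ν] {J : Matrix ν ν ℂ}

/-- the transvection `x ↦ x + a * ω(x, v) v` acting on rows -/
def spT (J : Matrix ν ν ℂ) (v : ν → ℂ) (a : ℂ) : Matrix ν ν ℂ := 1 + a • vecMulVec (J *ᵥ v) v

lemma spT_vec (x v : ν → ℂ) (a : ℂ) : x ᵥ* spT J v a = x + (a * toBilin' J x v) • v := by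
  rw [spT, vecMul_add, vecMul_one, vecMul_smul, vecMul_vecMulVec, toBilin'_apply', mul_smul]

lemma sp_skew (hJ : Jᵀ = -J) (x y : ν → ℂ) : toBilin' J x y = -toBilin' J y x := by
  rw [toBilin'_apply', toBilin'_apply', dotProduct_mulVec, ← mulVec_transpose, hJ, neg_mulVec,
    neg_dotProduct, dotProduct_comm]

lemma sp_self (hJ : Jᵀ = -J) (x : ν → ℂ) : toBilin' J x x = 0 := by
  linear_combination (sp_skew hJ x x) / 2

lemma sp_iff {g : Matrix ν ν ℂ} :
    g * J * gᵀ = J ↔ ∀ x y, toBilin' J (x ᵥ* g) (y ᵥ* g) = toBilin' J x y := by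
  have key : ∀ x y, toBilin' J (x ᵥ* g) (y ᵥ* g) = toBilin' (g * J * gᵀ) x y := fun x y => by
    rw [toBilin'_apply', toBilin'_apply', ← mulVec_transpose g y, ← dotProduct_mulVec,
      mulVec_mulVec, mulVec_mulVec]
  refine ⟨fun h x y => by rw [key, h], fun h => toBilin'.injective ?_⟩
  exact LinearMap.ext fun x => LinearMap.ext fun y => by rw [← key, h]

lemma sp_nd (hd : J.det ≠ 0) {v : ν → ℂ} (hv : v ≠ 0) : ∃ x, toBilin' J x v ≠ 0 := by
  by_contra h
  push Not at h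
  refine hv (eq_zero_of_mulVec_eq_zero hd (funext fun i => ?_))
  simpa [toBilin'_apply'] using h (Pi.single i 1)

lemma sp_ext {A B : Matrix ν ν ℂ} (h : ∀ x, x ᵥ* A = x ᵥ* B) : A = B := by
  ext i j
  simpa using congrFun (h (Pi.single i 1)) j

lemma spT_sp (hJ : Jᵀ = -J) (v : ν → ℂ) (a : ℂ) : spT J v a * J * (spT J v a)ᵀ = J := by
  refine sp_iff.mpr fun x y => ?_
  simp only [spT_vec, map_add, map_smul, LinearMap.add_apply, LinearMap.smul_apply, smul_eq_mul,
    sp_self hJ, sp_skew hJ v y]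
  ring

lemma spT_add (hJ : Jᵀ = -J) (v : ν → ℂ) (a b : ℂ) : spT J v a * spT J v b = spT J v (a + b) := by
  refine sp_ext fun x => ?_
  simp only [← vecMul_vecMul, spT_vec, map_add, map_smul, LinearMap.add_apply,
    LinearMap.smul_apply, smul_eq_mul, sp_self hJ]
  module

lemma spT_zero (v : ν → ℂ) : spT J v 0 = 1 := by simp [spT]

lemma spT_inv (hJ : Jᵀ = -J) (v : ν → ℂ) (a : ℂ) : spT J v (-a) * spT J v a = 1 := by
  rw [spT_add hJ, neg_add_cancel, spT_zero]

lemma spT_inv' (hJ : Jᵀ = -J) (v : ν → ℂ) (a : ℂ) : spT J v a * spT J v (-a) = 1 := by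
  rw [spT_add hJ, add_neg_cancel, spT_zero]

lemma spT_smul (v : ν → ℂ) (c a : ℂ) : spT J (c • v) a = spT J v (c ^ 2 * a) := by
  refine sp_ext fun x => ?_
  simp only [spT_vec, map_smul, smul_eq_mul]
  module

lemma spT_conj {h : Matrix ν ν ℂ} (hh : h * J * hᵀ = J) (v : ν → ℂ) (a : ℂ) :
    spT J v a * h = h * spT J (v ᵥ* h) a := by
  refine sp_ext fun x => ?_
  simp only [← vecMul_vecMul, spT_vec, add_vecMul, smul_vecMul, sp_iff.mp hh]

lemma sp_mul {g h : Matrix ν ν ℂ} (hg : g * J * gᵀ = J) (hh : h * J * hᵀ = J) :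
    g * h * J * (g * h)ᵀ = J :=
  sp_iff.mpr fun x y => by simp only [← vecMul_vecMul, sp_iff.mp hg, sp_iff.mp hh]

/-- the transvections generate -/
theorem sp_gen (hJ : Jᵀ = -J) (hd : J.det ≠ 0) (N : Set (Matrix ν ν ℂ))
    (hm : ∀ a ∈ N, ∀ b ∈ N, a * b ∈ N) (hT : ∀ v a, spT J v a ∈ N) (g : Matrix ν ν ℂ)
    (hg : g * J * gᵀ = J) : g ∈ N := by
  have main : ∀ F : Submodule ℂ (ν → ℂ), ∀ g : Matrix ν ν ℂ, g * J * gᵀ = J →
      (∀ f ∈ F, f ᵥ* g = f) → g ∈ N := by
    intro F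
    induction F using WellFoundedGT.induction with
    | ind F ih =>
    have perp : ∀ g : Matrix ν ν ℂ, g * J * gᵀ = J → (∀ f ∈ F, f ᵥ* g = f) → ∀ x a, ∀ f ∈ F,
        f ᵥ* (g * spT J (x ᵥ* g - x) a) = f := fun g hg hF x a f hf => by
      have := sp_iff.mp hg f x
      rw [hF f hf] at this
      rw [← vecMul_vecMul, hF f hf, spT_vec, map_sub, this, sub_self, mul_zero, zero_smul, add_zero]
    have back : ∀ (g : Matrix ν ν ℂ) v a, g * spT J v a ∈ N → g ∈ N := fun g v a h => by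
      have := hm _ h _ (hT v (-a))
      rwa [mul_assoc, spT_inv' hJ, mul_one] at this
    have one : ∀ g : Matrix ν ν ℂ, g * J * gᵀ = J → (∀ f ∈ F, f ᵥ* g = f) → ∀ x,
        toBilin' J x (x ᵥ* g) ≠ 0 → g ∈ N := fun g hg hF x hx => by
      refine back g (x ᵥ* g - x) (-(toBilin' J x (x ᵥ* g))⁻¹)
        (ih (F ⊔ Submodule.span ℂ {x}) ?_ _ (sp_mul hg (spT_sp hJ _ _)) fun f hf => ?_)
      · refine lt_of_le_of_ne le_sup_left fun e => hx ?_
        have : x ∈ F := e ▸ Submodule.mem_sup_right (Submodule.mem_span_singleton_self x)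
        rw [hF x this, sp_self hJ]
      · obtain ⟨f, hf', y, hy, rfl⟩ := Submodule.mem_sup.mp hf
        obtain ⟨c, rfl⟩ := Submodule.mem_span_singleton.mp hy
        rw [add_vecMul, perp g hg hF x _ f hf', smul_vecMul, ← vecMul_vecMul, spT_vec, map_sub,
          sp_self hJ, sp_skew hJ (x ᵥ* g) x, zero_sub, neg_neg, neg_mul, inv_mul_cancel₀ hx]
        module
    intro g hg hF
    by_cases h1 : ∃ x, toBilin' J x (x ᵥ* g) ≠ 0
    · obtain ⟨x, hx⟩ := h1
      exact one g hg hF x hx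
    push Not at h1
    by_cases h2 : ∀ y, y ᵥ* g - y = 0
    · have : g = spT J 0 0 := by
        rw [spT_zero]
        exact sp_ext fun x => by rw [vecMul_one, sub_eq_zero.mp (h2 x)]
      exact this ▸ hT 0 0
    push Not at h2
    obtain ⟨y, hy⟩ := h2
    obtain ⟨x, hx⟩ := sp_nd hd hy
    refine back g (y ᵥ* g - y) 1 (one _ (sp_mul hg (spT_sp hJ _ _)) (perp g hg hF y 1) x ?_)
    have e : toBilin' J (x ᵥ* g) (y ᵥ* g - y) = -toBilin' J x (y ᵥ* g - y) := by
      have h3 := h1 (x + y)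
      simp only [add_vecMul, map_add, LinearMap.add_apply, h1, sp_skew hJ y (x ᵥ* g)] at h3
      rw [map_sub, map_sub, sp_iff.mp hg]
      linear_combination h3
    rw [← vecMul_vecMul, spT_vec, map_add, map_smul, h1, e, smul_eq_mul, zero_add, one_mul]
    exact mul_ne_zero (neg_ne_zero.mpr hx) hx
  exact main ⊥ g hg fun f hf => by rw [(Submodule.mem_bot ℂ).mp hf, zero_vecMul]

lemma sp_scalar (hJ : Jᵀ = -J) (hd : J.det ≠ 0) {n : Matrix ν ν ℂ} (hn : n * J * nᵀ = J)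
    (h : ∀ v z, toBilin' J v z = 0 → toBilin' J (v ᵥ* n) z = 0) : n = 1 ∨ n = -1 := by
  by_cases h0 : ∀ z : ν → ℂ, z = 0
  · exact .inl (sp_ext fun x => (h0 _).trans (h0 _).symm)
  push Not at h0
  obtain ⟨z0, hz0⟩ := h0
  obtain ⟨v0, hv0⟩ := sp_nd hd hz0
  have h1 : ∀ v z y, toBilin' J v y * toBilin' J (v ᵥ* n) z =
      toBilin' J v z * toBilin' J (v ᵥ* n) y := fun v z y => by
    have := h v (toBilin' J v y • z - toBilin' J v z • y)
      (by simp only [map_sub, map_smul, smul_eq_mul]; ring)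
    simp only [map_sub, map_smul, smul_eq_mul] at this
    linear_combination this
  have h2 : ∀ v, toBilin' J (v ᵥ* n) v = 0 := fun v => h v v (sp_self hJ v)
  have h3 : ∀ v z, toBilin' J (v ᵥ* n) z = -toBilin' J (z ᵥ* n) v := fun v z => by
    have := h2 (v + z)
    simp only [add_vecMul, map_add, LinearMap.add_apply, h2] at this
    linear_combination this
  obtain ⟨c, hc⟩ : ∃ c, toBilin' J (v0 ᵥ* n) z0 = c * toBilin' J v0 z0 :=
    ⟨_, (div_mul_cancel₀ _ hv0).symm⟩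
  have h4 : ∀ z y, toBilin' J v0 z ≠ 0 → toBilin' J (z ᵥ* n) y = c * toBilin' J z y :=
    fun z y hz => by
      have e1 : toBilin' J (v0 ᵥ* n) z = c * toBilin' J v0 z :=
        mul_left_cancel₀ hv0 (by linear_combination h1 v0 z z0 + toBilin' J v0 z * hc)
      have e2 := h1 z y v0
      rw [h3 z v0, sp_skew hJ z v0, e1] at e2
      exact mul_left_cancel₀ hz (by linear_combination -e2)
  have h5 : ∀ z, z ᵥ* n = c • z := fun z => by
    by_contra e
    obtain ⟨y, hy⟩ := sp_nd hd (sub_ne_zero.mpr e)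
    apply hy
    rw [sp_skew hJ, map_sub, map_smul, LinearMap.sub_apply, LinearMap.smul_apply, smul_eq_mul]
    by_cases hz : toBilin' J v0 z = 0
    · have e1 := h4 (z + z0) y (by rwa [map_add, hz, zero_add])
      simp only [add_vecMul, map_add, LinearMap.add_apply] at e1
      linear_combination h4 z0 y hv0 - e1
    · linear_combination -h4 z y hz
  have h6 := sp_iff.mp hn v0 z0
  simp only [h5, map_smul, LinearMap.smul_apply, smul_eq_mul] at h6
  have h7 : c * c = 1 := mul_right_cancel₀ hv0 (by linear_combination h6)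
  rcases mul_self_eq_one_iff.mp h7 with rfl | rfl
  · exact .inl (sp_ext fun x => by rw [h5, one_smul, vecMul_one])
  · exact .inr (sp_ext fun x => by rw [h5, vecMul_neg, vecMul_one, neg_smul, one_smul])

theorem sp_norm0 (J : Matrix ν ν ℂ) (hJ : Jᵀ = -J) (hd : J.det ≠ 0) (N : Set (Matrix ν ν ℂ))
    (hm : ∀ a ∈ N, ∀ b ∈ N, a * b ∈ N) (hs : ∀ n ∈ N, n * J * nᵀ = J)
    (hc : ∀ h, h * J * hᵀ = J → ∀ n ∈ N, ∀ k, h * k = 1 → k * n * h ∈ N)
    (hi : ∀ n ∈ N, ∃ k ∈ N, n * k = 1) (hn : ∃ n ∈ N, n ≠ 1 ∧ n ≠ -1) :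
    ∀ g, g * J * gᵀ = J → g ∈ N := by
  obtain ⟨n, hn, hn1, hn2⟩ := hn
  have cj : ∀ {h k : Matrix ν ν ℂ}, h * J * hᵀ = J → h * k = 1 → ∀ v a,
      k * spT J v a * h = spT J (v ᵥ* h) a := fun hh hk v a => by
    rw [mul_assoc, spT_conj hh, ← mul_assoc, mul_eq_one_comm.mp hk, one_mul]
  let R : (ν → ℂ) → (ν → ℂ) → Prop := fun u w => spT J u 1 * spT J w (-1) ∈ N
  have symm : ∀ {u w}, R u w → R w u := fun {u w} h => by
    obtain ⟨k, hk, e⟩ := hi _ h
    have : k = spT J w 1 * spT J u (-1) := by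
      have e2 : spT J w 1 * spT J u (-1) * (spT J u 1 * spT J w (-1)) = 1 := by
        rw [mul_assoc, ← mul_assoc (spT J u (-1)), spT_inv hJ, one_mul, spT_inv' hJ]
      exact (left_inv_eq_right_inv e2 e).symm
    rwa [this] at hk
  have trans : ∀ {u w z}, R u w → R w z → R u z := fun {u w z} h1 h2 => by
    have := hm _ h1 _ h2
    rwa [mul_assoc, ← mul_assoc (spT J w (-1)), spT_inv hJ, one_mul] at this
  have inv : ∀ {u w}, R u w → ∀ z b, R (u ᵥ* spT J z b) (w ᵥ* spT J z b) := fun {u w} h z b => by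
    have := hc _ (spT_sp hJ z b) _ h _ (spT_inv' hJ z b)
    show _ * _ ∈ N
    rw [← cj (spT_sp hJ z b) (spT_inv' hJ z b), ← cj (spT_sp hJ z b) (spT_inv' hJ z b)]
    convert this using 1
    simp only [mul_assoc]
    rw [← mul_assoc (spT J z b), spT_inv' hJ, one_mul]
  have shift : ∀ {u w}, R u w → toBilin' J w u ≠ 0 → ∀ c : ℂ, R u (w + c • u) :=
    fun {u w} h h0 c => by
      have := inv h u (c / toBilin' J w u)
      rwa [spT_vec, spT_vec, sp_self hJ, mul_zero, zero_smul, add_zero, div_mul_cancel₀ _ h0]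
        at this
  have h1 : ∀ v, R (v ᵥ* n) v := fun v => by
    obtain ⟨k, hk, e⟩ := hi _ hn
    have := hm _ hk _ (hc _ (spT_sp hJ v (-1)) _ hn _ (spT_inv hJ v 1))
    show _ * _ ∈ N
    rw [← cj (hs n hn) e]
    simpa only [mul_assoc] using this
  obtain ⟨v, w, hR, h0⟩ : ∃ v w, R v w ∧ toBilin' J w v ≠ 0 := by
    by_contra e
    push Not at e
    refine (sp_scalar hJ hd (hs n hn) fun v z hz => ?_).elim hn1 hn2
    have e1 := inv (h1 v) z 1
    rw [spT_vec v, hz, mul_zero, zero_smul, add_zero, spT_vec] at e1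
    have e2 := e _ _ (trans e1 (symm (h1 v)))
    rw [map_add, map_smul, sp_self hJ, zero_add, one_mul, smul_eq_mul] at e2
    exact mul_self_eq_zero.mp e2
  have hv : v ≠ 0 := fun e => h0 (by rw [e, map_zero])
  have h2 : R v ((2 : ℂ) • v) := by
    have e1 := shift (trans (symm hR) (shift hR h0 2)) (by
      simp only [map_add, map_smul, LinearMap.add_apply, LinearMap.smul_apply, smul_eq_mul,
        sp_self hJ, sp_skew hJ v w, zero_add]
      exact mul_ne_zero two_ne_zero (neg_ne_zero.mpr h0)) (-1)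
    have e2 : w + (2 : ℂ) • v + (-1 : ℂ) • w = (2 : ℂ) • v := by module
    exact trans hR (e2 ▸ e1)
  have sq : ∀ a : ℂ, ∃ c : ℂ, c ^ 2 * 1 = a := fun a => by
    obtain ⟨c, e⟩ := IsAlgClosed.exists_pow_nat_eq a two_pos
    exact ⟨c, by rw [mul_one, e]⟩
  obtain ⟨c, e⟩ := sq (1 + 2 ^ 2 * -1)
  have h3 : spT J (c • v) 1 ∈ N := by
    have : _ * _ ∈ N := h2
    rwa [spT_smul, spT_add hJ, ← e, ← spT_smul] at this
  have hc0 : c • v ≠ 0 := smul_ne_zero (fun e0 => by rw [e0] at e; norm_num at e) hv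
  have mv : ∀ {u w}, spT J u 1 ∈ N → toBilin' J u w ≠ 0 → spT J w 1 ∈ N := fun {u w} h h0 => by
    have := hc _ (spT_sp hJ (w - u) (toBilin' J u w)⁻¹) _ h _ (spT_inv' hJ _ _)
    rwa [cj (spT_sp hJ _ _) (spT_inv' hJ _ _), spT_vec, map_sub, sp_self hJ, sub_zero,
      inv_mul_cancel₀ h0, one_smul, add_sub_cancel] at this
  have h4 : ∀ w, spT J w 1 ∈ N := fun w => by
    by_cases hw : w = 0
    · obtain ⟨k, hk, e⟩ := hi _ hn
      have := hm _ hn _ hk
      rw [e] at this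
      simpa [hw, spT] using this
    obtain ⟨x, hx⟩ := sp_nd hd hc0
    obtain ⟨y, hy⟩ := sp_nd hd hw
    have m2 : ∀ z, toBilin' J z (c • v) ≠ 0 → toBilin' J z w ≠ 0 → spT J w 1 ∈ N :=
      fun z a b => mv (mv h3 (by rw [sp_skew hJ]; exact neg_ne_zero.mpr a)) b
    by_cases e1 : toBilin' J x w = 0
    · by_cases e2 : toBilin' J y (c • v) = 0
      · exact m2 (x + y) (by rwa [map_add, LinearMap.add_apply, e2, add_zero])
          (by rwa [map_add, LinearMap.add_apply, e1, zero_add])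
      · exact m2 y e2 hy
    · exact m2 x hx e1
  refine sp_gen hJ hd N hm fun w a => ?_
  obtain ⟨c, e⟩ := sq a
  rw [← e, ← spT_smul]
  exact h4 _

end

end Pool.Agent.Lib.MP_5591bc_ag.A
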