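import Pool.Agent.Lib.MP_5591bc_ag.A.Set
import Pool.Agent.Lib.MP_5591bc_ag.A.SpA

/-! Normal subgroups of the symplectic group. -/

namespace Pool.Agent.Lib.MP_5591bc_ag.A

open Matrix Filter Topology Metric G R W M

noncomputable section

/-- transvections `1 + a • vecMulVec (J *ᵥ v) v` -/
theorem sp_normal {ν : Type*} [Fintype ν] [DecidableEq ν] {J : Matrix ν ν ℂ} (hJ : Jᵀ = -J)
    (J0 : J.det ≠ 0) {N : Set (Matrix ν ν ℂ)} (hN : ∀ a ∈ N, a * J * aᵀ = J) (h1 : 1 ∈ N)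
    (hm : ∀ a ∈ N, ∀ b ∈ N, a * b ∈ N) (hi : ∀ a ∈ N, ∃ b ∈ N, a * b = 1)
    (hn : ∀ a ∈ N, ∀ g g', g * J * gᵀ = J → g' * g = 1 → g' * a * g ∈ N)
    (h0 : ∃ a ∈ N, a ≠ 1 ∧ a ≠ -1) : ∀ g, g * J * gᵀ = J → g ∈ N :=
  have _ := h1
  sp_norm0 J hJ J0 N hm hN (fun h hh n hn' k e => hn n hn' h k hh (mul_eq_one_comm.mp e)) hi h0

end

end Pool.Agent.Lib.MP_5591bc_ag.A
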